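import Mathlib
import Pool.Agent.H524R3.Trig

/-!
# Summation by parts and elementary bounds for exp (π i x)
-/

set_option autoImplicit false

open Finset H524R3

namespace Pool.Agent.L0h28.Aec

theorem sum_parts (w F : ℕ → ℂ) (a b : ℕ) (hab : a ≤ b) :
    ∑ i ∈ Ico a b, w i * (F (i + 1) - F i) =
      w b * F b - w a * F a - ∑ i ∈ Ico a b, (w (i + 1) - w i) * F (i + 1) := by
  induction b, hab using Nat.le_induction with
  | base => simp
  | succ b hab ih =>
    rw [Finset.sum_Ico_succ_top hab, Finset.sum_Ico_succ_top hab, ih]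
    ring

theorem sum_parts_norm (w F : ℕ → ℂ) (hF : ∀ i, ‖F i‖ ≤ 1) (a b : ℕ) (hab : a ≤ b) :
    ‖∑ i ∈ Ico a b, w i * (F (i + 1) - F i)‖ ≤
      ‖w b‖ + ‖w a‖ + ∑ i ∈ Ico a b, ‖w (i + 1) - w i‖ := by
  rw [sum_parts w F a b hab]
  refine (norm_sub_le _ _).trans (add_le_add ((norm_sub_le _ _).trans (add_le_add ?_ ?_)) ?_)
  · rw [norm_mul]
    exact mul_le_of_le_one_right (norm_nonneg _) (hF b)
  · rw [norm_mul]
    exact mul_le_of_le_one_right (norm_nonneg _) (hF a)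
  · refine (norm_sum_le _ _).trans (Finset.sum_le_sum fun i _ => ?_)
    rw [norm_mul]
    exact mul_le_of_le_one_right (norm_nonneg _) (hF (i + 1))

/-- |exp (π i x) - 1| = 2 |sin (π x / 2)| -/
theorem norm_E_sub_one (x : ℝ) : ‖E x - 1‖ = 2 * |Real.sin (Real.pi * x / 2)| := by
  have h1 : ‖E x - 1‖ ^ 2 = (2 * |Real.sin (Real.pi * x / 2)|) ^ 2 := by
    rw [← Complex.normSq_eq_norm_sq, E_eq, Complex.normSq_apply]
    simp only [Complex.sub_re, Complex.one_re, Complex.sub_im, Complex.one_im]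
    rw [mul_pow, sq_abs]
    have h2 : Real.cos (Real.pi * x) = 1 - 2 * Real.sin (Real.pi * x / 2) ^ 2 := by
      have := Real.cos_sq' (Real.pi * x / 2)
      have h3 := Real.cos_two_mul (Real.pi * x / 2)
      rw [show 2 * (Real.pi * x / 2) = Real.pi * x by ring] at h3
      linarith
    have h4 := Real.sin_sq_add_cos_sq (Real.pi * x)
    nlinarith [h2, h4]
  have h5 : 0 ≤ 2 * |Real.sin (Real.pi * x / 2)| := by positivity
  exact (pow_left_inj₀ (norm_nonneg _) h5 two_ne_zero).mp h1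

theorem norm_E_sub_one_ge {x : ℝ} (h0 : 0 ≤ x) (h1 : x ≤ 1) : 2 * x ≤ ‖E x - 1‖ := by
  rw [norm_E_sub_one]
  have hpi := Real.pi_pos
  have h2 := Real.mul_le_sin (x := Real.pi * x / 2) (by positivity) (by nlinarith)
  have h3 : 2 / Real.pi * (Real.pi * x / 2) = x := by field_simp
  rw [h3] at h2
  have h4 := le_abs_self (Real.sin (Real.pi * x / 2))
  linarith

theorem norm_E_sub_one_ge' {x : ℝ} (h0 : 0 ≤ x) (h1 : x ≤ 2) : 2 * min x (2 - x) ≤ ‖E x - 1‖ := by
  rcases le_total x 1 with h | h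
  · exact (mul_le_mul_of_nonneg_left (min_le_left _ _) zero_le_two).trans (norm_E_sub_one_ge h0 h)
  · have h2 := norm_E_sub_one_ge (x := 2 - x) (by linarith) (by linarith)
    have h3 : ‖E (2 - x) - 1‖ = ‖E x - 1‖ := by
      rw [norm_E_sub_one, norm_E_sub_one]
      rw [show Real.pi * (2 - x) / 2 = Real.pi - Real.pi * x / 2 by ring, Real.sin_pi_sub]
    rw [h3] at h2
    exact (mul_le_mul_of_nonneg_left (min_le_right _ _) zero_le_two).trans h2

theorem norm_E_sub_one_le (x : ℝ) : ‖E x - 1‖ ≤ Real.pi * |x| := by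
  rw [norm_E_sub_one]
  have h1 : |Real.sin (Real.pi * x / 2)| ≤ |Real.pi * x / 2| := Real.abs_sin_le_abs
  have h2 : |Real.pi * x / 2| = Real.pi * |x| / 2 := by
    rw [abs_div, abs_mul, abs_of_pos Real.pi_pos, abs_two]
  linarith

theorem norm_E_sub_one_le_two (x : ℝ) : ‖E x - 1‖ ≤ 2 := by
  refine (norm_sub_le _ _).trans ?_
  rw [E_norm]; norm_num

theorem norm_E_sub_E_le (x y : ℝ) : ‖E x - E y‖ ≤ Real.pi * |x - y| := by
  have h : E x - E y = E y * (E (x - y) - 1) := by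
    rw [mul_sub, ← E_add]; ring_nf
  rw [h, norm_mul, E_norm, one_mul]
  exact norm_E_sub_one_le _

/-- |exp (π i x) - 1 - π i x| ≤ 20 x ^ 2 -/
theorem norm_E_sub_one_sub_le (x : ℝ) : ‖E x - 1 - Real.pi * Complex.I * x‖ ≤ 20 * x ^ 2 := by
  have hpi : Real.pi ≤ 4 := Real.pi_le_four
  have hpi3 : 3 < Real.pi := Real.pi_gt_three
  have hn : ‖(Real.pi : ℂ) * Complex.I * x‖ = Real.pi * |x| := by
    rw [norm_mul, norm_mul, Complex.norm_I, mul_one, Complex.norm_real, Complex.norm_real,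
      Real.norm_eq_abs, Real.norm_eq_abs, abs_of_pos Real.pi_pos]
  rcases le_total (Real.pi * |x|) 1 with h | h
  · have h1 := Complex.norm_exp_sub_one_sub_id_le (x := (Real.pi : ℂ) * Complex.I * x) (by rw [hn]; exact h)
    rw [hn] at h1
    unfold E
    refine h1.trans ?_
    rw [mul_pow, sq_abs]
    have : Real.pi ^ 2 ≤ 20 := by nlinarith
    exact mul_le_mul_of_nonneg_right this (sq_nonneg _)
  · have h1 : ‖E x - 1 - Real.pi * Complex.I * x‖ ≤ Real.pi * |x| + Real.pi * |x| := by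
      refine (norm_sub_le _ _).trans (add_le_add (norm_E_sub_one_le x) (le_of_eq hn))
    refine h1.trans ?_
    have h2 : |x| * 1 ≤ |x| * (Real.pi * |x|) := mul_le_mul_of_nonneg_left h (abs_nonneg _)
    have h3 : |x| * |x| = x ^ 2 := by rw [← sq, sq_abs]
    have h4 : Real.pi ≤ 3.15 := Real.pi_lt_d2.le
    have h5 : |x| ≤ Real.pi * x ^ 2 := by nlinarith
    have h6 : Real.pi * |x| ≤ Real.pi * (Real.pi * x ^ 2) := mul_le_mul_of_nonneg_left h5 (by linarith)
    have h7 : Real.pi * Real.pi ≤ 10 := by nlinarith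
    nlinarith [sq_nonneg x, mul_le_mul_of_nonneg_right h7 (sq_nonneg x)]

/-- The reciprocal of exp (π i x) - 1. -/
noncomputable def vv (x : ℝ) : ℂ := (E x - 1)⁻¹

theorem norm_vv_le {x : ℝ} (h0 : 0 < x) (h1 : x ≤ 1) : ‖vv x‖ ≤ 1 / (2 * x) := by
  unfold vv
  rw [norm_inv, one_div]
  exact inv_anti₀ (by linarith) (norm_E_sub_one_ge h0.le h1)

theorem norm_vv_sub_le {x y : ℝ} (h0 : 0 < x) (h1 : x ≤ 1) (h2 : 0 < y) (h3 : y ≤ 1) :
    ‖vv y - vv x‖ ≤ |y - x| / (x * y) := by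
  have hx := norm_E_sub_one_ge h0.le h1
  have hy := norm_E_sub_one_ge h2.le h3
  have hx0 : 0 < ‖E x - 1‖ := by linarith
  have hy0 : 0 < ‖E y - 1‖ := by linarith
  have hx1 : E x - 1 ≠ 0 := norm_pos_iff.mp hx0
  have hy1 : E y - 1 ≠ 0 := norm_pos_iff.mp hy0
  have h4 : vv y - vv x = (E x - E y) / ((E x - 1) * (E y - 1)) := by
    unfold vv
    field_simp
    ring
  rw [h4, norm_div, norm_mul]
  have h5 := norm_E_sub_E_le x y
  have h6 : Real.pi ≤ 4 := Real.pi_le_four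
  have h7 : 4 * (x * y) ≤ ‖E x - 1‖ * ‖E y - 1‖ := by
    have := mul_le_mul hx hy (by linarith) (by linarith)
    nlinarith
  rw [abs_sub_comm] at h5
  rw [div_le_div_iff₀ (by positivity) (by positivity)]
  calc ‖E x - E y‖ * (x * y) ≤ (Real.pi * |y - x|) * (x * y) :=
        mul_le_mul_of_nonneg_right h5 (by positivity)
    _ ≤ (4 * |y - x|) * (x * y) := by
        refine mul_le_mul_of_nonneg_right ?_ (by positivity)
        exact mul_le_mul_of_nonneg_right h6 (abs_nonneg _)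
    _ = |y - x| * (4 * (x * y)) := by ring
    _ ≤ |y - x| * (‖E x - 1‖ * ‖E y - 1‖) := mul_le_mul_of_nonneg_left h7 (abs_nonneg _)

/-- Harmonic sums are at most 2 √n. -/
theorem harmonic_le_sqrt (n : ℕ) : ∑ i ∈ range n, (1 : ℝ) / (i + 1) ≤ 2 * Real.sqrt n := by
  induction n with
  | zero => simp
  | succ n ih =>
    rw [Finset.sum_range_succ]
    push_cast
    have hn : (0 : ℝ) ≤ n := Nat.cast_nonneg n
    have h1 : Real.sqrt (n + 1) ^ 2 = n + 1 := Real.sq_sqrt (by linarith)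
    have h2 : Real.sqrt n ^ 2 = n := Real.sq_sqrt hn
    have h3 : 1 ≤ Real.sqrt (n + 1) := Real.one_le_sqrt.mpr (by linarith)
    have h4 : 0 ≤ Real.sqrt n := Real.sqrt_nonneg _
    have h5 : Real.sqrt n ≤ Real.sqrt (n + 1) := Real.sqrt_le_sqrt (by linarith)
    have h6 : (1 : ℝ) / (n + 1) ≤ 2 * (Real.sqrt (n + 1) - Real.sqrt n) := by
      rw [div_le_iff₀ (by linarith)]
      have h7 : (Real.sqrt (n + 1) - Real.sqrt n) * (Real.sqrt (n + 1) + Real.sqrt n) = 1 := by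
        nlinarith
      nlinarith [mul_nonneg (sub_nonneg.mpr h5) (sub_nonneg.mpr h5),
        mul_nonneg (sub_nonneg.mpr h5) (sub_nonneg.mpr h3)]
    linarith

/-- Σ_{a ≤ i < b} 1 / ((i + 1) (i + 2)) ≤ 1 / (a + 1) -/
theorem telescope_le (a b : ℕ) (hab : a ≤ b) :
    ∑ i ∈ Ico a b, (1 : ℝ) / ((i + 1) * (i + 2)) ≤ 1 / (a + 1) := by
  have h : ∑ i ∈ Ico a b, (1 : ℝ) / ((i + 1) * (i + 2)) = 1 / (a + 1) - 1 / (b + 1) := by
    induction b, hab using Nat.le_induction with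
    | base => simp
    | succ b hab ih =>
      rw [Finset.sum_Ico_succ_top hab, ih]
      push_cast
      have h1 : (b : ℝ) + 1 ≠ 0 := by positivity
      have h2 : (b : ℝ) + 2 ≠ 0 := by positivity
      have h3 : (b : ℝ) + 1 + 1 ≠ 0 := by positivity
      have h4 : (a : ℝ) + 1 ≠ 0 := by positivity
      field_simp
      ring
  rw [h]
  have : (0 : ℝ) ≤ 1 / (b + 1) := by positivity
  linarith

end Pool.Agent.L0h28.Aec
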