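import Mathlib
import Pool.Agent.H524R3.Trig
import Pool.Agent.H524R3.Gauss

/-!
# Exact evaluation of the sums along the branches of the tree
-/

set_option autoImplicit false

open Finset H524R3

namespace Pool.Agent.L0h28.Aec

theorem per_step (N : ℕ) (f : ℤ → ℂ) (hf : ∀ x, f (x + N) = f x) (a : ℤ) :
    ∑ k ∈ range N, f (k + (a + 1)) = ∑ k ∈ range N, f (k + a) := by
  have h := sum_range_shift (fun k : ℕ => f (k + a)) N (by
    show f ((N : ℤ) + a) = f (((0 : ℕ) : ℤ) + a)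
    rw [add_comm (N : ℤ) a, hf]; simp)
  rw [← h]
  refine Finset.sum_congr rfl fun k _ => ?_
  congr 1
  push_cast
  ring

theorem per_sum (N : ℕ) (f : ℤ → ℂ) (hf : ∀ x, f (x + N) = f x) (a : ℤ) :
    ∑ k ∈ range N, f (k + a) = ∑ k ∈ range N, f k := by
  induction a using Int.induction_on with
  | zero => simp
  | succ a ih => rw [per_step N f hf, ih]
  | pred a ih =>
    rw [← ih, ← per_step N f hf (-(a : ℤ) - 1)]
    refine Finset.sum_congr rfl fun k _ => ?_
    congr 1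
    ring

/-- Folding a sum over a full period. -/
theorem fold_sum (r : ℕ) (h : ℤ → ℂ) (hp : ∀ x, h (x + (2 * r : ℕ)) = h x) (h0 : h 0 = 0)
    (hr : h r = 0) : ∑ k ∈ range (2 * r), h k = ∑ k ∈ Icc 1 (r - 1), (h k + h (-k)) := by
  rcases Nat.eq_zero_or_pos r with hr0 | hr0
  · subst hr0; simp
  have h1 : ∑ k ∈ range (2 * r), h k = ∑ k ∈ range r, h k + ∑ k ∈ range r, h ((r + k : ℕ) : ℤ) := by
    rw [two_mul, Finset.sum_range_add]
  have h2 : ∑ k ∈ range r, h ((r + k : ℕ) : ℤ) = ∑ k ∈ range r, h (-(k : ℤ)) := by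
    rw [← sum_range_neg (fun k : ℕ => h ((r + k : ℕ) : ℤ)) r]
    · refine Finset.sum_congr rfl fun k hk => ?_
      rw [mem_range] at hk
      rw [← hp (-(k : ℤ))]
      congr 1
      push_cast [Nat.cast_sub hk.le]
      ring
    · show h ((r + r : ℕ) : ℤ) = h ((r + 0 : ℕ) : ℤ)
      have : ((r + r : ℕ) : ℤ) = 0 + ((2 * r : ℕ) : ℤ) := by push_cast; ring
      rw [this, hp, h0, add_zero, hr]
  rw [h1, h2, ← Finset.sum_add_distrib]
  have h3 : range r = insert 0 (Icc 1 (r - 1)) := by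
    ext x; simp only [mem_range, mem_insert, mem_Icc]; omega
  rw [h3, Finset.sum_insert (by simp)]
  simp [h0]

/-- The building block. -/
noncomputable def TT (r : ℕ) (p s e k : ℤ) : ℂ :=
  if p ∣ s * k - e then E ((s * k ^ 2 - 2 * e * k) / (2 * r * p)) else 0

theorem TT_period (r : ℕ) (hr : 0 < r) (p s e k : ℤ) (hp : p ≠ 0) (hpr : p ∣ r) :
    TT r p s e (k + (2 * r : ℕ)) = TT r p s e k := by
  have hr' : (r : ℝ) ≠ 0 := by exact_mod_cast hr.ne'
  have hp' : (p : ℝ) ≠ 0 := by exact_mod_cast hp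
  obtain ⟨t, ht⟩ := hpr
  have hd : p ∣ s * (k + (2 * r : ℕ)) - e ↔ p ∣ s * k - e := by
    have h1 : s * (k + (2 * r : ℕ)) - e = (s * k - e) + p * (2 * s * t) := by
      push_cast; rw [ht]; ring
    rw [h1]
    exact (Int.dvd_add_left (Dvd.intro _ rfl))
  unfold TT
  by_cases h : p ∣ s * k - e
  · rw [if_pos h, if_pos (hd.mpr h)]
    obtain ⟨μ, hμ⟩ := h
    have ht' : (r : ℝ) = p * t := by exact_mod_cast ht
    have hμ' : (s : ℝ) * k - e = p * μ := by exact_mod_cast hμ
    have h2 : ((s : ℝ) * ((k + (2 * r : ℕ) : ℤ) : ℝ) ^ 2 - 2 * e * ((k + (2 * r : ℕ) : ℤ) : ℝ)) / (2 * r * p) =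
        ((s : ℝ) * (k : ℝ) ^ 2 - 2 * e * k) / (2 * r * p) + ((2 * (μ + s * t) : ℤ) : ℝ) := by
      have h3 : ((2 * (μ + s * t) : ℤ) : ℝ) = 2 * ((s : ℝ) * k - e) / p + 2 * s * (p * t) / p := by
        rw [hμ']; push_cast; field_simp
      rw [h3, ← ht']
      push_cast
      field_simp
      ring
    rw [h2, E_add, E_even _ (even_two_mul _), mul_one]
  · rw [if_neg h, if_neg (fun h' => h (hd.mp h'))]

theorem TT_neg (r : ℕ) (p s e k : ℤ) : TT r p s e (-k) = TT r p s (-e) k := by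
  unfold TT
  have hd : p ∣ s * (-k) - e ↔ p ∣ s * k - -e := by
    rw [← dvd_neg]
    have : -(s * (-k) - e) = s * k - -e := by ring
    rw [this]
  by_cases h : p ∣ s * k - -e
  · rw [if_pos h, if_pos (hd.mpr h)]
    congr 1
    push_cast
    ring
  · rw [if_neg h, if_neg (fun h' => h (hd.mp h'))]

theorem TT_neg_neg (r : ℕ) (p s e k : ℤ) : TT r (-p) (-s) e k = TT r p s (-e) k := by
  unfold TT
  have hd : -p ∣ -s * k - e ↔ p ∣ s * k - -e := by
    rw [neg_dvd, ← dvd_neg]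
    have : -(-s * k - e) = s * k - -e := by ring
    rw [this]
  by_cases h : p ∣ s * k - -e
  · rw [if_pos h, if_pos (hd.mpr h)]
    congr 1
    push_cast
    rw [show (2 : ℝ) * r * -(p : ℝ) = -(2 * r * p) by ring, div_neg, ← neg_div]
    congr 1
    ring
  · rw [if_neg h, if_neg (fun h' => h (hd.mp h'))]

theorem TT_twist (r : ℕ) (hr : 0 < r) (p s e k a : ℤ) (hp : p ≠ 0) :
    E ((a : ℝ) * k ^ 2 / (2 * r)) * TT r p s e k = TT r p (s + a * p) e k := by
  have hr' : (r : ℝ) ≠ 0 := by exact_mod_cast hr.ne'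
  have hp' : (p : ℝ) ≠ 0 := by exact_mod_cast hp
  unfold TT
  have hd : p ∣ (s + a * p) * k - e ↔ p ∣ s * k - e := by
    have h1 : (s + a * p) * k - e = (s * k - e) + p * (a * k) := by ring
    rw [h1]
    exact (Int.dvd_add_left (Dvd.intro _ rfl))
  by_cases h : p ∣ s * k - e
  · rw [if_pos h, if_pos (hd.mpr h), ← E_add]
    congr 1
    push_cast
    field_simp
    ring
  · rw [if_neg h, if_neg (fun h' => h (hd.mp h')), mul_zero]

theorem TT_char (r : ℕ) (hr : 0 < r) (p s e k j : ℤ) (hp : p ≠ 0) :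
    TT r p s e k * E ((j : ℝ) * k / r) = TT r p s (e - p * j) k := by
  have hr' : (r : ℝ) ≠ 0 := by exact_mod_cast hr.ne'
  have hp' : (p : ℝ) ≠ 0 := by exact_mod_cast hp
  unfold TT
  have hd : p ∣ s * k - (e - p * j) ↔ p ∣ s * k - e := by
    have h1 : s * k - (e - p * j) = (s * k - e) + p * j := by ring
    rw [h1]
    exact (Int.dvd_add_left (Dvd.intro _ rfl))
  by_cases h : p ∣ s * k - e
  · rw [if_pos h, if_pos (hd.mpr h), ← E_add]
    congr 1
    push_cast
    field_simp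
    ring
  · rw [if_neg h, if_neg (fun h' => h (hd.mp h')), zero_mul]

theorem TT_mul (r : ℕ) (hr : 0 < r) (p q s s' e e' k : ℤ) (hp : p ≠ 0) (hq : q ≠ 0)
    (hpq : IsCoprime p q) :
    TT r p s e k * TT r q s' e' k = TT r (p * q) (s * q + s' * p) (e * q + e' * p) k := by
  have hr' : (r : ℝ) ≠ 0 := by exact_mod_cast hr.ne'
  have hp' : (p : ℝ) ≠ 0 := by exact_mod_cast hp
  have hq' : (q : ℝ) ≠ 0 := by exact_mod_cast hq
  have key : (s * q + s' * p) * k - (e * q + e' * p) = q * (s * k - e) + p * (s' * k - e') := by ring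
  unfold TT
  by_cases h : p ∣ s * k - e
  · by_cases h' : q ∣ s' * k - e'
    · rw [if_pos h, if_pos h', if_pos, ← E_add]
      · congr 1
        push_cast
        field_simp
        ring
      · rw [key]
        obtain ⟨a, ha⟩ := h
        obtain ⟨b, hb⟩ := h'
        rw [ha, hb]
        exact ⟨a + b, by ring⟩
    · rw [if_pos h, if_neg h', if_neg, mul_zero]
      intro h2
      apply h'
      rw [key] at h2
      have h3 : q ∣ q * (s * k - e) + p * (s' * k - e') := (Dvd.intro_left p rfl).trans h2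
      have h4 : q ∣ p * (s' * k - e') := (Int.dvd_add_right (Dvd.intro _ rfl)).mp h3
      exact hpq.symm.dvd_of_dvd_mul_left h4
  · rw [if_neg h, zero_mul, if_neg]
    intro h2
    apply h
    rw [key] at h2
    have h3 : p ∣ q * (s * k - e) + p * (s' * k - e') := (Dvd.intro q rfl).trans h2
    have h4 : p ∣ q * (s * k - e) := (Int.dvd_add_left (Dvd.intro _ rfl)).mp h3
    exact hpq.dvd_of_dvd_mul_left h4

/-- The Gauss sum. -/
noncomputable def GG (r : ℕ) (p s : ℤ) : ℂ := ∑ k ∈ range (2 * r), TT r p s 0 k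

theorem TT_sum (r : ℕ) (hr : 0 < r) (p s e : ℤ) (hp : p ≠ 0) (hs : s ≠ 0) (hco : IsCoprime p s)
    (hps : p * s ∣ r) :
    ∑ k ∈ range (2 * r), TT r p s e k =
      if s ∣ e then E (-(e : ℝ) ^ 2 / (2 * r * p * s)) * GG r p s else 0 := by
  have hr' : (r : ℝ) ≠ 0 := by exact_mod_cast hr.ne'
  have hp' : (p : ℝ) ≠ 0 := by exact_mod_cast hp
  have hs' : (s : ℝ) ≠ 0 := by exact_mod_cast hs
  have hpr : p ∣ r := (Dvd.intro s rfl).trans hps
  by_cases h : s ∣ e
  · rw [if_pos h]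
    obtain ⟨w, hw⟩ := h
    have h1 : ∀ k : ℤ, TT r p s e k = E (-(e : ℝ) ^ 2 / (2 * r * p * s)) * TT r p s 0 (k + -w) := by
      intro k
      unfold TT
      have hd : p ∣ s * (k + -w) - 0 ↔ p ∣ s * k - e := by
        have : s * (k + -w) - 0 = s * k - e := by rw [hw]; ring
        rw [this]
      by_cases h : p ∣ s * k - e
      · rw [if_pos h, if_pos (hd.mpr h), ← E_add]
        congr 1
        rw [hw]
        push_cast
        field_simp
        ring
      · rw [if_neg h, if_neg (fun h' => h (hd.mp h')), mul_zero]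
    have h2 : ∑ k ∈ range (2 * r), TT r p s e k =
        ∑ k ∈ range (2 * r), E (-(e : ℝ) ^ 2 / (2 * r * p * s)) * TT r p s 0 (k + -w) :=
      Finset.sum_congr rfl fun k _ => h1 k
    rw [h2, ← Finset.mul_sum]
    congr 1
    exact per_sum (2 * r) (TT r p s 0) (fun x => TT_period r hr p s 0 x hp hpr) (-w)
  · rw [if_neg h]
    obtain ⟨t, ht⟩ := hps
    obtain ⟨a, b, hab⟩ := hco
    -- the shift by 2 p t multiplies by a constant
    have hconst : ∀ x : ℤ, TT r p s e (x + 2 * p * t) = E (-(2 * a * e) / s) * TT r p s e x := by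
      intro x
      unfold TT
      have hd : p ∣ s * (x + 2 * p * t) - e ↔ p ∣ s * x - e := by
        have h1 : s * (x + 2 * p * t) - e = (s * x - e) + p * (2 * s * t) := by ring
        rw [h1]
        exact (Int.dvd_add_left (Dvd.intro _ rfl))
      by_cases h : p ∣ s * x - e
      · rw [if_pos h, if_pos (hd.mpr h), ← E_add]
        obtain ⟨μ, hμ⟩ := h
        have hμ' : (s : ℝ) * x - e = p * μ := by exact_mod_cast hμ
        have ht' : (r : ℝ) = p * s * t := by exact_mod_cast ht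
        have ht0 : (t : ℝ) ≠ 0 := by
          intro h0; rw [h0, mul_zero] at ht'; exact hr' ht'
        -- μ + a e = s (a x + b μ)
        have h3 : μ + a * e = s * (a * x + b * μ) := by
          have : μ = (a * p + b * s) * μ := by rw [hab]; ring
          have h4 : a * (p * μ) = a * (s * x - e) := by rw [hμ]
          linear_combination this + h4
        have h3' : (μ : ℝ) + a * e = s * (a * x + b * μ) := by exact_mod_cast h3
        have h5 : ((s : ℝ) * ((x + 2 * p * t : ℤ) : ℝ) ^ 2 - 2 * e * ((x + 2 * p * t : ℤ) : ℝ)) /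
            (2 * r * p) = (-(2 * (a : ℝ) * e) / s + ((s : ℝ) * (x : ℝ) ^ 2 - 2 * e * x) / (2 * r * p)) +
              ((2 * ((a * x + b * μ) + t) : ℤ) : ℝ) := by
          have h6 : ((2 * ((a * x + b * μ) + t) : ℤ) : ℝ) = 2 * (μ + a * e) / s + 2 * t := by
            rw [h3']; push_cast; field_simp
          have h7 : (μ : ℝ) = (s * x - e) / p := by rw [hμ']; field_simp
          rw [h6, h7, ht']
          push_cast
          field_simp
          ring
        rw [h5, E_add, E_even _ (even_two_mul _), mul_one]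
      · rw [if_neg h, if_neg (fun h' => h (hd.mp h')), mul_zero]
    have h1 := per_sum (2 * r) (TT r p s e) (fun x => TT_period r hr p s e x hp hpr) (2 * p * t)
    have h2 : ∑ k ∈ range (2 * r), TT r p s e (k + 2 * p * t) =
        E (-(2 * a * e) / s) * ∑ k ∈ range (2 * r), TT r p s e k := by
      rw [Finset.mul_sum]
      exact Finset.sum_congr rfl fun k _ => hconst k
    rw [h2] at h1
    have hne : E (-(2 * a * e) / s) ≠ 1 := by
      apply E_ne_one_of
      intro k hk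
      apply h
      have h3 : (a : ℝ) * e = -(s * k) := by
        field_simp at hk
        linarith
      have h4 : a * e = -(s * k) := by exact_mod_cast h3
      -- e = (a p + b s) e
      have h5 : e = s * (b * e - p * k) := by
        have : e = (a * p + b * s) * e := by rw [hab]; ring
        linear_combination this + p * h4
      exact ⟨_, h5⟩
    have h3 : (E (-(2 * a * e) / s) - 1) * ∑ k ∈ range (2 * r), TT r p s e k = 0 := by
      rw [sub_mul, h1]; ring
    rcases mul_eq_zero.mp h3 with h4 | h4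
    · exact absurd (sub_eq_zero.mp h4) hne
    · exact h4

/-- The vector of a branch. -/
noncomputable def FF (r : ℕ) (p s k : ℤ) : ℂ := TT r p s 1 k - TT r p s (-1) k

theorem FF_odd (r : ℕ) (p s k : ℤ) : FF r p s (-k) = -FF r p s k := by
  unfold FF
  rw [TT_neg, TT_neg, neg_neg]; ring

theorem FF_neg_neg (r : ℕ) (p s k : ℤ) : FF r (-p) (-s) k = -FF r p s k := by
  unfold FF
  rw [TT_neg_neg, TT_neg_neg, neg_neg]; ring

theorem FF_period (r : ℕ) (hr : 0 < r) (p s k : ℤ) (hp : p ≠ 0) (hpr : p ∣ r) :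
    FF r p s (k + (2 * r : ℕ)) = FF r p s k := by
  unfold FF
  rw [TT_period r hr p s 1 k hp hpr, TT_period r hr p s (-1) k hp hpr]

theorem FF_twist (r : ℕ) (hr : 0 < r) (p s k a : ℤ) (hp : p ≠ 0) :
    E ((a : ℝ) * k ^ 2 / (2 * r)) * FF r p s k = FF r p (s + a * p) k := by
  unfold FF
  rw [mul_sub, TT_twist r hr p s 1 k a hp, TT_twist r hr p s (-1) k a hp]

theorem FF_zero (r : ℕ) (p s : ℤ) : FF r p s 0 = 0 := by
  have h := FF_odd r p s 0
  rw [neg_zero] at h
  have h2 : (2 : ℂ) * FF r p s 0 = 0 := by linear_combination h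
  rcases mul_eq_zero.mp h2 with h3 | h3
  · norm_num at h3
  · exact h3

theorem FF_r (r : ℕ) (hr : 0 < r) (p s : ℤ) (hp : p ≠ 0) (hpr : p ∣ r) : FF r p s r = 0 := by
  have h := FF_period r hr p s (-(r : ℤ)) hp hpr
  have h1 : -(r : ℤ) + (2 * r : ℕ) = r := by push_cast; ring
  rw [h1, FF_odd] at h
  have h2 : (2 : ℂ) * FF r p s r = 0 := by linear_combination h
  rcases mul_eq_zero.mp h2 with h3 | h3
  · norm_num at h3
  · exact h3

theorem E_sub_neg (x : ℝ) : E x - E (-x) = 2 * Complex.I * (Real.sin (Real.pi * x) : ℂ) := by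
  apply Complex.ext
  · rw [Complex.sub_re, E_re, E_re, mul_neg, Real.cos_neg]
    simp only [Complex.mul_re, Complex.mul_im, Complex.ofReal_re, Complex.ofReal_im, Complex.I_re,
      Complex.I_im, Complex.re_ofNat, Complex.im_ofNat]
    ring
  · rw [Complex.sub_im, E_im, E_im, mul_neg, Real.sin_neg]
    simp only [Complex.mul_re, Complex.mul_im, Complex.ofReal_re, Complex.ofReal_im, Complex.I_re,
      Complex.I_im, Complex.re_ofNat, Complex.im_ofNat]
    ring

theorem FF_one_zero (r : ℕ) (k : ℤ) :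
    (Real.sin (Real.pi * k / r) : ℂ) = (Complex.I / 2) * FF r 1 0 k := by
  unfold FF TT
  rw [if_pos (one_dvd _), if_pos (one_dvd _)]
  have h1 : (((0 : ℤ) : ℝ) * (k : ℝ) ^ 2 - 2 * ((1 : ℤ) : ℝ) * k) / (2 * r * ((1 : ℤ) : ℝ)) = -(k / r) := by
    push_cast
    rcases eq_or_ne (r : ℝ) 0 with h | h
    · rw [h]; simp
    · field_simp; ring
  have h2 : (((0 : ℤ) : ℝ) * (k : ℝ) ^ 2 - 2 * ((-1 : ℤ) : ℝ) * k) / (2 * r * ((1 : ℤ) : ℝ)) = k / r := by
    push_cast
    rcases eq_or_ne (r : ℝ) 0 with h | h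
    · rw [h]; simp
    · field_simp; ring
  rw [h1, h2]
  have h3 := E_sub_neg (k / r)
  rw [show Real.pi * (k : ℝ) / r = Real.pi * (k / r) by ring]
  have hI : Complex.I * Complex.I = -1 := Complex.I_mul_I
  linear_combination (Complex.I / 2) * h3 + ((Real.sin (Real.pi * (k / r)) : ℂ)) * hI

/-- The S-transform of the vector of a branch. -/
theorem FF_transform (r : ℕ) (hr : 0 < r) (p s : ℤ) (hp : p ≠ 0) (hs : s ≠ 0) (hco : IsCoprime p s)
    (hps : p * s ∣ r) (l : ℤ) :
    ∑ k ∈ Icc 1 (r - 1), FF r p s k * (Real.sin (Real.pi * (k * l / r)) : ℂ) =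
      (Complex.I / 2 * E (-1 / (2 * r * p * s)) * GG r p s) * FF r s (-p) l := by
  have hr' : (r : ℝ) ≠ 0 := by exact_mod_cast hr.ne'
  have hp' : (p : ℝ) ≠ 0 := by exact_mod_cast hp
  have hs' : (s : ℝ) ≠ 0 := by exact_mod_cast hs
  have hpr : p ∣ r := (Dvd.intro s rfl).trans hps
  have h1 := fold_sum r (fun k => FF r p s k * E ((l : ℝ) * k / r)) (by
      intro x
      show FF r p s (x + (2 * r : ℕ)) * E ((l : ℝ) * ((x + (2 * r : ℕ) : ℤ) : ℝ) / r) =
        FF r p s x * E ((l : ℝ) * x / r)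
      rw [FF_period r hr p s x hp hpr]
      congr 1
      have : (l : ℝ) * ((x + (2 * r : ℕ) : ℤ) : ℝ) / r = (l : ℝ) * x / r + ((2 * l : ℤ) : ℝ) := by
        push_cast; field_simp
      rw [this, E_add, E_even _ (even_two_mul _), mul_one])
    (by show FF r p s 0 * _ = 0; rw [FF_zero, zero_mul])
    (by show FF r p s r * _ = 0; rw [FF_r r hr p s hp hpr, zero_mul])
  have h2 : ∑ k ∈ Icc 1 (r - 1), (FF r p s (k : ℤ) * E ((l : ℝ) * ((k : ℤ) : ℝ) / r) +
      FF r p s (-(k : ℤ)) * E ((l : ℝ) * ((-(k : ℤ) : ℤ) : ℝ) / r)) =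
      (2 * Complex.I) * ∑ k ∈ Icc 1 (r - 1), FF r p s k * (Real.sin (Real.pi * (k * l / r)) : ℂ) := by
    rw [Finset.mul_sum]
    refine Finset.sum_congr rfl fun k _ => ?_
    rw [FF_odd]
    have h3 := E_sub_neg ((k : ℝ) * l / r)
    have h4 : (l : ℝ) * ((k : ℤ) : ℝ) / r = (k : ℝ) * l / r := by push_cast; ring
    have h5 : (l : ℝ) * ((-(k : ℤ) : ℤ) : ℝ) / r = -((k : ℝ) * l / r) := by push_cast; ring
    rw [h4, h5]
    linear_combination (FF r p s k) * h3
  have h3 : ∑ k ∈ range (2 * r), FF r p s (k : ℤ) * E ((l : ℝ) * ((k : ℤ) : ℝ) / r) =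
      ∑ k ∈ range (2 * r), TT r p s (1 - p * l) k - ∑ k ∈ range (2 * r), TT r p s (-1 - p * l) k := by
    rw [← Finset.sum_sub_distrib]
    refine Finset.sum_congr rfl fun k _ => ?_
    unfold FF
    rw [sub_mul, TT_char r hr p s 1 k l hp, TT_char r hr p s (-1) k l hp]
  have h4 : ∑ k ∈ range (2 * r), TT r p s (1 - p * l) k - ∑ k ∈ range (2 * r), TT r p s (-1 - p * l) k =
      -(E (-1 / (2 * r * p * s)) * GG r p s) * FF r s (-p) l := by
    rw [TT_sum r hr p s _ hp hs hco hps, TT_sum r hr p s _ hp hs hco hps]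
    unfold FF TT
    have d1 : s ∣ 1 - p * l ↔ s ∣ -p * l - -1 := by
      have : 1 - p * l = -p * l - -1 := by ring
      rw [this]
    have d2 : s ∣ -1 - p * l ↔ s ∣ -p * l - 1 := by
      have : -1 - p * l = -p * l - 1 := by ring
      rw [this]
    have e1 : E (-(((1 - p * l : ℤ) : ℤ) : ℝ) ^ 2 / (2 * r * p * s)) =
        E (-1 / (2 * r * p * s)) * E ((((-p : ℤ) : ℝ) * (l : ℝ) ^ 2 - 2 * ((-1 : ℤ) : ℝ) * l) / (2 * r * s)) := by
      rw [← E_add]; congr 1; push_cast; field_simp; ring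
    have e2 : E (-(((-1 - p * l : ℤ) : ℤ) : ℝ) ^ 2 / (2 * r * p * s)) =
        E (-1 / (2 * r * p * s)) * E ((((-p : ℤ) : ℝ) * (l : ℝ) ^ 2 - 2 * ((1 : ℤ) : ℝ) * l) / (2 * r * s)) := by
      rw [← E_add]; congr 1; push_cast; field_simp; ring
    rw [e1, e2]
    by_cases c1 : s ∣ -p * l - -1 <;> by_cases c2 : s ∣ -p * l - 1
    · rw [if_pos (d1.mpr c1), if_pos (d2.mpr c2), if_pos c1, if_pos c2]; ring
    · rw [if_pos (d1.mpr c1), if_neg (fun h => c2 (d2.mp h)), if_pos c1, if_neg c2]; ring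
    · rw [if_neg (fun h => c1 (d1.mp h)), if_pos (d2.mpr c2), if_neg c1, if_pos c2]; ring
    · rw [if_neg (fun h => c1 (d1.mp h)), if_neg (fun h => c2 (d2.mp h)), if_neg c1, if_neg c2]; ring
  have h1' : ∑ k ∈ range (2 * r), FF r p s (k : ℤ) * E ((l : ℝ) * ((k : ℤ) : ℝ) / r) =
      ∑ k ∈ Icc 1 (r - 1), (FF r p s (k : ℤ) * E ((l : ℝ) * ((k : ℤ) : ℝ) / r) +
      FF r p s (-(k : ℤ)) * E ((l : ℝ) * ((-(k : ℤ) : ℤ) : ℝ) / r)) := h1
  rw [h2, h3, h4] at h1'
  have hI : Complex.I * Complex.I = -1 := Complex.I_mul_I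
  linear_combination (Complex.I / 2) * h1' + (∑ k ∈ Icc 1 (r - 1), FF r p s k *
    (Real.sin (Real.pi * (k * l / r)) : ℂ)) * hI

end Pool.Agent.L0h28.Aec
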