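import Mathlib
import Pool.Agent.L0h28.Aec.Base

/-!
# Incomplete quadratic Gauss sums
-/

set_option autoImplicit false

open Finset H524R3

namespace Pool.Agent.L0h28.Aec

theorem vv_bounds {M : ℝ} (hM : 0 < M) {x y : ℝ} {i : ℕ} (hx : ((i : ℝ) + 1) / M ≤ x) (hx1 : x ≤ 1)
    (hxy : y - x = 2 / M) (hy1 : y ≤ 1) :
    ‖vv x‖ ≤ M / (2 * (i + 1)) ∧ ‖vv y‖ ≤ M / (2 * (i + 2)) ∧
      ‖vv y - vv x‖ ≤ 2 * M / ((i + 1) * (i + 2)) := by
  have hi : (0 : ℝ) ≤ i := Nat.cast_nonneg i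
  have hx0 : 0 < x := lt_of_lt_of_le (by positivity) hx
  have hy : ((i : ℝ) + 2) / M ≤ y := by
    have : ((i : ℝ) + 2) / M = (i + 1) / M + 1 / M := by ring
    have h2 : (1 : ℝ) / M ≤ 2 / M := by gcongr; norm_num
    linarith
  have hy0 : 0 < y := lt_of_lt_of_le (by positivity) hy
  have hx' : (i : ℝ) + 1 ≤ x * M := (div_le_iff₀ hM).mp hx
  have hy' : (i : ℝ) + 2 ≤ y * M := (div_le_iff₀ hM).mp hy
  refine ⟨?_, ?_, ?_⟩
  · refine (norm_vv_le hx0 hx1).trans ?_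
    rw [div_le_div_iff₀ (by positivity) (by positivity)]
    nlinarith
  · refine (norm_vv_le hy0 hy1).trans ?_
    rw [div_le_div_iff₀ (by positivity) (by positivity)]
    nlinarith
  · refine (norm_vv_sub_le hx0 hx1 hy0 hy1).trans ?_
    rw [hxy, abs_of_pos (by positivity), div_div, div_le_div_iff₀ (by positivity) (by positivity)]
    have h3 : ((i : ℝ) + 1) * (i + 2) ≤ (x * M) * (y * M) :=
      mul_le_mul hx' hy' (by positivity) (by positivity)
    nlinarith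

/-- Summation by parts for sums of F i * X i where F is a quadratic phase without stationary point. -/
theorem est (M : ℝ) (hM : 0 < M) (F X : ℕ → ℂ) (x : ℕ → ℝ) (hF : ∀ i, ‖F i‖ = 1)
    (hFx : ∀ i, F (i + 1) = F i * E (x i)) (a b : ℕ) (hab : a ≤ b)
    (h0 : ∀ i : ℕ, ((i : ℝ) + 1) / M ≤ x i) (h1 : ∀ i, i ≤ b → x i ≤ 1)
    (h2 : ∀ i, x (i + 1) - x i = 2 / M) :
    ‖∑ i ∈ Ico a b, F i * X i‖ ≤ M * (‖X b‖ / (b + 1) + ‖X a‖ / (a + 1) +
      ∑ i ∈ Ico a b, (‖X (i + 1) - X i‖ / (i + 1) + 2 * ‖X i‖ / ((i + 1) * (i + 2)))) := by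
  have hx0 : ∀ i, 0 < x i := fun i => lt_of_lt_of_le (by positivity) (h0 i)
  have hv : ∀ i, i ≤ b → vv (x i) * (E (x i) - 1) = 1 := by
    intro i hi
    have := norm_E_sub_one_ge (hx0 i).le (h1 i hi)
    have h3 : 0 < ‖E (x i) - 1‖ := by linarith [hx0 i]
    exact inv_mul_cancel₀ (norm_pos_iff.mp h3)
  have hs : ∑ i ∈ Ico a b, F i * X i =
      ∑ i ∈ Ico a b, (vv (x i) * X i) * (F (i + 1) - F i) := by
    refine Finset.sum_congr rfl fun i hi => ?_
    rw [mem_Ico] at hi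
    rw [hFx]
    linear_combination (-(F i * X i)) * hv i hi.2.le
  rw [hs]
  refine (sum_parts_norm _ F (fun i => (hF i).le) a b hab).trans ?_
  rw [mul_add, mul_add, Finset.mul_sum]
  have hvb : ∀ i, i ≤ b → ‖vv (x i)‖ ≤ M / (i + 1) := by
    intro i hi
    refine (norm_vv_le (hx0 i) (h1 i hi)).trans ?_
    have h3 := (div_le_iff₀ hM).mp (h0 i)
    have := hx0 i
    rw [div_le_div_iff₀ (by positivity) (by positivity)]
    nlinarith
  refine add_le_add (add_le_add ?_ ?_) (Finset.sum_le_sum fun i hi => ?_)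
  · rw [norm_mul]
    calc _ ≤ M / (b + 1) * ‖X b‖ := mul_le_mul_of_nonneg_right (hvb b le_rfl) (norm_nonneg _)
      _ = _ := by ring
  · rw [norm_mul]
    calc _ ≤ M / (a + 1) * ‖X a‖ := mul_le_mul_of_nonneg_right (hvb a hab) (norm_nonneg _)
      _ = _ := by ring
  · rw [mem_Ico] at hi
    obtain ⟨hv1, hv2, hv3⟩ := vv_bounds hM (h0 i) (h1 i hi.2.le) (h2 i) (h1 (i + 1) hi.2)
    have h4 : vv (x (i + 1)) * X (i + 1) - vv (x i) * X i =
        vv (x (i + 1)) * (X (i + 1) - X i) + (vv (x (i + 1)) - vv (x i)) * X i := by ring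
    rw [h4]
    refine (norm_add_le _ _).trans ?_
    rw [mul_add, norm_mul, norm_mul]
    refine add_le_add ?_ ?_
    · calc _ ≤ M / (i + 1) * ‖X (i + 1) - X i‖ := by
            refine mul_le_mul_of_nonneg_right (hv2.trans ?_) (norm_nonneg _)
            have hi0 : (0 : ℝ) ≤ i := Nat.cast_nonneg i
            exact div_le_div_of_nonneg_left hM.le (by positivity) (by linarith)
        _ = _ := by ring
    · calc _ ≤ 2 * M / ((i + 1) * (i + 2)) * ‖X i‖ := mul_le_mul_of_nonneg_right hv3 (norm_nonneg _)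
        _ = _ := by ring

theorem est_const (M : ℝ) (hM : 0 < M) (F X : ℕ → ℂ) (x : ℕ → ℝ) (hF : ∀ i, ‖F i‖ = 1)
    (hFx : ∀ i, F (i + 1) = F i * E (x i)) (a b : ℕ) (hab : a ≤ b)
    (h0 : ∀ i : ℕ, ((i : ℝ) + 1) / M ≤ x i) (h1 : ∀ i, i ≤ b → x i ≤ 1)
    (h2 : ∀ i, x (i + 1) - x i = 2 / M) (K L : ℝ) (hL : 0 ≤ L)
    (hK : ∀ i, a ≤ i → i ≤ b → ‖X i‖ ≤ K) (hXL : ∀ i, a ≤ i → i < b → ‖X (i + 1) - X i‖ ≤ L) :
    ‖∑ i ∈ Ico a b, F i * X i‖ ≤ M * (4 * K / (a + 1) + L * ((b - a) / (a + 1))) := by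
  have hK0 : 0 ≤ K := (norm_nonneg _).trans (hK a le_rfl hab)
  refine (est M hM F X x hF hFx a b hab h0 h1 h2).trans ?_
  refine mul_le_mul_of_nonneg_left ?_ hM.le
  have ha : (0 : ℝ) < a + 1 := by positivity
  have hb : (0 : ℝ) < b + 1 := by positivity
  have e1 : ‖X b‖ / ((b : ℝ) + 1) ≤ K / (a + 1) := by
    refine div_le_div₀ hK0 (hK b hab le_rfl) ha ?_
    have : (a : ℝ) ≤ b := by exact_mod_cast hab
    linarith
  have e2 : ‖X a‖ / ((a : ℝ) + 1) ≤ K / (a + 1) := by gcongr; exact hK a le_rfl hab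
  have e3 : ∑ i ∈ Ico a b, (‖X (i + 1) - X i‖ / ((i : ℝ) + 1) + 2 * ‖X i‖ / ((i + 1) * (i + 2))) ≤
      L * ((b - a) / (a + 1)) + 2 * K * (1 / (a + 1)) := by
    rw [Finset.sum_add_distrib]
    refine add_le_add ?_ ?_
    · calc ∑ i ∈ Ico a b, ‖X (i + 1) - X i‖ / ((i : ℝ) + 1) ≤ ∑ i ∈ Ico a b, L / (a + 1) := by
            refine Finset.sum_le_sum fun i hi => ?_
            rw [mem_Ico] at hi
            refine div_le_div₀ hL (hXL i hi.1 hi.2) ha ?_
            have : (a : ℝ) ≤ i := by exact_mod_cast hi.1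
            linarith
        _ = _ := by
            rw [Finset.sum_const, Nat.card_Ico, nsmul_eq_mul, Nat.cast_sub hab]
            ring
    · calc _ ≤ ∑ i ∈ Ico a b, 2 * K * (1 / ((i + 1) * (i + 2))) := by
            refine Finset.sum_le_sum fun i hi => ?_
            rw [mem_Ico] at hi
            rw [mul_one_div]
            gcongr
            exact hK i hi.1 hi.2.le
        _ ≤ _ := by
            rw [← Finset.mul_sum]
            exact mul_le_mul_of_nonneg_left (telescope_le a b hab) (by positivity)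
  have e4 : 4 * K / ((a : ℝ) + 1) = K / (a + 1) + K / (a + 1) + 2 * K * (1 / (a + 1)) := by ring
  rw [e4]
  linarith

/-- The quadratic phase exp (-π i x² / M). -/
noncomputable def eM (M : ℕ) (x : ℝ) : ℂ := E (-(x ^ 2) / M)

theorem eM_norm (M : ℕ) (x : ℝ) : ‖eM M x‖ = 1 := E_norm _

theorem eM_neg (M : ℕ) (x : ℝ) : eM M (-x) = eM M x := by unfold eM; rw [neg_sq]

/-- P M l = ∑_{i < l} exp (-π i (i + 1/2)² / M). -/
noncomputable def P (M l : ℕ) : ℂ := ∑ i ∈ range l, eM M (i + 1 / 2)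

theorem P_zero (M : ℕ) : P M 0 = 0 := by simp [P]

theorem P_succ (M l : ℕ) : P M (l + 1) = P M l + eM M (l + 1 / 2) := by
  unfold P; rw [Finset.sum_range_succ]

theorem P_norm_le (M l : ℕ) : ‖P M l‖ ≤ l := by
  unfold P
  refine (norm_sum_le _ _).trans ?_
  simp [eM_norm]

theorem P_sub (M a b : ℕ) (hab : a ≤ b) : P M b - P M a = ∑ i ∈ Ico a b, eM M (i + 1 / 2) := by
  unfold P
  rw [Finset.sum_Ico_eq_sub _ hab]

theorem P_sub_norm_le_aux (M a b : ℕ) (hab : a ≤ b) (hb : 2 * (b + 1) ≤ M) :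
    ‖P M b - P M a‖ ≤ 4 * M / (a + 1) := by
  have hM : (0 : ℝ) < M := by
    have : 0 < M := by omega
    exact_mod_cast this
  rw [P_sub M a b hab]
  have h := est_const M hM (fun i => E ((i + 1 / 2) ^ 2 / M)) (fun _ => 1) (fun i => 2 * (i + 1) / M)
    (fun i => E_norm _) ?_ a b hab ?_ ?_ ?_ 1 0 le_rfl (by simp) (by simp)
  · have hc : ∑ i ∈ Ico a b, eM M (i + 1 / 2) =
        (starRingEnd ℂ) (∑ i ∈ Ico a b, E (((i : ℝ) + 1 / 2) ^ 2 / M) * 1) := by
      rw [map_sum]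
      refine Finset.sum_congr rfl fun i _ => ?_
      rw [mul_one, E_conj]
      unfold eM
      congr 1
      ring
    rw [hc, RCLike.norm_conj]
    refine h.trans (le_of_eq ?_)
    ring
  · intro i
    show E (((i + 1 : ℕ) + 1 / 2 : ℝ) ^ 2 / M) = E (((i : ℝ) + 1 / 2) ^ 2 / M) * E (2 * (i + 1) / M)
    rw [← E_add]
    congr 1
    push_cast
    field_simp
    ring
  · intro i
    show ((i : ℝ) + 1) / M ≤ 2 * (i + 1) / M
    have : (0 : ℝ) ≤ i := Nat.cast_nonneg i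
    gcongr
    linarith
  · intro i hi
    show (2 * ((i : ℝ) + 1)) / M ≤ 1
    rw [div_le_one hM]
    have h1 : 2 * (i + 1) ≤ M := by omega
    exact_mod_cast h1
  · intro i
    show 2 * (((i + 1 : ℕ) : ℝ) + 1) / M - 2 * ((i : ℝ) + 1) / M = 2 / M
    push_cast
    field_simp
    ring

theorem P_sub_norm_le (M a b : ℕ) (hab : a ≤ b) (hb : 2 * b ≤ M) (hM : 2 ≤ M) :
    ‖P M b - P M a‖ ≤ 5 * M / (a + 1) := by
  have hM0 : (0 : ℝ) < M := by
    have : 0 < M := by omega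
    exact_mod_cast this
  rcases Nat.eq_or_lt_of_le hab with h | h
  · subst h
    rw [sub_self, norm_zero]
    positivity
  · obtain ⟨c, rfl⟩ : ∃ c, b = c + 1 := ⟨b - 1, by omega⟩
    rw [P_succ]
    have h1 := P_sub_norm_le_aux M a c (by omega) (by omega)
    have h2 : P M c + eM M (c + 1 / 2) - P M a = (P M c - P M a) + eM M (c + 1 / 2) := by ring
    rw [h2]
    refine (norm_add_le _ _).trans ?_
    rw [eM_norm]
    have h3 : (1 : ℝ) ≤ M / (a + 1) := by
      rw [le_div_iff₀ (by positivity), one_mul]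
      have : a + 1 ≤ M := by omega
      exact_mod_cast this
    have h4 : 5 * (M : ℝ) / (a + 1) = 4 * M / (a + 1) + M / (a + 1) := by ring
    rw [h4]
    linarith

theorem sqrt_lt_succ (M : ℕ) : Real.sqrt M < (Nat.sqrt M : ℝ) + 1 := by
  rw [Real.sqrt_lt' (by positivity)]
  have := Nat.lt_succ_sqrt M
  have h : (M : ℝ) < ((Nat.sqrt M + 1) * (Nat.sqrt M + 1) : ℕ) := by exact_mod_cast this
  push_cast at h
  nlinarith

theorem natsqrt_le (M : ℕ) : (Nat.sqrt M : ℝ) ≤ Real.sqrt M := by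
  refine Real.le_sqrt_of_sq_le ?_
  have := Nat.sqrt_le' M
  exact_mod_cast this

theorem P_norm_le_sqrt (M l : ℕ) (hl : 2 * l ≤ M) : ‖P M l‖ ≤ 6 * Real.sqrt M := by
  have hs := natsqrt_le M
  have hs2 := sqrt_lt_succ M
  have hs0 : 0 ≤ Real.sqrt M := Real.sqrt_nonneg _
  rcases le_total l (Nat.sqrt M) with h | h
  · have h1 : (l : ℝ) ≤ Nat.sqrt M := by exact_mod_cast h
    have := P_norm_le M l
    linarith
  · rcases Nat.lt_or_ge M 2 with hM | hM
    · have : l = 0 := by omega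
      subst this
      rw [P_zero, norm_zero]
      positivity
    · have h1 := P_sub_norm_le M (Nat.sqrt M) l h hl hM
      have h2 := P_norm_le M (Nat.sqrt M)
      have h3 : P M l = (P M l - P M (Nat.sqrt M)) + P M (Nat.sqrt M) := by ring
      rw [h3]
      refine (norm_add_le _ _).trans ?_
      have h4 : 5 * (M : ℝ) / (Nat.sqrt M + 1) ≤ 5 * Real.sqrt M := by
        rw [div_le_iff₀ (by positivity)]
        have h5 : Real.sqrt M * Real.sqrt M = M := Real.mul_self_sqrt (Nat.cast_nonneg M)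
        nlinarith
      linarith

end Pool.Agent.L0h28.Aec
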