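import Mathlib
import Pool.Agent.L0h28.Aec.Local
import Pool.Agent.H524R3.Gauss

/-!
# Shifted incomplete Gauss sums
-/

set_option autoImplicit false

open Finset H524R3

namespace Pool.Agent.L0h28.Aec

/-- (exp (π i s x) - 1) / x -/
noncomputable def hh (s x : ℝ) : ℂ := (E (s * x) - 1) / x

theorem hh_norm_le (s x : ℝ) (hs : |s| ≤ 1) (hx : 0 < x) : ‖hh s x‖ ≤ 4 := by
  unfold hh
  rw [norm_div, Complex.norm_real, Real.norm_eq_abs, abs_of_pos hx, div_le_iff₀ hx]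
  refine (norm_E_sub_one_le _).trans ?_
  rw [abs_mul, abs_of_pos hx]
  have h1 : |s| * x ≤ 1 * x := mul_le_mul_of_nonneg_right hs hx.le
  have h2 := Real.pi_le_four
  have h3 := Real.pi_pos
  have h4 : 0 ≤ |s| * x := by positivity
  nlinarith

theorem hh_lip_aux (s x y : ℝ) (hs : |s| ≤ 1) (hy : 0 < y) (hxy : y ≤ x) :
    ‖hh s x - hh s y‖ ≤ 20 * (x - y) := by
  have hx : 0 < x := lt_of_lt_of_le hy hxy
  set δ : ℝ := x - y with hδ
  have hδ0 : 0 ≤ δ := by rw [hδ]; linarith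
  have hxc : (x : ℂ) ≠ 0 := by exact_mod_cast hx.ne'
  have hyc : (y : ℂ) ≠ 0 := by exact_mod_cast hy.ne'
  have hx1 : x = y + δ := by rw [hδ]; ring
  have hE : E (s * x) = E (s * y) * E (s * δ) := by rw [← E_add]; congr 1; rw [hx1]; ring
  have hE2 : E (s * y) * E (-(s * y)) = 1 := by rw [← E_add]; simp [E_zero]
  have hxd : (x : ℂ) = y + δ := by rw [hx1]; push_cast; ring
  have key : hh s x - hh s y = (y * E (s * y) * (E (s * δ) - 1 - Real.pi * Complex.I * ((s * δ : ℝ) : ℂ)) -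
      δ * E (s * y) * (E (-(s * y)) - 1 - Real.pi * Complex.I * ((-(s * y) : ℝ) : ℂ)) * (-1)) / (x * y) := by
    unfold hh
    rw [div_sub_div _ _ hxc hyc]
    congr 1
    rw [hE, hxd]
    push_cast
    linear_combination (-(δ : ℂ)) * hE2
  rw [key, norm_div, norm_mul, Complex.norm_real, Complex.norm_real, Real.norm_eq_abs,
    Real.norm_eq_abs, abs_of_pos hx, abs_of_pos hy, div_le_iff₀ (by positivity)]
  have hs2 : s ^ 2 ≤ 1 := by
    have := abs_le.mp hs
    nlinarith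
  have h1 : ‖E (s * δ) - 1 - Real.pi * Complex.I * ((s * δ : ℝ) : ℂ)‖ ≤ 20 * δ ^ 2 := by
    refine (norm_E_sub_one_sub_le _).trans ?_
    rw [mul_pow]
    nlinarith [sq_nonneg δ, mul_le_mul_of_nonneg_right hs2 (sq_nonneg δ)]
  have h2 : ‖E (-(s * y)) - 1 - Real.pi * Complex.I * ((-(s * y) : ℝ) : ℂ)‖ ≤ 20 * y ^ 2 := by
    refine (norm_E_sub_one_sub_le _).trans ?_
    rw [neg_sq, mul_pow]
    nlinarith [sq_nonneg y, mul_le_mul_of_nonneg_right hs2 (sq_nonneg y)]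
  refine (norm_sub_le _ _).trans ?_
  rw [norm_mul, norm_mul, norm_mul, norm_mul, norm_mul, E_norm, norm_neg, norm_one, Complex.norm_real,
    Complex.norm_real, Real.norm_eq_abs, Real.norm_eq_abs, abs_of_pos hy, abs_of_nonneg hδ0]
  have h3 : y * 1 * ‖E (s * δ) - 1 - Real.pi * Complex.I * ((s * δ : ℝ) : ℂ)‖ ≤ y * (20 * δ ^ 2) := by
    rw [mul_one]; exact mul_le_mul_of_nonneg_left h1 hy.le
  have h4 : δ * 1 * ‖E (-(s * y)) - 1 - Real.pi * Complex.I * ((-(s * y) : ℝ) : ℂ)‖ * 1 ≤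
      δ * (20 * y ^ 2) := by
    rw [mul_one, mul_one]; exact mul_le_mul_of_nonneg_left h2 hδ0
  have h5 : y * (20 * δ ^ 2) + δ * (20 * y ^ 2) = 20 * δ * (x * y) := by rw [hx1]; ring
  linarith

theorem hh_lip (s x y : ℝ) (hs : |s| ≤ 1) (hx : 0 < x) (hy : 0 < y) :
    ‖hh s x - hh s y‖ ≤ 20 * |x - y| := by
  rcases le_total y x with h | h
  · rw [abs_of_nonneg (by linarith)]
    exact hh_lip_aux s x y hs hy h
  · rw [abs_sub_comm, abs_of_nonneg (by linarith), norm_sub_rev]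
    exact hh_lip_aux s y x hs hx h

theorem hh_neg_one_ge (x : ℝ) (hx : 0 < x) (hx1 : x ≤ 1) : 2 ≤ ‖hh (-1) x‖ := by
  unfold hh
  rw [norm_div, Complex.norm_real, Real.norm_eq_abs, abs_of_pos hx, le_div_iff₀ hx]
  have h1 : ‖E (-1 * x) - 1‖ = ‖E x - 1‖ := by
    have : E (-1 * x) - 1 = (starRingEnd ℂ) (E x - 1) := by
      rw [map_sub, E_conj, map_one, neg_one_mul]
    rw [this, RCLike.norm_conj]
  rw [h1]
  exact norm_E_sub_one_ge hx.le hx1

/-- (exp (π i s x) - 1) / (exp (-π i x) - 1) -/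
noncomputable def ww (s x : ℝ) : ℂ := (E (s * x) - 1) / (E (-x) - 1)

theorem ww_eq (s x : ℝ) (hx : 0 < x) : ww s x = hh s x / hh (-1) x := by
  have hxc : (x : ℂ) ≠ 0 := by exact_mod_cast hx.ne'
  unfold ww hh
  rw [neg_one_mul, div_div_div_cancel_right₀ hxc]

theorem ww_norm_le (s x : ℝ) (hs : |s| ≤ 1) (hx : 0 < x) (hx1 : x ≤ 1) : ‖ww s x‖ ≤ 2 := by
  rw [ww_eq s x hx, norm_div]
  have h1 := hh_norm_le s x hs hx
  have h2 := hh_neg_one_ge x hx hx1
  rw [div_le_iff₀ (by linarith)]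
  linarith

theorem ww_lip (s x y : ℝ) (hs : |s| ≤ 1) (hx : 0 < x) (hx1 : x ≤ 1) (hy : 0 < y) (hy1 : y ≤ 1) :
    ‖ww s x - ww s y‖ ≤ 40 * |x - y| := by
  rw [ww_eq s x hx, ww_eq s y hy]
  have h1 := hh_neg_one_ge x hx hx1
  have h2 := hh_neg_one_ge y hy hy1
  have h3 : hh (-1) x ≠ 0 := norm_pos_iff.mp (by linarith)
  have h4 : hh (-1) y ≠ 0 := norm_pos_iff.mp (by linarith)
  have key : hh s x / hh (-1) x - hh s y / hh (-1) y =
      ((hh s x - hh s y) * hh (-1) y - hh s y * (hh (-1) x - hh (-1) y)) / (hh (-1) x * hh (-1) y) := by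
    field_simp
    ring
  rw [key, norm_div, norm_mul, div_le_iff₀ (by positivity)]
  have h5 : |(-1 : ℝ)| ≤ 1 := by simp
  have h6 := hh_lip s x y hs hx hy
  have h7 := hh_lip (-1) x y h5 hx hy
  have h8 := hh_norm_le s y hs hy
  have h9 := hh_norm_le (-1) y h5 hy
  refine (norm_sub_le _ _).trans ?_
  rw [norm_mul, norm_mul]
  have h10 : 0 ≤ |x - y| := abs_nonneg _
  have e1 : ‖hh s x - hh s y‖ * ‖hh (-1) y‖ ≤ (20 * |x - y|) * 4 :=
    mul_le_mul h6 h9 (norm_nonneg _) (by positivity)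
  have e2 : ‖hh s y‖ * ‖hh (-1) x - hh (-1) y‖ ≤ 4 * (20 * |x - y|) :=
    mul_le_mul h8 h7 (norm_nonneg _) (by norm_num)
  have e3 : 2 * 2 ≤ ‖hh (-1) x‖ * ‖hh (-1) y‖ := mul_le_mul h1 h2 (by norm_num) (by linarith)
  nlinarith

/-- Σ e_i (exp (π i s x_i) - 1) = O(1), x_i = 2 (i + 1) / M -/
theorem shift_aux (M l : ℕ) (s : ℝ) (hs : |s| ≤ 1) (hl : 2 * l ≤ M) :
    ‖∑ i ∈ range l, eM M (i + 1 / 2) * (E (s * (2 * (i + 1) / M)) - 1)‖ ≤ 46 := by
  rcases Nat.eq_zero_or_pos l with h0 | h0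
  · subst h0; simp
  obtain ⟨c, rfl⟩ : ∃ c, l = c + 1 := ⟨l - 1, by omega⟩
  have hM : (0 : ℝ) < M := by
    have : 0 < M := by omega
    exact_mod_cast this
  rw [Finset.sum_range_succ]
  refine (norm_add_le _ _).trans ?_
  have hlast : ‖eM M (c + 1 / 2) * (E (s * (2 * (c + 1) / M)) - 1)‖ ≤ 2 := by
    rw [norm_mul, eM_norm, one_mul]
    exact norm_E_sub_one_le_two _
  set x : ℕ → ℝ := fun i => 2 * (i + 1) / M with hx
  have hxpos : ∀ i, 0 < x i := fun i => by simp only [hx]; positivity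
  have hx1 : ∀ i, i ≤ c → x i ≤ 1 := by
    intro i hi
    show 2 * ((i : ℝ) + 1) / M ≤ 1
    rw [div_le_one hM]
    have h1 : 2 * (i + 1) ≤ M := by omega
    exact_mod_cast h1
  have hmul : ∀ i, eM M ((i + 1 : ℕ) + 1 / 2) = eM M (i + 1 / 2) * E (-(x i)) := by
    intro i
    unfold eM
    rw [← E_add]
    congr 1
    simp only [hx]
    push_cast
    field_simp
    ring
  have hs1 : ∑ i ∈ range c, eM M (i + 1 / 2) * (E (s * (2 * (i + 1) / M)) - 1) =
      ∑ i ∈ Ico 0 c, ww s (x i) * (eM M ((i + 1 : ℕ) + 1 / 2) - eM M (i + 1 / 2)) := by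
    rw [Finset.range_eq_Ico]
    refine Finset.sum_congr rfl fun i hi => ?_
    rw [mem_Ico] at hi
    rw [hmul]
    have hne : E (-(x i)) - 1 ≠ 0 := by
      have h1 := norm_E_sub_one_ge (hxpos i).le (hx1 i hi.2.le)
      have h2 : E (-(x i)) - 1 = (starRingEnd ℂ) (E (x i) - 1) := by
        rw [map_sub, E_conj, map_one]
      rw [h2]
      have h3 : 0 < ‖(starRingEnd ℂ) (E (x i) - 1)‖ := by
        rw [RCLike.norm_conj]; linarith [hxpos i]
      exact norm_pos_iff.mp h3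
    unfold ww
    rw [show eM M (↑i + 1 / 2) * E (-x i) - eM M (↑i + 1 / 2) =
      (E (-(x i)) - 1) * eM M (↑i + 1 / 2) by ring, ← mul_assoc, div_mul_cancel₀ _ hne, mul_comm]
  rw [hs1]
  have h2 := sum_parts_norm (fun i => ww s (x i)) (fun i => eM M ((i : ℝ) + 1 / 2))
    (fun i => (eM_norm _ _).le) 0 c (Nat.zero_le _)
  have h3 : ∑ i ∈ Ico 0 c, ‖ww s (x (i + 1)) - ww s (x i)‖ ≤ 40 := by
    have h4 : ∀ i ∈ Ico 0 c, ‖ww s (x (i + 1)) - ww s (x i)‖ ≤ 40 * (2 / M) := by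
      intro i hi
      rw [mem_Ico] at hi
      refine (ww_lip s _ _ hs (hxpos _) (hx1 _ hi.2) (hxpos _) (hx1 _ hi.2.le)).trans (le_of_eq ?_)
      have : x (i + 1) - x i = 2 / M := by
        simp only [hx]; push_cast; field_simp; ring
      rw [this, abs_of_pos (by positivity)]
    refine (Finset.sum_le_sum h4).trans ?_
    rw [Finset.sum_const, Nat.card_Ico, nsmul_eq_mul, Nat.sub_zero]
    have h5 : 2 * (c : ℝ) ≤ M := by
      have : 2 * c ≤ M := by omega
      exact_mod_cast this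
    have h6 : (c : ℝ) * (40 * (2 / M)) = 40 * (2 * c / M) := by ring
    rw [h6]
    have h7 : 2 * (c : ℝ) / M ≤ 1 := (div_le_one hM).mpr h5
    linarith
  have h4 := ww_norm_le s (x c) hs (hxpos c) (hx1 c le_rfl)
  have h5 := ww_norm_le s (x 0) hs (hxpos 0) (hx1 0 (Nat.zero_le _))
  linarith

/-- Shifting the summation points of an incomplete Gauss sum by at most 1/2 changes it by O(1). -/
theorem shift_le (M l : ℕ) (s : ℝ) (hs : |s| ≤ 1 / 2) (hl : 2 * l ≤ M) :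
    ‖∑ i ∈ range l, eM M (i + 1 / 2 - s) - P M l‖ ≤ 50 := by
  rcases Nat.eq_zero_or_pos l with h0 | h0
  · subst h0; simp [P_zero]
  have hM : (0 : ℝ) < M := by
    have : 0 < M := by omega
    exact_mod_cast this
  have h1 : ∀ i : ℕ, eM M (i + 1 / 2 - s) =
      E (-(s + s ^ 2) / M) * (eM M (i + 1 / 2) * (E (s * (2 * (i + 1) / M)) - 1)) +
        E (-(s + s ^ 2) / M) * eM M (i + 1 / 2) := by
    intro i
    have : eM M (i + 1 / 2 - s) = E (-(s + s ^ 2) / M) * (eM M (i + 1 / 2) * E (s * (2 * (i + 1) / M))) := by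
      unfold eM
      rw [← E_add, ← E_add]
      congr 1
      field_simp
      ring
    rw [this]; ring
  have h2 : ∑ i ∈ range l, eM M (i + 1 / 2 - s) - P M l =
      E (-(s + s ^ 2) / M) * ∑ i ∈ range l, eM M (i + 1 / 2) * (E (s * (2 * (i + 1) / M)) - 1) +
        (E (-(s + s ^ 2) / M) - 1) * P M l := by
    unfold P
    rw [sub_mul, one_mul, Finset.mul_sum, Finset.mul_sum, ← add_sub_assoc, ← Finset.sum_add_distrib]
    congr 1
    exact Finset.sum_congr rfl fun i _ => h1 i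
  rw [h2]
  refine (norm_add_le _ _).trans ?_
  rw [norm_mul, norm_mul, E_norm, one_mul]
  have h3 := shift_aux M l s (hs.trans (by norm_num)) hl
  have h4 : ‖E (-(s + s ^ 2) / M) - 1‖ ≤ 4 * (1 / M) := by
    refine (norm_E_sub_one_le _).trans ?_
    have h5 : |(-(s + s ^ 2) / M : ℝ)| ≤ 1 / M := by
      rw [abs_div, abs_neg, abs_of_pos hM]
      gcongr
      have := abs_le.mp hs
      rw [abs_le]
      constructor <;> nlinarith
    have := Real.pi_le_four
    have h6 : 0 ≤ |(-(s + s ^ 2) / M : ℝ)| := abs_nonneg _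
    nlinarith [Real.pi_pos]
  have h5 : ‖P M l‖ ≤ M / 2 := by
    refine (P_norm_le M l).trans ?_
    have : (2 : ℝ) * l ≤ M := by exact_mod_cast hl
    linarith
  have h6 : ‖E (-(s + s ^ 2) / M) - 1‖ * ‖P M l‖ ≤ (4 * (1 / M)) * (M / 2) :=
    mul_le_mul h4 h5 (norm_nonneg _) (by positivity)
  have h7 : (4 * (1 / (M : ℝ))) * (M / 2) = 2 := by field_simp; norm_num
  linarith

/-- The half Gauss sum has absolute value (1/2) √M + O(1). -/
theorem P_half_norm (h : ℕ) (hh0 : 0 < h) :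
    |‖P (2 * h) h‖ - Real.sqrt (2 * h : ℕ) / 2| ≤ 50 := by
  have hM : (0 : ℝ) < (2 * h : ℕ) := by
    have : 0 < 2 * h := by omega
    exact_mod_cast this
  have h1 := shift_le (2 * h) h (1 / 2) (by rw [abs_of_pos (by norm_num)]) le_rfl
  have h2 := shift_le (2 * h) h (-(1 / 2)) (by rw [abs_neg, abs_of_pos (by norm_num)]) le_rfl
  set A : ℂ := ∑ i ∈ range h, eM (2 * h) (i + 1 / 2 - 1 / 2) with hA
  set B : ℂ := ∑ i ∈ range h, eM (2 * h) (i + 1 / 2 - -(1 / 2)) with hB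
  have hG : ‖A + B‖ = Real.sqrt (2 * h : ℕ) := by
    have hgs := gs_norm_sq (2 * h) 0 (by omega) ⟨h, by push_cast; ring⟩
    have hAB : A + B = (starRingEnd ℂ) (gs (2 * h) 0) := by
      unfold gs
      rw [map_sum, show range (2 * h) = range (h + h) by rw [two_mul], Finset.sum_range_add]
      congr 1
      · refine Finset.sum_congr rfl fun i _ => ?_
        rw [E_conj]
        unfold eM
        congr 1
        push_cast
        ring
      · rw [← Finset.sum_range_reflect (fun i => (starRingEnd ℂ)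
          (E ((((h + i : ℕ) : ℝ) ^ 2 + ((h + i : ℕ) : ℝ) * ((0 : ℤ) : ℝ)) / ((2 * h : ℕ) : ℝ))))]
        refine Finset.sum_congr rfl fun i hi => ?_
        rw [mem_range] at hi
        rw [E_conj]
        have h3 : ((h + (h - 1 - i) : ℕ) : ℝ) = 2 * h - (i + 1) := by
          have : h + (h - 1 - i) + (i + 1) = 2 * h := by omega
          have h4 : ((h + (h - 1 - i) : ℕ) : ℝ) + (i + 1) = 2 * h := by exact_mod_cast this
          linarith
        rw [h3]
        unfold eM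
        have h5 : -(((2 * (h : ℝ) - (i + 1)) ^ 2 + (2 * h - (i + 1)) * ((0 : ℤ) : ℝ)) / ((2 * h : ℕ) : ℝ)) =
            -((i : ℝ) + 1 / 2 - -(1 / 2)) ^ 2 / ((2 * h : ℕ) : ℝ) +
              (((2 * (i + 1) - 2 * h : ℤ) : ℤ) : ℝ) := by
          have : (h : ℝ) ≠ 0 := by positivity
          push_cast
          field_simp
          ring
        rw [h5, E_add, E_even _ ⟨(i + 1) - h, by ring⟩, mul_one]
    rw [hAB, RCLike.norm_conj]
    rw [← Real.sqrt_sq (norm_nonneg _), hgs]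
  have h3 : ‖(A + B) - 2 * P (2 * h) h‖ ≤ 100 := by
    have : (A + B) - 2 * P (2 * h) h = (A - P (2 * h) h) + (B - P (2 * h) h) := by ring
    rw [this]
    refine (norm_add_le _ _).trans ?_
    linarith
  have h4 : ‖2 * P (2 * h) h‖ = 2 * ‖P (2 * h) h‖ := by rw [norm_mul]; simp
  have h5 := abs_norm_sub_norm_le (A + B) (2 * P (2 * h) h)
  rw [h4, hG] at h5
  have h6 := abs_le.mp (h5.trans h3)
  rw [abs_le]
  constructor <;> linarith [h6.1, h6.2]

end Pool.Agent.L0h28.Aec
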