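import Mathlib
import Pool.Agent.L0h28.Aec.Shift

/-!
# The logarithmic sum at a resonance
-/

set_option autoImplicit false

open Finset H524R3

namespace Pool.Agent.L0h28.Aec

/-- The quadratic phase exp (π i y² / M). -/
noncomputable def fM (M y : ℕ) : ℂ := E ((y : ℝ) ^ 2 / M)

theorem fM_norm (M y : ℕ) : ‖fM M y‖ = 1 := E_norm _

theorem fM_succ (M y : ℕ) : fM M (y + 1) = fM M y * E ((2 * y + 1) / M) := by
  unfold fM
  rw [← E_add]
  congr 1
  push_cast
  ring

theorem xx_ge (M : ℕ) (i : ℕ) : ((i : ℝ) + 1) / M ≤ (2 * i + 1) / M := by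
  have : (0 : ℝ) ≤ i := Nat.cast_nonneg i
  gcongr
  linarith

theorem xx_sub (M : ℕ) (i : ℕ) : (2 * ((i + 1 : ℕ) : ℝ) + 1) / M - (2 * (i : ℝ) + 1) / M = 2 / M := by
  push_cast
  ring

theorem xx_le (M b : ℕ) (hb : 2 * b + 1 ≤ M) (i : ℕ) (hi : i ≤ b) : (2 * (i : ℝ) + 1) / M ≤ 1 := by
  have hM : (0 : ℝ) < M := by
    have : 0 < M := by omega
    exact_mod_cast this
  rw [div_le_one hM]
  have : 2 * i + 1 ≤ M := by omega
  exact_mod_cast this

/-- Partial sums of the quadratic phase against slowly varying weights. -/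
theorem sum_fM_le (M b : ℕ) (hb : 2 * b + 1 ≤ M) (X : ℕ → ℂ) (K : ℝ)
    (hK : ∀ i, i ≤ b → ‖X i‖ ≤ K) (hL : ∀ i, i < b → ‖X (i + 1) - X i‖ ≤ K / M) :
    ‖∑ i ∈ range b, fM M i * X i‖ ≤ 6 * K * Real.sqrt M := by
  have hM : (0 : ℝ) < M := by
    have : 0 < M := by omega
    exact_mod_cast this
  have hK0 : 0 ≤ K := (norm_nonneg _).trans (hK 0 (Nat.zero_le _))
  have hs := natsqrt_le M
  have hs2 := sqrt_lt_succ M
  have hs0 : 0 ≤ Real.sqrt M := Real.sqrt_nonneg _
  have htriv : ∀ c, c ≤ b → ‖∑ i ∈ range c, fM M i * X i‖ ≤ K * c := by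
    intro c hc
    refine (norm_sum_le _ _).trans ?_
    calc _ ≤ ∑ i ∈ range c, K := by
          refine Finset.sum_le_sum fun i hi => ?_
          rw [mem_range] at hi
          rw [norm_mul, fM_norm, one_mul]
          exact hK i (by omega)
      _ = _ := by rw [Finset.sum_const, card_range, nsmul_eq_mul]; ring
  rcases le_total b (Nat.sqrt M) with h | h
  · refine (htriv b le_rfl).trans ?_
    have h1 : (b : ℝ) ≤ Nat.sqrt M := by exact_mod_cast h
    have h2 : K * b ≤ K * Real.sqrt M := mul_le_mul_of_nonneg_left (h1.trans hs) hK0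
    nlinarith [mul_nonneg hK0 hs0]
  · have h1 := est_const M hM (fM M) X (fun i => (2 * i + 1) / M) (fM_norm M) (fM_succ M)
      (Nat.sqrt M) b h (xx_ge M) (xx_le M b hb) (xx_sub M) K (K / M) (by positivity)
      (fun i _ hi => hK i hi) (fun i _ hi => hL i hi)
    have h2 := htriv (Nat.sqrt M) h
    have h3 : ∑ i ∈ range b, fM M i * X i = ∑ i ∈ range (Nat.sqrt M), fM M i * X i +
        ∑ i ∈ Ico (Nat.sqrt M) b, fM M i * X i := by
      rw [Finset.sum_range_add_sum_Ico _ h]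
    rw [h3]
    refine (norm_add_le _ _).trans ?_
    have h4 : (M : ℝ) / (Nat.sqrt M + 1) ≤ Real.sqrt M := by
      rw [div_le_iff₀ (by positivity)]
      have h5 : Real.sqrt M * Real.sqrt M = M := Real.mul_self_sqrt (Nat.cast_nonneg M)
      nlinarith
    have h5 : (M : ℝ) * (4 * K / (Nat.sqrt M + 1) + K / M * ((b - Nat.sqrt M) / (Nat.sqrt M + 1))) =
        4 * K * (M / (Nat.sqrt M + 1)) + K * ((b - Nat.sqrt M) / (Nat.sqrt M + 1)) := by
      field_simp
    rw [h5] at h1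
    have h6 : ((b : ℝ) - Nat.sqrt M) / (Nat.sqrt M + 1) ≤ M / (Nat.sqrt M + 1) := by
      have h7 : (b : ℝ) ≤ M := by
        have : b ≤ M := by omega
        exact_mod_cast this
      have h8 : (0 : ℝ) ≤ Nat.sqrt M := Nat.cast_nonneg _
      gcongr
      linarith
    have h7 : 4 * K * ((M : ℝ) / (Nat.sqrt M + 1)) ≤ 4 * K * Real.sqrt M :=
      mul_le_mul_of_nonneg_left h4 (by positivity)
    have h8 : K * (((b : ℝ) - Nat.sqrt M) / (Nat.sqrt M + 1)) ≤ K * Real.sqrt M :=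
      mul_le_mul_of_nonneg_left (h6.trans h4) hK0
    have h9 : K * (Nat.sqrt M : ℝ) ≤ K * Real.sqrt M := mul_le_mul_of_nonneg_left hs hK0
    linarith

/-- Weighted sums with a weight vanishing at the stationary point. -/
theorem sum_fM_van (M b : ℕ) (hb : 2 * b + 1 ≤ M) (Q t : ℕ → ℂ) (A B K : ℝ) (hK : 0 ≤ K)
    (hA : ∀ i, i ≤ b → ‖Q i‖ ≤ A) (hB : ∀ i, i < b → ‖Q (i + 1) - Q i‖ ≤ B)
    (ht : ∀ i, i ≤ b → ‖t i‖ ≤ K * ((i + 1) / M)) (ht' : ∀ i, i < b → ‖t (i + 1) - t i‖ ≤ K / M) :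
    ‖∑ i ∈ range b, fM M i * (Q i * t i)‖ ≤ K * (2 * A + 2 * B * b + 6 * A * Real.sqrt b) := by
  have hM : (0 : ℝ) < M := by
    have : 0 < M := by omega
    exact_mod_cast this
  have hA0 : 0 ≤ A := (norm_nonneg _).trans (hA 0 (Nat.zero_le _))
  rcases Nat.eq_zero_or_pos b with hb0 | hb0
  · subst hb0
    simp
    positivity
  have hB0 : 0 ≤ B := (norm_nonneg _).trans (hB 0 hb0)
  have h1 := est M hM (fM M) (fun i => Q i * t i) (fun i => (2 * i + 1) / M) (fM_norm M) (fM_succ M)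
      0 b (Nat.zero_le _) (xx_ge M) (xx_le M b hb) (xx_sub M)
  rw [← Finset.range_eq_Ico] at h1
  refine h1.trans ?_
  have hX : ∀ i, i ≤ b → ‖Q i * t i‖ ≤ A * (K * ((i + 1) / M)) := by
    intro i hi
    rw [norm_mul]
    exact mul_le_mul (hA i hi) (ht i hi) (norm_nonneg _) hA0
  have e1 : M * (‖Q b * t b‖ / ((b : ℝ) + 1)) ≤ K * A := by
    have := hX b le_rfl
    rw [← mul_div_assoc, div_le_iff₀ (by positivity)]
    calc M * ‖Q b * t b‖ ≤ M * (A * (K * ((b + 1) / M))) := mul_le_mul_of_nonneg_left this hM.le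
      _ = _ := by field_simp
  have e2 : M * (‖Q 0 * t 0‖ / (((0 : ℕ) : ℝ) + 1)) ≤ K * A := by
    have := hX 0 (Nat.zero_le _)
    rw [← mul_div_assoc, div_le_iff₀ (by positivity)]
    calc M * ‖Q 0 * t 0‖ ≤ M * (A * (K * (((0 : ℕ) + 1) / M))) := mul_le_mul_of_nonneg_left this hM.le
      _ = _ := by field_simp
  have e3 : ∀ i ∈ range b, M * (‖Q (i + 1) * t (i + 1) - Q i * t i‖ / ((i : ℝ) + 1) +
      2 * ‖Q i * t i‖ / ((i + 1) * (i + 2))) ≤ 2 * K * B + 3 * K * A * (1 / (i + 1)) := by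
    intro i hi
    rw [mem_range] at hi
    have hi0 : (0 : ℝ) ≤ i := Nat.cast_nonneg i
    have f1 : Q (i + 1) * t (i + 1) - Q i * t i =
        (Q (i + 1) - Q i) * t (i + 1) + Q i * (t (i + 1) - t i) := by ring
    have f2 : ‖Q (i + 1) * t (i + 1) - Q i * t i‖ ≤ B * (K * ((i + 2) / M)) + A * (K / M) := by
      rw [f1]
      refine (norm_add_le _ _).trans ?_
      rw [norm_mul, norm_mul]
      refine add_le_add ?_ ?_
      · have := ht (i + 1) hi
        push_cast at this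
        rw [show (i : ℝ) + 1 + 1 = i + 2 by ring] at this
        exact mul_le_mul (hB i hi) this (norm_nonneg _) hB0
      · exact mul_le_mul (hA i hi.le) (ht' i hi) (norm_nonneg _) hA0
    have f3 := hX i hi.le
    rw [mul_add]
    have g1 : M * (‖Q (i + 1) * t (i + 1) - Q i * t i‖ / ((i : ℝ) + 1)) ≤
        2 * K * B + K * A * (1 / (i + 1)) := by
      calc _ ≤ M * ((B * (K * ((i + 2) / M)) + A * (K / M)) / ((i : ℝ) + 1)) := by gcongr
        _ = K * B * ((i + 2) / (i + 1)) + K * A * (1 / (i + 1)) := by field_simp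
        _ ≤ K * B * 2 + K * A * (1 / (i + 1)) := by
            have : ((i : ℝ) + 2) / (i + 1) ≤ 2 := by
              rw [div_le_iff₀ (by positivity)]; linarith
            have h7 : 0 ≤ K * B := mul_nonneg hK hB0
            have := mul_le_mul_of_nonneg_left this h7
            linarith
        _ = _ := by ring
    have g2 : M * (2 * ‖Q i * t i‖ / (((i : ℝ) + 1) * (i + 2))) ≤ 2 * K * A * (1 / (i + 1)) := by
      calc _ ≤ M * (2 * (A * (K * ((i + 1) / M))) / (((i : ℝ) + 1) * (i + 2))) := by gcongr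
        _ = 2 * K * A * (1 / (i + 2)) := by field_simp
        _ ≤ 2 * K * A * (1 / (i + 1)) := by
            have : (1 : ℝ) / (i + 2) ≤ 1 / (i + 1) := by gcongr; norm_num
            exact mul_le_mul_of_nonneg_left this (by positivity)
    linarith
  rw [mul_add, mul_add, Finset.mul_sum]
  have e4 := Finset.sum_le_sum e3
  have e6 : ∑ i ∈ range b, (2 * K * B + 3 * K * A * (1 / ((i : ℝ) + 1))) =
      b * (2 * K * B) + 3 * K * A * ∑ i ∈ range b, (1 : ℝ) / (i + 1) := by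
    rw [Finset.sum_add_distrib, Finset.sum_const, card_range, nsmul_eq_mul, ← Finset.mul_sum]
  rw [e6] at e4
  have e5 := mul_le_mul_of_nonneg_left (harmonic_le_sqrt b) (show (0 : ℝ) ≤ 3 * K * A by positivity)
  calc _ ≤ K * A + K * A + (b * (2 * K * B) + 3 * K * A * (2 * Real.sqrt b)) := by linarith
    _ = _ := by ring

/-- Σ_{a ≤ y < b} 1 / (2 y + 1) = (1/2) log (b / a) + O(1) -/
theorem sum_inv_odd (a b : ℕ) (ha : 1 ≤ a) (hab : a ≤ b) :
    |∑ y ∈ Ico a b, (1 : ℝ) / (2 * y + 1) - (Real.log b - Real.log a) / 2| ≤ 1 / a - 1 / b := by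
  induction b, hab using Nat.le_induction with
  | base => simp
  | succ b hab ih =>
    rw [Finset.sum_Ico_succ_top hab]
    have hb : (1 : ℝ) ≤ b := by
      have : 1 ≤ b := by omega
      exact_mod_cast this
    have hb0 : (0 : ℝ) < b := by linarith
    have h1 : Real.log ((b + 1) / b) ≤ (b + 1) / b - 1 := Real.log_le_sub_one_of_pos (by positivity)
    have h2 : 1 - ((b + 1) / b : ℝ)⁻¹ ≤ Real.log ((b + 1) / b) :=
      Real.one_sub_inv_le_log_of_pos (by positivity)
    rw [Real.log_div (by positivity) (by positivity)] at h1 h2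
    have h3 : ((b : ℝ) + 1) / b - 1 = 1 / b := by field_simp; ring
    have h4 : 1 - (((b : ℝ) + 1) / b)⁻¹ = 1 / (b + 1) := by rw [inv_div]; field_simp; ring
    rw [h3] at h1
    rw [h4] at h2
    have h5 : (1 : ℝ) / (2 * b + 1) ≤ 1 / (2 * b) := by gcongr; linarith
    have h6 : (1 : ℝ) / (2 * b + 2) ≤ 1 / (2 * b + 1) := by gcongr; norm_num
    have h7 : (1 : ℝ) / (2 * b) = (1 / b) / 2 := by field_simp
    have h8 : (1 : ℝ) / (2 * b + 2) = (1 / (b + 1)) / 2 := by field_simp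
    rw [h7] at h5
    rw [h8] at h6
    have h9 : (1 : ℝ) / (b + 1) ≤ 1 / b := by gcongr; linarith
    have h10 := abs_le.mp ih
    push_cast
    rw [abs_le]
    constructor <;> linarith [h10.1, h10.2]

/-- 1 / (exp (π i x) - 1) = 1 / (π i x) + O(1) -/
theorem vv_approx {x : ℝ} (h0 : 0 < x) (h1 : x ≤ 1) :
    ‖vv x - (Real.pi * Complex.I * x)⁻¹‖ ≤ 4 := by
  have hx := norm_E_sub_one_ge h0.le h1
  have hx0 : 0 < ‖E x - 1‖ := by linarith
  have hx1 : E x - 1 ≠ 0 := norm_pos_iff.mp hx0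
  have hpi := Real.pi_gt_three
  have hn : ‖(Real.pi : ℂ) * Complex.I * x‖ = Real.pi * x := by
    rw [norm_mul, norm_mul, Complex.norm_I, mul_one, Complex.norm_real, Complex.norm_real,
      Real.norm_eq_abs, Real.norm_eq_abs, abs_of_pos Real.pi_pos, abs_of_pos h0]
  have hp : (Real.pi : ℂ) * Complex.I * x ≠ 0 := by
    rw [← norm_pos_iff, hn]; positivity
  have h2 : vv x - (Real.pi * Complex.I * x)⁻¹ =
      -(E x - 1 - Real.pi * Complex.I * x) / ((E x - 1) * (Real.pi * Complex.I * x)) := by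
    unfold vv
    rw [inv_sub_inv hx1 hp]
    congr 1
    ring
  rw [h2, norm_div, norm_neg, norm_mul, hn, div_le_iff₀ (by positivity)]
  refine (norm_E_sub_one_sub_le x).trans ?_
  have h3 : (2 * x) * (3 * x) ≤ ‖E x - 1‖ * (Real.pi * x) :=
    mul_le_mul hx (by nlinarith) (by positivity) (by positivity)
  nlinarith

end Pool.Agent.L0h28.Aec
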