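import Mathlib
import Pool.Agent.L0h28.Aec.LogSum

/-!
# The asymptotics of Σ exp (π i y² / M) P(y)²
-/

set_option autoImplicit false

open Finset H524R3

namespace Pool.Agent.L0h28.Aec

theorem eM_mul_fM (M y : ℕ) : eM M (y + 1 / 2) * fM M (y + 1) = E ((y + 3 / 4) / M) := by
  unfold eM fM
  rw [← E_add]
  congr 1
  push_cast
  ring

theorem Jterm (M y : ℕ) (hM : 2 ≤ M) (hy : 2 * (y + 2) ≤ M) (h : ℕ) (hh2 : 2 * h ≤ M) (hyh : y ≤ h) :
    ‖(vv ((2 * ((y + 1 : ℕ) : ℝ) + 1) / M) * P M (y + 1) ^ 2 - vv ((2 * (y : ℝ) + 1) / M) * P M y ^ 2) *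
        fM M (y + 1) - 2 * P M h * vv ((2 * (y : ℝ) + 1) / M)‖ ≤
      24 * Real.sqrt M + 82 * (M : ℝ) ^ 2 * (1 / ((y + 1) * (y + 2))) + M / (2 * (y + 1)) := by
  have hM0 : (0 : ℝ) < M := by
    have : 0 < M := by omega
    exact_mod_cast this
  have hy0 : (0 : ℝ) ≤ y := Nat.cast_nonneg y
  have hs0 : 0 ≤ Real.sqrt M := Real.sqrt_nonneg _
  have hss : Real.sqrt M * Real.sqrt M = M := Real.mul_self_sqrt hM0.le
  obtain ⟨hv1, -, hv3⟩ := vv_bounds (M := (M : ℝ)) hM0 (xx_ge M y)
    (xx_le M (y + 1) (by omega) y (by omega)) (xx_sub M y)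
    (xx_le M (y + 1) (by omega) (y + 1) le_rfl)
  set v := vv ((2 * (y : ℝ) + 1) / M) with hv
  set v' := vv ((2 * ((y + 1 : ℕ) : ℝ) + 1) / M) with hv'
  set e := eM M (y + 1 / 2) with he
  set ρ := E (((y : ℝ) + 3 / 4) / M) with hρ
  have hef : e * fM M (y + 1) = ρ := eM_mul_fM M y
  have hP : P M (y + 1) = P M y + e := P_succ M y
  have key : (v' * P M (y + 1) ^ 2 - v * P M y ^ 2) * fM M (y + 1) - 2 * P M h * v =
      (v' - v) * P M (y + 1) ^ 2 * fM M (y + 1) +
        v * (2 * P M y * (ρ - 1) + 2 * (P M y - P M h) + e * ρ) := by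
    rw [← hef, hP]
    ring
  rw [key]
  have b1 : ‖P M (y + 1)‖ ≤ 6 * Real.sqrt M := P_norm_le_sqrt M (y + 1) (by omega)
  have b2 : ‖P M y‖ ≤ 6 * Real.sqrt M := P_norm_le_sqrt M y (by omega)
  have b3 : ‖P M y - P M h‖ ≤ 5 * M / (y + 1) := by
    rw [norm_sub_rev]; exact P_sub_norm_le M y h hyh hh2 hM
  have b4 : ‖ρ - 1‖ ≤ 4 * ((y + 1) / M) := by
    refine (norm_E_sub_one_le _).trans ?_
    rw [abs_of_pos (by positivity)]
    have h4 := Real.pi_le_four
    have h5 : ((y : ℝ) + 3 / 4) / M ≤ (y + 1) / M := by gcongr; norm_num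
    exact mul_le_mul h4 h5 (by positivity) (by norm_num)
  have b5 : ‖P M (y + 1)‖ ^ 2 ≤ 36 * M := by
    calc ‖P M (y + 1)‖ ^ 2 ≤ (6 * Real.sqrt M) ^ 2 := pow_le_pow_left₀ (norm_nonneg _) b1 2
      _ = _ := by rw [mul_pow, sq (Real.sqrt M), hss]; norm_num
  refine (norm_add_le _ _).trans ?_
  have c1 : ‖(v' - v) * P M (y + 1) ^ 2 * fM M (y + 1)‖ ≤ 72 * (M : ℝ) ^ 2 * (1 / ((y + 1) * (y + 2))) := by
    rw [norm_mul, norm_mul, fM_norm, mul_one, norm_pow]
    calc _ ≤ 2 * (M : ℝ) / ((y + 1) * (y + 2)) * (36 * M) :=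
          mul_le_mul hv3 b5 (by positivity) (by positivity)
      _ = _ := by ring
  have c2 : ‖2 * P M y * (ρ - 1) + 2 * (P M y - P M h) + e * ρ‖ ≤
      48 * Real.sqrt M * ((y + 1) / M) + 10 * M / (y + 1) + 1 := by
    refine (norm_add_le _ _).trans (add_le_add ((norm_add_le _ _).trans (add_le_add ?_ ?_)) ?_)
    · rw [norm_mul, norm_mul]
      simp only [Complex.norm_ofNat]
      calc 2 * ‖P M y‖ * ‖ρ - 1‖ ≤ 2 * (6 * Real.sqrt M) * (4 * ((y + 1) / M)) := by gcongr
        _ = _ := by ring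
    · rw [norm_mul]
      simp only [Complex.norm_ofNat]
      calc 2 * ‖P M y - P M h‖ ≤ 2 * (5 * M / (y + 1)) := by gcongr
        _ = _ := by ring
    · rw [norm_mul, he, eM_norm, one_mul, hρ, E_norm]
  have c3 : ‖v * (2 * P M y * (ρ - 1) + 2 * (P M y - P M h) + e * ρ)‖ ≤
      24 * Real.sqrt M + 10 * (M : ℝ) ^ 2 * (1 / ((y + 1) * (y + 2))) + M / (2 * (y + 1)) := by
    rw [norm_mul]
    calc _ ≤ M / (2 * (y + 1)) * (48 * Real.sqrt M * ((y + 1) / M) + 10 * M / (y + 1) + 1) :=
          mul_le_mul hv1 c2 (norm_nonneg _) (by positivity)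
      _ = 24 * Real.sqrt M + 5 * (M : ℝ) ^ 2 * (1 / ((y + 1) * (y + 1))) + M / (2 * (y + 1)) := by
          field_simp
          ring
      _ ≤ _ := by
          have h6 : (1 : ℝ) / ((y + 1) * (y + 1)) ≤ 2 * (1 / ((y + 1) * (y + 2))) := by
            rw [mul_one_div, div_le_div_iff₀ (by positivity) (by positivity)]
            nlinarith
          have h7 := mul_le_mul_of_nonneg_left h6 (show (0 : ℝ) ≤ 5 * (M : ℝ) ^ 2 by positivity)
          linarith
  calc _ ≤ _ := add_le_add c1 c3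
    _ = _ := by ring

/-- The sum over the non-stationary range, by parts. -/
theorem Jpart (M a b h : ℕ) (hM : 2 ≤ M) (hab : a ≤ b) (hb : 2 * (b + 1) ≤ M) (hh2 : 2 * h ≤ M)
    (hbh : b ≤ h) (ha : Real.sqrt M ≤ a + 1) :
    ‖∑ y ∈ Ico a b, fM M y * P M y ^ 2 +
        2 * P M h * ∑ y ∈ Ico a b, vv ((2 * (y : ℝ) + 1) / M)‖ ≤ 150 * (M * Real.sqrt M) := by
  have hM0 : (0 : ℝ) < M := by
    have : 0 < M := by omega
    exact_mod_cast this
  have hs0 : 0 ≤ Real.sqrt M := Real.sqrt_nonneg _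
  have hss : Real.sqrt M * Real.sqrt M = M := Real.mul_self_sqrt hM0.le
  have ha0 : (0 : ℝ) < a + 1 := by positivity
  have hv : ∀ i, i ≤ b → vv ((2 * (i : ℝ) + 1) / M) * (E ((2 * i + 1) / M) - 1) = 1 := by
    intro i hi
    have h1 := xx_le M b (by omega) i hi
    have h0 : (0 : ℝ) < (2 * i + 1) / M := by positivity
    have h2 := norm_E_sub_one_ge h0.le h1
    have h3 : 0 < ‖E ((2 * (i : ℝ) + 1) / M) - 1‖ := by linarith
    exact inv_mul_cancel₀ (norm_pos_iff.mp h3)
  have hs : ∑ y ∈ Ico a b, fM M y * P M y ^ 2 =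
      ∑ y ∈ Ico a b, (vv ((2 * (y : ℝ) + 1) / M) * P M y ^ 2) * (fM M (y + 1) - fM M y) := by
    refine Finset.sum_congr rfl fun i hi => ?_
    rw [mem_Ico] at hi
    rw [fM_succ]
    linear_combination (-(fM M i * P M i ^ 2)) * hv i hi.2.le
  rw [hs, sum_parts (fun y : ℕ => vv ((2 * (y : ℝ) + 1) / M) * P M y ^ 2) (fM M) a b hab, Finset.mul_sum]
  have hre : ∀ A B C D : ℂ, A - B - C + D = (A - B) - (C - D) := by intros; ring
  rw [hre, ← Finset.sum_sub_distrib]
  have hbd : ∀ i, i ≤ b → (a : ℝ) ≤ i → ‖(vv ((2 * (i : ℝ) + 1) / M) * P M i ^ 2) * fM M i‖ ≤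
      18 * (M * Real.sqrt M) := by
    intro i hi hai
    rw [norm_mul, norm_mul, fM_norm, mul_one, norm_pow]
    have h1 : ‖vv ((2 * (i : ℝ) + 1) / M)‖ ≤ M / (2 * (i + 1)) := by
      have h0 : (0 : ℝ) < (2 * i + 1) / M := by positivity
      refine (norm_vv_le h0 (xx_le M b (by omega) i hi)).trans ?_
      rw [div_le_div_iff₀ (by positivity) (by positivity)]
      have hi0 : (0 : ℝ) ≤ i := Nat.cast_nonneg i
      rw [one_mul, mul_comm (2 : ℝ) ((2 * (i : ℝ) + 1) / M), ← mul_assoc, mul_div_cancel₀ _ hM0.ne']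
      linarith
    have b5 : ‖P M i‖ ^ 2 ≤ 36 * M := by
      calc ‖P M i‖ ^ 2 ≤ (6 * Real.sqrt M) ^ 2 :=
            pow_le_pow_left₀ (norm_nonneg _) (P_norm_le_sqrt M i (by omega)) 2
        _ = _ := by rw [mul_pow, sq (Real.sqrt M), hss]; norm_num
    have h2 : (M : ℝ) / (2 * (i + 1)) ≤ Real.sqrt M / 2 := by
      rw [div_le_div_iff₀ (by positivity) (by norm_num)]
      have : Real.sqrt M ≤ i + 1 := by linarith
      nlinarith
    calc _ ≤ (Real.sqrt M / 2) * (36 * M) := mul_le_mul (h1.trans h2) b5 (by positivity) (by positivity)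
      _ = _ := by ring
  refine (norm_sub_le _ _).trans ?_
  have e1 := norm_sub_le ((vv ((2 * (b : ℝ) + 1) / M) * P M b ^ 2) * fM M b)
    ((vv ((2 * (a : ℝ) + 1) / M) * P M a ^ 2) * fM M a)
  have e2 := hbd b le_rfl (by exact_mod_cast hab)
  have e3 := hbd a hab le_rfl
  have e4 : ‖∑ y ∈ Ico a b, ((vv ((2 * ((y + 1 : ℕ) : ℝ) + 1) / M) * P M (y + 1) ^ 2 -
      vv ((2 * (y : ℝ) + 1) / M) * P M y ^ 2) * fM M (y + 1) -
        2 * P M h * vv ((2 * (y : ℝ) + 1) / M))‖ ≤ 108 * (M * Real.sqrt M) := by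
    refine (norm_sum_le _ _).trans ?_
    calc _ ≤ ∑ y ∈ Ico a b, (24 * Real.sqrt M + 82 * (M : ℝ) ^ 2 * (1 / (((y : ℝ) + 1) * (y + 2))) +
            M / (2 * (a + 1))) := by
          refine Finset.sum_le_sum fun y hy => ?_
          rw [mem_Ico] at hy
          refine (Jterm M y hM (by omega) h hh2 (by omega)).trans ?_
          have : (a : ℝ) ≤ y := by exact_mod_cast hy.1
          have h2 : (M : ℝ) / (2 * (y + 1)) ≤ M / (2 * (a + 1)) := by gcongr
          linarith
      _ = (b - a) * (24 * Real.sqrt M) + 82 * (M : ℝ) ^ 2 * ∑ y ∈ Ico a b, (1 : ℝ) / ((y + 1) * (y + 2)) +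
            (b - a) * (M / (2 * (a + 1))) := by
          rw [Finset.sum_add_distrib, Finset.sum_add_distrib, Finset.sum_const, Finset.sum_const,
            Nat.card_Ico, nsmul_eq_mul, nsmul_eq_mul, ← Finset.mul_sum, Nat.cast_sub hab]
      _ ≤ 24 * (M * Real.sqrt M) + 82 * (M * Real.sqrt M) + M * Real.sqrt M := by
          have hbM : (b : ℝ) - a ≤ M := by
            have h5 : (b : ℝ) ≤ M := by
              have : b ≤ M := by omega
              exact_mod_cast this
            have h6 : (0 : ℝ) ≤ a := Nat.cast_nonneg _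
            linarith
          have hba0 : (0 : ℝ) ≤ b - a := by
            have : (a : ℝ) ≤ b := by exact_mod_cast hab
            linarith
          have h1 := telescope_le a b hab
          have h3 : (M : ℝ) / (a + 1) ≤ Real.sqrt M := by
            rw [div_le_iff₀ ha0]
            nlinarith
          have h4 : 82 * (M : ℝ) ^ 2 * ∑ y ∈ Ico a b, (1 : ℝ) / ((y + 1) * (y + 2)) ≤
              82 * (M * Real.sqrt M) := by
            calc _ ≤ 82 * (M : ℝ) ^ 2 * (1 / (a + 1)) := mul_le_mul_of_nonneg_left h1 (by positivity)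
              _ = 82 * (M * (M / (a + 1))) := by ring
              _ ≤ _ := by gcongr
          have h5 : ((b : ℝ) - a) * (24 * Real.sqrt M) ≤ M * (24 * Real.sqrt M) :=
            mul_le_mul_of_nonneg_right hbM (by positivity)
          have h6 : ((b : ℝ) - a) * (M / (2 * (a + 1))) ≤ M * Real.sqrt M := by
            have h7 : (M : ℝ) / (2 * (a + 1)) ≤ Real.sqrt M := by
              have : (M : ℝ) / (2 * (a + 1)) = (M / (a + 1)) / 2 := by field_simp
              rw [this]
              linarith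
            exact mul_le_mul hbM h7 (by positivity) hM0.le
          linarith
      _ ≤ _ := by
          have : 0 ≤ M * Real.sqrt M := by positivity
          linarith
  have e5 : 0 ≤ M * Real.sqrt M := by positivity
  linarith

/-- Σ exp (π i y² / M) P(y)² is (i / 2π) P(M/2) M log M + O (M^(3/2)) -/
theorem J_asym (n : ℕ) (hn : 1 ≤ n) :
    ‖∑ y ∈ range (n + 1), fM (30 * n) y * P (30 * n) y ^ 2 -
        Complex.I / (2 * Real.pi) * P (30 * n) (15 * n) * ((30 * n : ℕ) : ℂ) *
          ((Real.log (30 * n : ℕ) : ℝ) : ℂ)‖ ≤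
      1100 * (((30 * n : ℕ) : ℝ) * Real.sqrt (30 * n : ℕ)) := by
  set M : ℕ := 30 * n with hM
  have hM0 : (0 : ℝ) < M := by
    have : 0 < M := by omega
    exact_mod_cast this
  have hM1 : (1 : ℝ) ≤ M := by
    have : 1 ≤ M := by omega
    exact_mod_cast this
  have hs0 : 0 ≤ Real.sqrt M := Real.sqrt_nonneg _
  have hss : Real.sqrt M * Real.sqrt M = M := Real.mul_self_sqrt hM0.le
  have hs1 : 1 ≤ Real.sqrt M := Real.one_le_sqrt.mpr hM1
  have hlog0 : 0 ≤ Real.log M := Real.log_nonneg hM1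
  have hPi : ‖P M (15 * n)‖ ≤ 6 * Real.sqrt M := P_norm_le_sqrt M (15 * n) (by omega)
  have hpi3 := Real.pi_gt_three
  have hmain : ‖Complex.I / (2 * Real.pi) * P M (15 * n) * (M : ℂ) * ((Real.log M : ℝ) : ℂ)‖ ≤
      M * Real.sqrt M * Real.log M := by
    rw [norm_mul, norm_mul, norm_mul, norm_div, norm_mul, Complex.norm_I, Complex.norm_real,
      Complex.norm_real, Complex.norm_natCast, Real.norm_eq_abs, Real.norm_eq_abs,
      abs_of_pos Real.pi_pos, abs_of_nonneg hlog0]
    simp only [Complex.norm_ofNat]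
    have h1 : 1 / (2 * Real.pi) ≤ 1 / 6 := by
      rw [div_le_div_iff₀ (by positivity) (by norm_num)]; linarith
    have h2 : 1 / (2 * Real.pi) * ‖P M (15 * n)‖ ≤ 1 / 6 * (6 * Real.sqrt M) :=
      mul_le_mul h1 hPi (norm_nonneg _) (by norm_num)
    calc 1 / (2 * Real.pi) * ‖P M (15 * n)‖ * M * Real.log M ≤
          (1 / 6 * (6 * Real.sqrt M)) * M * Real.log M := by gcongr
      _ = _ := by ring
  have hPsq : ∀ i, 2 * i ≤ M → ‖P M i‖ ^ 2 ≤ 36 * M := by
    intro i hi
    calc ‖P M i‖ ^ 2 ≤ (6 * Real.sqrt M) ^ 2 :=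
          pow_le_pow_left₀ (norm_nonneg _) (P_norm_le_sqrt M i hi) 2
      _ = _ := by rw [mul_pow, sq (Real.sqrt M), hss]; norm_num
  rcases Nat.lt_or_ge n 28 with hsmall | hbig
  · -- small n
    have hn28 : (n : ℝ) + 1 ≤ 28 := by
      have : n + 1 ≤ 28 := by omega
      exact_mod_cast this
    have h1 : ‖∑ y ∈ range (n + 1), fM M y * P M y ^ 2‖ ≤ 36 * M * (n + 1) := by
      refine (norm_sum_le _ _).trans ?_
      calc _ ≤ ∑ y ∈ range (n + 1), (36 * M : ℝ) := by
            refine Finset.sum_le_sum fun y hy => ?_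
            rw [mem_range] at hy
            rw [norm_mul, fM_norm, one_mul, norm_pow]
            exact hPsq y (by omega)
        _ = _ := by rw [Finset.sum_const, card_range, nsmul_eq_mul]; push_cast; ring
    have h2 : Real.log M ≤ 56 := by
      have h3 := Real.log_le_sub_one_of_pos (x := Real.sqrt M) (by linarith)
      have h4 : Real.log (Real.sqrt M) = Real.log M / 2 := Real.log_sqrt hM0.le
      rw [h4] at h3
      have h5 : Real.sqrt M ≤ 29 := by
        rw [Real.sqrt_le_left (by norm_num)]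
        have : M ≤ 841 := by omega
        have h6 : (M : ℝ) ≤ 841 := by exact_mod_cast this
        linarith
      linarith
    refine (norm_sub_le _ _).trans ?_
    have h3 : 36 * M * ((n : ℝ) + 1) ≤ 1008 * (M * Real.sqrt M) := by
      calc 36 * M * ((n : ℝ) + 1) ≤ 36 * M * 28 := mul_le_mul_of_nonneg_left hn28 (by positivity)
        _ = 1008 * (M * 1) := by ring
        _ ≤ _ := by gcongr
    have h4 : M * Real.sqrt M * Real.log M ≤ M * Real.sqrt M * 56 :=
      mul_le_mul_of_nonneg_left h2 (by positivity)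
    have h5 : 0 ≤ M * Real.sqrt M := by positivity
    linarith
  · -- large n
    set a : ℕ := Nat.sqrt M + 1 with ha
    have hsn : Nat.sqrt M < n + 1 := by
      rw [Nat.sqrt_lt']
      nlinarith
    have han : a ≤ n + 1 := hsn
    have ha1 : (a : ℝ) ≤ 2 * Real.sqrt M := by
      have := natsqrt_le M
      rw [ha]; push_cast; linarith
    have ha2 : Real.sqrt M ≤ a := by
      have := sqrt_lt_succ M
      rw [ha]; push_cast; linarith
    have ha0 : (0 : ℝ) < a := by linarith
    have hsplit : ∑ y ∈ range (n + 1), fM M y * P M y ^ 2 =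
        ∑ y ∈ range a, fM M y * P M y ^ 2 + ∑ y ∈ Ico a (n + 1), fM M y * P M y ^ 2 := by
      rw [Finset.sum_range_add_sum_Ico _ han]
    have h1 : ‖∑ y ∈ range a, fM M y * P M y ^ 2‖ ≤ 8 * (M * Real.sqrt M) := by
      refine (norm_sum_le _ _).trans ?_
      calc _ ≤ ∑ y ∈ range a, (a : ℝ) ^ 2 := by
            refine Finset.sum_le_sum fun y hy => ?_
            rw [mem_range] at hy
            rw [norm_mul, fM_norm, one_mul, norm_pow]
            have : (y : ℝ) ≤ a := by exact_mod_cast hy.le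
            exact pow_le_pow_left₀ (norm_nonneg _) ((P_norm_le M y).trans this) 2
        _ = (a : ℝ) ^ 3 := by rw [Finset.sum_const, card_range, nsmul_eq_mul]; ring
        _ ≤ (2 * Real.sqrt M) ^ 3 := pow_le_pow_left₀ ha0.le ha1 3
        _ = 8 * (Real.sqrt M * Real.sqrt M * Real.sqrt M) := by ring
        _ = _ := by rw [hss]
    have h2 := Jpart M a (n + 1) (15 * n) (by omega) han (by omega) (by omega) (by omega) (by linarith)
    -- the sum of the vv
    set V : ℂ := ∑ y ∈ Ico a (n + 1), vv ((2 * (y : ℝ) + 1) / M) with hV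
    set R : ℝ := ∑ y ∈ Ico a (n + 1), (1 : ℝ) / (2 * y + 1) with hR
    have hb : (n : ℝ) + 1 ≤ M := by
      have : n + 1 ≤ M := by omega
      exact_mod_cast this
    have h3 : ‖V - (M : ℂ) * (Real.pi * Complex.I)⁻¹ * (R : ℂ)‖ ≤ 4 * M := by
      rw [hV, hR]
      push_cast
      rw [Finset.mul_sum, ← Finset.sum_sub_distrib]
      refine (norm_sum_le _ _).trans ?_
      calc _ ≤ ∑ y ∈ Ico a (n + 1), (4 : ℝ) := by
            refine Finset.sum_le_sum fun y hy => ?_
            rw [mem_Ico] at hy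
            have h4 := vv_approx (x := (2 * (y : ℝ) + 1) / M) (by positivity)
              (xx_le M (n + 1) (by omega) y (by omega))
            refine le_trans (le_of_eq ?_) h4
            congr 2
            push_cast
            have e1 : (M : ℂ) ≠ 0 := by exact_mod_cast hM0.ne'
            have e2 : (2 * (y : ℂ) + 1) ≠ 0 := by
              have : (2 * y + 1 : ℕ) ≠ 0 := by omega
              exact_mod_cast this
            rw [mul_inv, mul_inv, mul_inv, inv_div]
            ring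
        _ = ((n + 1 : ℕ) - a : ℝ) * 4 := by
            rw [Finset.sum_const, Nat.card_Ico, nsmul_eq_mul, Nat.cast_sub han]
        _ ≤ _ := by push_cast; linarith
    have h4 : |R - Real.log M / 4| ≤ 4 := by
      have h5 := abs_le.mp (sum_inv_odd a (n + 1) (by omega) han)
      have h6 : (1 : ℝ) / a ≤ 1 := by
        rw [div_le_one ha0]; linarith
      have h7 : (0 : ℝ) ≤ 1 / ((n + 1 : ℕ) : ℝ) := by positivity
      have l1 : Real.log M / 2 ≤ Real.log a := by
        rw [← Real.log_sqrt hM0.le]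
        exact Real.log_le_log (by linarith) ha2
      have l2 : Real.log a ≤ Real.log M / 2 + 1 := by
        have h8 := Real.log_le_log ha0 ha1
        rw [Real.log_mul (by norm_num) (by linarith), Real.log_sqrt hM0.le] at h8
        have h9 : Real.log 2 ≤ 1 := by have := Real.log_two_lt_d9; linarith
        linarith
      have l3 : Real.log ((n + 1 : ℕ) : ℝ) ≤ Real.log M := by
        refine Real.log_le_log (by positivity) ?_
        push_cast; exact hb
      have l4 : Real.log M - 4 ≤ Real.log ((n + 1 : ℕ) : ℝ) := by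
        have h8 : Real.log M ≤ Real.log (32 * ((n + 1 : ℕ) : ℝ)) := by
          refine Real.log_le_log hM0 ?_
          rw [hM]; push_cast; linarith
        rw [Real.log_mul (by norm_num) (by positivity)] at h8
        have h9 : Real.log 32 = 5 * Real.log 2 := by
          rw [show (32 : ℝ) = 2 ^ 5 by norm_num, Real.log_pow]; norm_num
        have := Real.log_two_lt_d9
        linarith
      rw [abs_le]
      constructor <;> linarith [h5.1, h5.2]
    -- combine
    have h5 : ‖2 * P M (15 * n) * V + Complex.I / (2 * Real.pi) * P M (15 * n) * (M : ℂ) *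
        ((Real.log M : ℝ) : ℂ)‖ ≤ 72 * (M * Real.sqrt M) := by
      have hpc : (Real.pi : ℂ) ≠ 0 := by exact_mod_cast Real.pi_ne_zero
      have e1 : 2 * P M (15 * n) * V + Complex.I / (2 * Real.pi) * P M (15 * n) * (M : ℂ) *
          ((Real.log M : ℝ) : ℂ) = 2 * P M (15 * n) * ((V - (M : ℂ) * (Real.pi * Complex.I)⁻¹ * (R : ℂ)) +
            (M : ℂ) * (Real.pi * Complex.I)⁻¹ * ((R - Real.log M / 4 : ℝ) : ℂ)) := by
        have hI : (Complex.I : ℂ)⁻¹ = -Complex.I := Complex.inv_I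
        rw [mul_inv, hI]
        push_cast
        field_simp
        ring
      rw [e1, norm_mul, norm_mul]
      simp only [Complex.norm_ofNat]
      have e2 : ‖(M : ℂ) * (Real.pi * Complex.I)⁻¹ * ((R - Real.log M / 4 : ℝ) : ℂ)‖ ≤ 2 * M := by
        rw [norm_mul, norm_mul, norm_inv, norm_mul, Complex.norm_I, mul_one, Complex.norm_natCast,
          Complex.norm_real, Complex.norm_real, Real.norm_eq_abs, Real.norm_eq_abs,
          abs_of_pos Real.pi_pos]
        calc (M : ℝ) * Real.pi⁻¹ * |R - Real.log M / 4| ≤ M * (1 / 3) * 4 := by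
              have : Real.pi⁻¹ ≤ 1 / 3 := by
                rw [inv_eq_one_div, div_le_div_iff₀ (by positivity) (by norm_num)]; linarith
              gcongr
          _ ≤ 2 * M := by linarith
      calc 2 * ‖P M (15 * n)‖ * ‖(V - (M : ℂ) * (Real.pi * Complex.I)⁻¹ * (R : ℂ)) +
            (M : ℂ) * (Real.pi * Complex.I)⁻¹ * ((R - Real.log M / 4 : ℝ) : ℂ)‖ ≤
            2 * (6 * Real.sqrt M) * (4 * M + 2 * M) := by
              gcongr
              exact (norm_add_le _ _).trans (add_le_add h3 e2)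
        _ = _ := by ring
    rw [hsplit]
    have e3 : ∑ y ∈ range a, fM M y * P M y ^ 2 + ∑ y ∈ Ico a (n + 1), fM M y * P M y ^ 2 -
        Complex.I / (2 * Real.pi) * P M (15 * n) * (M : ℂ) * ((Real.log M : ℝ) : ℂ) =
        ∑ y ∈ range a, fM M y * P M y ^ 2 +
          (∑ y ∈ Ico a (n + 1), fM M y * P M y ^ 2 + 2 * P M (15 * n) * V) -
          (2 * P M (15 * n) * V + Complex.I / (2 * Real.pi) * P M (15 * n) * (M : ℂ) *
            ((Real.log M : ℝ) : ℂ)) := by ring
    rw [e3]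
    refine (norm_sub_le _ _).trans ?_
    have e4 := norm_add_le (∑ y ∈ range a, fM M y * P M y ^ 2)
      (∑ y ∈ Ico a (n + 1), fM M y * P M y ^ 2 + 2 * P M (15 * n) * V)
    have e5 : 0 ≤ M * Real.sqrt M := by positivity
    linarith

end Pool.Agent.L0h28.Aec
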