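import Mathlib
import Pool.Agent.L0h28.Aec.Jsum

/-!
# The structure of the vectors of the torus knots
-/

set_option autoImplicit false

open Finset H524R3

namespace Pool.Agent.L0h28.Aec

theorem eM_res (M : ℕ) (hM : 0 < M) (hev : Even M) (m : ℤ) (x : ℝ) :
    eM M (M * m + x) = E (-(2 * m * x)) * eM M x := by
  have hM0 : (M : ℝ) ≠ 0 := by exact_mod_cast hM.ne'
  unfold eM
  have h1 : -((M : ℝ) * m + x) ^ 2 / M = (-(2 * m * x) + -(x ^ 2) / M) + ((-(M * m ^ 2) : ℤ) : ℝ) := by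
    push_cast
    field_simp
    ring
  have h2 : Even (-((M : ℤ) * m ^ 2)) := by
    obtain ⟨k, hk⟩ := hev
    exact ⟨-(k * m ^ 2), by rw [hk]; push_cast; ring⟩
  rw [h1, E_add, E_even _ h2, mul_one, E_add]

/-- One term of the vector: the four shifted phases. -/
noncomputable def UU (M : ℕ) (s t : ℝ) (x : ℝ) : ℂ :=
  eM M (x - s) + eM M (x + s) - eM M (x - t) - eM M (x + t)

theorem UU_norm (M : ℕ) (s t x : ℝ) : ‖UU M s t x‖ ≤ 4 := by
  unfold UU
  refine (norm_sub_le _ _).trans ?_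
  have h1 := norm_sub_le (eM M (x - s) + eM M (x + s)) (eM M (x - t))
  have h2 := norm_add_le (eM M (x - s)) (eM M (x + s))
  simp only [eM_norm] at *
  linarith

/-- The vector of the knot: the partial sums of UU at the half integers. -/
noncomputable def SS (M : ℕ) (s t : ℝ) (l : ℕ) : ℂ := ∑ i ∈ range l, UU M s t (i + 1 / 2)

theorem SS_zero (M : ℕ) (s t : ℝ) : SS M s t 0 = 0 := by simp [SS]

theorem SS_succ (M : ℕ) (s t : ℝ) (l : ℕ) : SS M s t (l + 1) = SS M s t l + UU M s t (l + 1 / 2) := by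
  unfold SS; rw [Finset.sum_range_succ]

/-- The jump at the resonance m. -/
noncomputable def bb (s t : ℝ) (m : ℕ) : ℝ :=
  (-1) ^ m * (2 * Real.cos (2 * Real.pi * m * s) - 2 * Real.cos (2 * Real.pi * m * t))

theorem bb_abs (s t : ℝ) (m : ℕ) : |bb s t m| ≤ 4 := by
  unfold bb
  rw [abs_mul, abs_pow, abs_neg, abs_one, one_pow, one_mul]
  have h1 := abs_le.mp (Real.abs_cos_le_one (2 * Real.pi * m * s))
  have h2 := abs_le.mp (Real.abs_cos_le_one (2 * Real.pi * m * t))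
  rw [abs_le]
  constructor <;> linarith [h1.1, h1.2, h2.1, h2.2]

theorem bb_zero (s t : ℝ) : bb s t 0 = 0 := by simp [bb]

theorem E_add_neg (x : ℝ) : E x + E (-x) = ((2 * Real.cos (Real.pi * x) : ℝ) : ℂ) := by
  apply Complex.ext
  · rw [Complex.add_re, E_re, E_re, Complex.ofReal_re, mul_neg, Real.cos_neg]; ring
  · rw [Complex.add_im, E_im, E_im, Complex.ofReal_im, mul_neg, Real.sin_neg]; ring

theorem neg_one_pow_eq_E (m : ℕ) : ((-1 : ℂ)) ^ m = E m := by
  have := E_pow 1 m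
  rw [E_one, mul_one] at this
  exact this

theorem bb_eq (s t : ℝ) (m : ℕ) : ((bb s t m : ℝ) : ℂ) =
    (-1) ^ m * (E (2 * m * s) + E (-(2 * m * s)) - E (2 * m * t) - E (-(2 * m * t))) := by
  have h1 := E_add_neg (2 * m * s)
  have h2 := E_add_neg (2 * m * t)
  unfold bb
  rw [show E (2 * m * s) + E (-(2 * m * s)) - E (2 * m * t) - E (-(2 * m * t)) =
    (E (2 * m * s) + E (-(2 * m * s))) - (E (2 * m * t) + E (-(2 * m * t))) by ring, h1, h2]
  push_cast
  congr 2
  · congr 2; ring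
  · congr 2; ring

/-- The sum of the four shifted incomplete Gauss sums. -/
theorem four_sums (M l : ℕ) (hl : 2 * l ≤ M) (s t : ℝ) (hs : |s| ≤ 1 / 2) (ht : |t| ≤ 1 / 2) (m : ℕ)
    (A B C D : ℂ)
    (hA : ‖A - P M l‖ ≤ 50) (hB : ‖B - P M l‖ ≤ 50) (hC : ‖C - P M l‖ ≤ 50) (hD : ‖D - P M l‖ ≤ 50) :
    ‖(-1) ^ m * (E (2 * m * s) * A + E (-(2 * m * s)) * B - E (2 * m * t) * C - E (-(2 * m * t)) * D) -
      bb s t m * P M l‖ ≤ 200 := by
  rw [bb_eq]
  have h : (-1 : ℂ) ^ m * (E (2 * m * s) * A + E (-(2 * m * s)) * B - E (2 * m * t) * C -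
      E (-(2 * m * t)) * D) - (-1) ^ m * (E (2 * m * s) + E (-(2 * m * s)) - E (2 * m * t) -
        E (-(2 * m * t))) * P M l = (-1) ^ m * (E (2 * m * s) * (A - P M l) +
          E (-(2 * m * s)) * (B - P M l) - E (2 * m * t) * (C - P M l) - E (-(2 * m * t)) * (D - P M l)) := by
    ring
  rw [h, norm_mul, norm_pow, norm_neg, norm_one, one_pow, one_mul]
  refine (norm_sub_le _ _).trans ?_
  have h1 := norm_sub_le (E (2 * m * s) * (A - P M l) + E (-(2 * m * s)) * (B - P M l))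
    (E (2 * m * t) * (C - P M l))
  have h2 := norm_add_le (E (2 * m * s) * (A - P M l)) (E (-(2 * m * s)) * (B - P M l))
  rw [norm_mul, E_norm, one_mul] at *
  rw [norm_mul, E_norm, one_mul] at h2
  linarith

theorem SS_fwd (M : ℕ) (hM : 0 < M) (hev : Even M) (s t : ℝ) (hs : |s| ≤ 1 / 2) (ht : |t| ≤ 1 / 2)
    (m l : ℕ) (hl : 2 * l ≤ M) :
    ‖SS M s t (M * m + l) - SS M s t (M * m) - bb s t m * P M l‖ ≤ 200 := by
  have hres : ∀ (i : ℕ) (σ : ℝ), eM M (((M * m + i : ℕ) : ℝ) + 1 / 2 - σ) =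
      (-1) ^ m * (E (2 * m * σ) * eM M (i + 1 / 2 - σ)) := by
    intro i σ
    have h1 : (((M * m + i : ℕ) : ℝ) + 1 / 2 - σ) = M * ((m : ℤ) : ℝ) + (i + 1 / 2 - σ) := by
      push_cast; ring
    rw [h1, eM_res M hM hev, ← mul_assoc]
    congr 1
    rw [neg_one_pow_eq_E]
    have h2 : -(2 * ((m : ℤ) : ℝ) * ((i : ℝ) + 1 / 2 - σ)) = (m : ℝ) + 2 * m * σ +
        ((-(2 * (m * i + m)) : ℤ) : ℝ) := by
      push_cast; ring
    rw [h2, E_add, E_even _ ⟨-(m * i + m), by ring⟩, mul_one, E_add]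
  have hU : ∀ i : ℕ, UU M s t (((M * m + i : ℕ) : ℝ) + 1 / 2) =
      (-1) ^ m * (E (2 * m * s) * eM M (i + 1 / 2 - s) + E (-(2 * m * s)) * eM M (i + 1 / 2 - -s) -
        E (2 * m * t) * eM M (i + 1 / 2 - t) - E (-(2 * m * t)) * eM M (i + 1 / 2 - -t)) := by
    intro i
    unfold UU
    have h1 := hres i s
    have h2 := hres i (-s)
    have h3 := hres i t
    have h4 := hres i (-t)
    rw [sub_neg_eq_add] at h2 h4
    rw [h1, h2, h3, h4]
    rw [show (2 * (m : ℝ) * -s) = -(2 * m * s) by ring, show (2 * (m : ℝ) * -t) = -(2 * m * t) by ring,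
      sub_neg_eq_add, sub_neg_eq_add]
    ring
  have hS : SS M s t (M * m + l) - SS M s t (M * m) =
      (-1) ^ m * (E (2 * m * s) * (∑ i ∈ range l, eM M (i + 1 / 2 - s)) +
        E (-(2 * m * s)) * (∑ i ∈ range l, eM M (i + 1 / 2 - -s)) -
        E (2 * m * t) * (∑ i ∈ range l, eM M (i + 1 / 2 - t)) -
          E (-(2 * m * t)) * (∑ i ∈ range l, eM M (i + 1 / 2 - -t))) := by
    unfold SS
    rw [Finset.sum_range_add, add_sub_cancel_left]
    rw [Finset.mul_sum, Finset.mul_sum, Finset.mul_sum, Finset.mul_sum, ← Finset.sum_add_distrib,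
      ← Finset.sum_sub_distrib, ← Finset.sum_sub_distrib, Finset.mul_sum]
    exact Finset.sum_congr rfl fun i _ => hU i
  rw [hS]
  refine four_sums M l hl s t hs ht m _ _ _ _ ?_ ?_ ?_ ?_
  · exact shift_le M l s hs hl
  · exact shift_le M l (-s) (by rwa [abs_neg]) hl
  · exact shift_le M l t ht hl
  · exact shift_le M l (-t) (by rwa [abs_neg]) hl

theorem SS_bwd (M : ℕ) (hM : 0 < M) (hev : Even M) (s t : ℝ) (hs : |s| ≤ 1 / 2) (ht : |t| ≤ 1 / 2)
    (m l : ℕ) (hl : 2 * l ≤ M) (hlm : l ≤ M * m) :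
    ‖SS M s t (M * m) - SS M s t (M * m - l) - bb s t m * P M l‖ ≤ 200 := by
  have hres : ∀ (i : ℕ) (σ : ℝ), i < l → eM M (((M * m - l + (l - 1 - i) : ℕ) : ℝ) + 1 / 2 - σ) =
      (-1) ^ m * (E (2 * m * σ) * eM M (i + 1 / 2 - -σ)) := by
    intro i σ hi
    have h0 : (((M * m - l + (l - 1 - i) : ℕ) : ℝ)) = M * m - (i + 1) := by
      have h : (M * m - l + (l - 1 - i)) + (i + 1) = M * m := by omega
      have h' : (((M * m - l + (l - 1 - i) : ℕ) : ℝ)) + (i + 1) = M * m := by exact_mod_cast h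
      linarith
    have h1 : (((M * m - l + (l - 1 - i) : ℕ) : ℝ) + 1 / 2 - σ) =
        M * ((m : ℤ) : ℝ) + -(i + 1 / 2 - -σ) := by
      rw [h0]; push_cast; ring
    rw [h1, eM_res M hM hev, eM_neg, ← mul_assoc]
    congr 1
    rw [neg_one_pow_eq_E]
    have h2 : -(2 * ((m : ℤ) : ℝ) * -((i : ℝ) + 1 / 2 - -σ)) = (m : ℝ) + 2 * m * σ +
        (((2 * (m * i)) : ℤ) : ℝ) := by
      push_cast; ring
    rw [h2, E_add, E_even _ ⟨(m * i), by ring⟩, mul_one, E_add]
  have hU : ∀ i : ℕ, i < l → UU M s t (((M * m - l + (l - 1 - i) : ℕ) : ℝ) + 1 / 2) =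
      (-1) ^ m * (E (2 * m * s) * eM M (i + 1 / 2 - -s) + E (-(2 * m * s)) * eM M (i + 1 / 2 - s) -
        E (2 * m * t) * eM M (i + 1 / 2 - -t) - E (-(2 * m * t)) * eM M (i + 1 / 2 - t)) := by
    intro i hi
    unfold UU
    have h1 := hres i s hi
    have h2 := hres i (-s) hi
    have h3 := hres i t hi
    have h4 := hres i (-t) hi
    rw [sub_neg_eq_add, neg_neg] at h2 h4
    rw [h1, h2, h3, h4]
    rw [show (2 * (m : ℝ) * -s) = -(2 * m * s) by ring, show (2 * (m : ℝ) * -t) = -(2 * m * t) by ring]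
    ring
  have hS : SS M s t (M * m) - SS M s t (M * m - l) =
      (-1) ^ m * (E (2 * m * s) * (∑ i ∈ range l, eM M (i + 1 / 2 - -s)) +
        E (-(2 * m * s)) * (∑ i ∈ range l, eM M (i + 1 / 2 - s)) -
        E (2 * m * t) * (∑ i ∈ range l, eM M (i + 1 / 2 - -t)) -
          E (-(2 * m * t)) * (∑ i ∈ range l, eM M (i + 1 / 2 - t))) := by
    have h1 : M * m = (M * m - l) + l := by omega
    have h2 : SS M s t (M * m) = SS M s t ((M * m - l) + l) := by rw [← h1]
    rw [h2]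
    unfold SS
    rw [Finset.sum_range_add, add_sub_cancel_left]
    rw [← Finset.sum_range_reflect (fun i : ℕ => UU M s t (((M * m - l + i : ℕ) : ℝ) + 1 / 2))]
    rw [Finset.mul_sum, Finset.mul_sum, Finset.mul_sum, Finset.mul_sum, ← Finset.sum_add_distrib,
      ← Finset.sum_sub_distrib, ← Finset.sum_sub_distrib, Finset.mul_sum]
    exact Finset.sum_congr rfl fun i hi => hU i (mem_range.mp hi)
  rw [hS]
  refine four_sums M l hl s t hs ht m _ _ _ _ ?_ ?_ ?_ ?_
  · exact shift_le M l (-s) (by rwa [abs_neg]) hl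
  · exact shift_le M l s hs hl
  · exact shift_le M l (-t) (by rwa [abs_neg]) hl
  · exact shift_le M l t ht hl

/-- The value of the vector (divided by the half Gauss sum) at the resonance m. -/
noncomputable def aa (s t : ℝ) (m : ℕ) : ℝ := ∑ k ∈ range m, (bb s t k + bb s t (k + 1))

theorem aa_succ (s t : ℝ) (m : ℕ) : aa s t (m + 1) = aa s t m + (bb s t m + bb s t (m + 1)) := by
  unfold aa; rw [Finset.sum_range_succ]

theorem aa_abs (s t : ℝ) (m : ℕ) : |aa s t m| ≤ 8 * m := by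
  unfold aa
  refine (Finset.abs_sum_le_sum_abs _ _).trans ?_
  calc _ ≤ ∑ k ∈ range m, (8 : ℝ) := by
        refine Finset.sum_le_sum fun k _ => ?_
        refine (abs_add_le _ _).trans ?_
        linarith [bb_abs s t k, bb_abs s t (k + 1)]
    _ = _ := by rw [Finset.sum_const, card_range, nsmul_eq_mul]; ring

theorem SS_res (h : ℕ) (hh0 : 0 < h) (s t : ℝ) (hs : |s| ≤ 1 / 2) (ht : |t| ≤ 1 / 2) (m : ℕ) :
    ‖SS (2 * h) s t (2 * h * m) - aa s t m * P (2 * h) h‖ ≤ 400 * m := by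
  induction m with
  | zero => simp [SS_zero, aa]
  | succ m ih =>
    have h1 := SS_fwd (2 * h) (by omega) ⟨h, by ring⟩ s t hs ht m h le_rfl
    have h2 := SS_bwd (2 * h) (by omega) ⟨h, by ring⟩ s t hs ht (m + 1) h le_rfl (by nlinarith)
    have h3 : 2 * h * (m + 1) - h = 2 * h * m + h := by
      have : 2 * h * (m + 1) = 2 * h * m + 2 * h := by ring
      omega
    rw [h3] at h2
    rw [aa_succ]
    push_cast
    have h4 : SS (2 * h) s t (2 * h * (m + 1)) - (aa s t m + (bb s t m + bb s t (m + 1))) * P (2 * h) h =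
        (SS (2 * h) s t (2 * h * (m + 1)) - SS (2 * h) s t (2 * h * m + h) - bb s t (m + 1) * P (2 * h) h) +
        (SS (2 * h) s t (2 * h * m + h) - SS (2 * h) s t (2 * h * m) - bb s t m * P (2 * h) h) +
        (SS (2 * h) s t (2 * h * m) - aa s t m * P (2 * h) h) := by ring
    rw [h4]
    have e1 := norm_add_le ((SS (2 * h) s t (2 * h * (m + 1)) - SS (2 * h) s t (2 * h * m + h) -
      bb s t (m + 1) * P (2 * h) h) +
        (SS (2 * h) s t (2 * h * m + h) - SS (2 * h) s t (2 * h * m) - bb s t m * P (2 * h) h))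
        (SS (2 * h) s t (2 * h * m) - aa s t m * P (2 * h) h)
    have e2 := norm_add_le (SS (2 * h) s t (2 * h * (m + 1)) - SS (2 * h) s t (2 * h * m + h) -
      bb s t (m + 1) * P (2 * h) h)
        (SS (2 * h) s t (2 * h * m + h) - SS (2 * h) s t (2 * h * m) - bb s t m * P (2 * h) h)
    linarith

/-- Away from the resonances the vector is a constant multiple of the half Gauss sum, up to O(1). -/
theorem SS_mid (h : ℕ) (hh0 : 0 < h) (s t : ℝ) (hs : |s| ≤ 1 / 2) (ht : |t| ≤ 1 / 2) (m z : ℕ)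
    (hz : z ≤ h) :
    ‖SS (2 * h) s t (2 * h * m + z) - (aa s t m + bb s t m) * P (2 * h) h‖ ≤
      400 * m + 200 + 40 * h / (z + 1) := by
  have h1 := SS_fwd (2 * h) (by omega) ⟨h, by ring⟩ s t hs ht m z (by omega)
  have h2 := SS_res h hh0 s t hs ht m
  have h3 := P_sub_norm_le (2 * h) z h hz le_rfl (by omega)
  have h4 : SS (2 * h) s t (2 * h * m + z) - (aa s t m + bb s t m) * P (2 * h) h =
      (SS (2 * h) s t (2 * h * m + z) - SS (2 * h) s t (2 * h * m) - bb s t m * P (2 * h) z) +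
      (SS (2 * h) s t (2 * h * m) - aa s t m * P (2 * h) h) -
        bb s t m * (P (2 * h) h - P (2 * h) z) := by ring
  rw [h4]
  have e1 := norm_sub_le ((SS (2 * h) s t (2 * h * m + z) - SS (2 * h) s t (2 * h * m) -
      bb s t m * P (2 * h) z) + (SS (2 * h) s t (2 * h * m) - aa s t m * P (2 * h) h))
        (bb s t m * (P (2 * h) h - P (2 * h) z))
  have e2 := norm_add_le (SS (2 * h) s t (2 * h * m + z) - SS (2 * h) s t (2 * h * m) -
      bb s t m * P (2 * h) z) (SS (2 * h) s t (2 * h * m) - aa s t m * P (2 * h) h)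
  have e3 : ‖(bb s t m : ℂ) * (P (2 * h) h - P (2 * h) z)‖ ≤ 40 * h / (z + 1) := by
    rw [norm_mul, Complex.norm_real, Real.norm_eq_abs]
    calc |bb s t m| * ‖P (2 * h) h - P (2 * h) z‖ ≤ 4 * (5 * ((2 * h : ℕ) : ℝ) / (z + 1)) :=
          mul_le_mul (bb_abs s t m) h3 (norm_nonneg _) (by norm_num)
      _ = _ := by push_cast; ring
  linarith

/-- A global bound. -/
theorem SS_norm_le (h : ℕ) (hh0 : 0 < h) (s t : ℝ) (hs : |s| ≤ 1 / 2) (ht : |t| ≤ 1 / 2) (l : ℕ) (m : ℕ)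
    (hl : l ≤ 2 * h * m + h) :
    ‖SS (2 * h) s t l‖ ≤ (500 * m + 300) * Real.sqrt (2 * h : ℕ) := by
  have hM1 : (1 : ℝ) ≤ (2 * h : ℕ) := by
    have : 1 ≤ 2 * h := by omega
    exact_mod_cast this
  have hs1 : 1 ≤ Real.sqrt (2 * h : ℕ) := Real.one_le_sqrt.mpr hM1
  have hP : ∀ z, z ≤ h → ‖P (2 * h) z‖ ≤ 6 * Real.sqrt (2 * h : ℕ) :=
    fun z hz => P_norm_le_sqrt (2 * h) z (by omega)
  have hres : ∀ k, ‖SS (2 * h) s t (2 * h * k)‖ ≤ 448 * k * Real.sqrt (2 * h : ℕ) := by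
    intro k
    have h2 := SS_res h hh0 s t hs ht k
    have h3 : SS (2 * h) s t (2 * h * k) = (SS (2 * h) s t (2 * h * k) - aa s t k * P (2 * h) h) +
        aa s t k * P (2 * h) h := by ring
    rw [h3]
    refine (norm_add_le _ _).trans ?_
    rw [norm_mul, Complex.norm_real, Real.norm_eq_abs]
    have h4 : |aa s t k| * ‖P (2 * h) h‖ ≤ (8 * k) * (6 * Real.sqrt (2 * h : ℕ)) :=
      mul_le_mul (aa_abs s t k) (hP h le_rfl) (norm_nonneg _) (by positivity)
    have h5 : 400 * (k : ℝ) ≤ 400 * k * Real.sqrt (2 * h : ℕ) := by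
      have : (0 : ℝ) ≤ 400 * k := by positivity
      nlinarith
    linarith
  -- l = 2 h k + z or 2 h k - z
  obtain ⟨k, z, hz, hk, hor⟩ : ∃ k z, z ≤ h ∧ k ≤ m ∧ (l = 2 * h * k + z ∨ (l = 2 * h * k - z ∧ z ≤ 2 * h * k)) := by
    set q := l / (2 * h) with hq
    set ρ := l % (2 * h) with hρ
    have h1 : 2 * h * q + ρ = l := Nat.div_add_mod l (2 * h)
    have h2 : ρ < 2 * h := Nat.mod_lt _ (by omega)
    have hmul : 2 * h * (q + 1) = 2 * h * q + 2 * h := by ring
    rcases le_total ρ h with h3 | h3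
    · refine ⟨q, ρ, h3, ?_, Or.inl h1.symm⟩
      by_contra hc
      push Not at hc
      have : 2 * h * (m + 1) ≤ 2 * h * q := Nat.mul_le_mul_left _ hc
      have h5 : 2 * h * (m + 1) = 2 * h * m + 2 * h := by ring
      omega
    · rcases Nat.lt_or_ge m (q + 1) with h4 | h4
      · -- q = m, then ρ = h
        have h5 : 2 * h * m ≤ 2 * h * q := Nat.mul_le_mul_left _ (by omega)
        refine ⟨q, h, le_rfl, ?_, Or.inl (by omega)⟩
        by_contra hc
        push Not at hc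
        have : 2 * h * (m + 1) ≤ 2 * h * q := Nat.mul_le_mul_left _ hc
        have h6 : 2 * h * (m + 1) = 2 * h * m + 2 * h := by ring
        omega
      · exact ⟨q + 1, 2 * h - ρ, by omega, h4, Or.inr ⟨by omega, by omega⟩⟩
  have hkm : (k : ℝ) ≤ m := by exact_mod_cast hk
  have hfin : (448 * k + 224) * Real.sqrt (2 * h : ℕ) ≤ (500 * m + 300) * Real.sqrt (2 * h : ℕ) := by
    have h0 : (0 : ℝ) ≤ m := Nat.cast_nonneg m
    refine mul_le_mul_of_nonneg_right ?_ (by linarith)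
    linarith
  have hbP : ‖(bb s t k : ℂ) * P (2 * h) z‖ ≤ 24 * Real.sqrt (2 * h : ℕ) := by
    rw [norm_mul, Complex.norm_real, Real.norm_eq_abs]
    calc |bb s t k| * ‖P (2 * h) z‖ ≤ 4 * (6 * Real.sqrt (2 * h : ℕ)) :=
          mul_le_mul (bb_abs s t k) (hP z hz) (norm_nonneg _) (by norm_num)
      _ = _ := by ring
  rcases hor with rfl | ⟨rfl, hzk⟩
  · have h1 := SS_fwd (2 * h) (by omega) ⟨h, by ring⟩ s t hs ht k z (by omega)
    have h3 : SS (2 * h) s t (2 * h * k + z) =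
        (SS (2 * h) s t (2 * h * k + z) - SS (2 * h) s t (2 * h * k) - bb s t k * P (2 * h) z) +
          SS (2 * h) s t (2 * h * k) + bb s t k * P (2 * h) z := by ring
    rw [h3]
    have e1 := norm_add_le ((SS (2 * h) s t (2 * h * k + z) - SS (2 * h) s t (2 * h * k) -
      bb s t k * P (2 * h) z) + SS (2 * h) s t (2 * h * k)) (bb s t k * P (2 * h) z)
    have e2 := norm_add_le (SS (2 * h) s t (2 * h * k + z) - SS (2 * h) s t (2 * h * k) -
      bb s t k * P (2 * h) z) (SS (2 * h) s t (2 * h * k))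
    have e3 := hres k
    linarith
  · have h1 := SS_bwd (2 * h) (by omega) ⟨h, by ring⟩ s t hs ht k z (by omega) hzk
    have h3 : SS (2 * h) s t (2 * h * k - z) =
        SS (2 * h) s t (2 * h * k) - (SS (2 * h) s t (2 * h * k) - SS (2 * h) s t (2 * h * k - z) -
          bb s t k * P (2 * h) z) - bb s t k * P (2 * h) z := by ring
    rw [h3]
    have e1 := norm_sub_le (SS (2 * h) s t (2 * h * k) - (SS (2 * h) s t (2 * h * k) -
      SS (2 * h) s t (2 * h * k - z) - bb s t k * P (2 * h) z)) (bb s t k * P (2 * h) z)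
    have e2 := norm_sub_le (SS (2 * h) s t (2 * h * k)) (SS (2 * h) s t (2 * h * k) -
      SS (2 * h) s t (2 * h * k - z) - bb s t k * P (2 * h) z)
    have e3 := hres k
    linarith

end Pool.Agent.L0h28.Aec
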