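import Mathlib
import Pool.Agent.L0h28.Aec.Struct

/-!
# The summand, its bounds, and the splitting of the sum
-/

set_option autoImplicit false

open Finset H524R3

namespace Pool.Agent.L0h28.Aec

/-- f is bounded by A and its differences by a on [p, q]. -/
def BV (f : ℕ → ℂ) (p q : ℕ) (A a : ℝ) : Prop :=
  (∀ i, p ≤ i → i ≤ q → ‖f i‖ ≤ A) ∧ (∀ i, p ≤ i → i < q → ‖f (i + 1) - f i‖ ≤ a)

theorem BV.mul {f g : ℕ → ℂ} {p q : ℕ} {A a B b : ℝ} (hpq : p ≤ q) (hf : BV f p q A a)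
    (hg : BV g p q B b) : BV (fun i => f i * g i) p q (A * B) (a * B + A * b) := by
  have hA : 0 ≤ A := (norm_nonneg _).trans (hf.1 p le_rfl hpq)
  refine ⟨fun i h1 h2 => ?_, fun i h1 h2 => ?_⟩
  · show ‖f i * g i‖ ≤ _
    rw [norm_mul]
    exact mul_le_mul (hf.1 i h1 h2) (hg.1 i h1 h2) (norm_nonneg _) hA
  · have h : f (i + 1) * g (i + 1) - f i * g i = (f (i + 1) - f i) * g (i + 1) + f i * (g (i + 1) - g i) := by
      ring
    show ‖f (i + 1) * g (i + 1) - f i * g i‖ ≤ _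
    have ha : 0 ≤ a := (norm_nonneg _).trans (hf.2 i h1 h2)
    rw [h]
    refine (norm_add_le _ _).trans (add_le_add ?_ ?_)
    · rw [norm_mul]
      exact mul_le_mul (hf.2 i h1 h2) (hg.1 (i + 1) (by omega) h2) (norm_nonneg _) ha
    · rw [norm_mul]
      exact mul_le_mul (hf.1 i h1 h2.le) (hg.2 i h1 h2) (norm_nonneg _) hA

theorem BV.conj {f : ℕ → ℂ} {p q : ℕ} {A a : ℝ} (hf : BV f p q A a) :
    BV (fun i => (starRingEnd ℂ) (f i)) p q A a := by
  refine ⟨fun i h1 h2 => ?_, fun i h1 h2 => ?_⟩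
  · show ‖(starRingEnd ℂ) (f i)‖ ≤ _
    rw [RCLike.norm_conj]; exact hf.1 i h1 h2
  · show ‖(starRingEnd ℂ) (f (i + 1)) - (starRingEnd ℂ) (f i)‖ ≤ _
    rw [← map_sub, RCLike.norm_conj]; exact hf.2 i h1 h2

theorem BV.mono {f : ℕ → ℂ} {p q : ℕ} {A a A' a' : ℝ} (hf : BV f p q A a) (h1 : A ≤ A') (h2 : a ≤ a') :
    BV f p q A' a' :=
  ⟨fun i x y => (hf.1 i x y).trans h1, fun i x y => (hf.2 i x y).trans h2⟩

/-- The vector of the knot T(2,7). -/
noncomputable def SA (n l : ℕ) : ℂ := SS (30 * n) (9 / 28) (5 / 28) l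

/-- The vector of the knot T(3,5). -/
noncomputable def SB (n l : ℕ) : ℂ := SS (28 * n) (4 / 15) (1 / 15) l

noncomputable def bA (m : ℕ) : ℝ := bb (9 / 28) (5 / 28) m

noncomputable def bB (m : ℕ) : ℝ := bb (4 / 15) (1 / 15) m

/-- √(30 n) -/
noncomputable def sq (n : ℕ) : ℝ := Real.sqrt (30 * n : ℕ)

theorem sq_ge_one (n : ℕ) (hn : 1 ≤ n) : 1 ≤ sq n := by
  unfold sq
  refine Real.one_le_sqrt.mpr ?_
  have : 1 ≤ 30 * n := by omega
  exact_mod_cast this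

theorem sq_sq (n : ℕ) : sq n ^ 2 = 30 * n := by
  unfold sq
  rw [Real.sq_sqrt (Nat.cast_nonneg _)]
  push_cast; ring

theorem SA_norm (n : ℕ) (hn : 1 ≤ n) (l : ℕ) (hl : l ≤ 225 * n) : ‖SA n l‖ ≤ 3800 * sq n := by
  have h := SS_norm_le (15 * n) (by omega) (9 / 28) (5 / 28) (by rw [abs_of_pos] <;> norm_num)
    (by rw [abs_of_pos] <;> norm_num) l 7 (by omega)
  have h2 : 2 * (15 * n) = 30 * n := by ring
  rw [h2] at h
  refine h.trans (le_of_eq ?_)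
  unfold sq
  norm_num

theorem sq28 (n : ℕ) : Real.sqrt (28 * n : ℕ) ≤ sq n := by
  unfold sq
  refine Real.sqrt_le_sqrt ?_
  have : 28 * n ≤ 30 * n := by omega
  exact_mod_cast this

theorem SB_norm (n : ℕ) (hn : 1 ≤ n) (l : ℕ) (hl : l ≤ 210 * n) : ‖SB n l‖ ≤ 3800 * sq n := by
  have h := SS_norm_le (14 * n) (by omega) (4 / 15) (1 / 15) (by rw [abs_of_pos] <;> norm_num)
    (by rw [abs_of_pos] <;> norm_num) l 7 (by omega)
  have h2 : 2 * (14 * n) = 28 * n := by ring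
  rw [h2] at h
  refine h.trans ?_
  have := sq28 n
  norm_num at *
  linarith

theorem SA_bv (n : ℕ) (hn : 1 ≤ n) (p q : ℕ) (hq : q ≤ 210 * n) : BV (SA n) p q (3800 * sq n) 4 := by
  refine ⟨fun i _ h => SA_norm n hn i (by omega), fun i _ _ => ?_⟩
  unfold SA
  rw [SS_succ, add_sub_cancel_left]
  exact UU_norm _ _ _ _

theorem SB_bv (n : ℕ) (hn : 1 ≤ n) (p q : ℕ) (hq : q ≤ 210 * n) : BV (SB n) p q (3800 * sq n) 4 := by
  refine ⟨fun i _ h => SB_norm n hn i (by omega), fun i _ _ => ?_⟩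
  unfold SB
  rw [SS_succ, add_sub_cancel_left]
  exact UU_norm _ _ _ _

/-- 1 / sin (π l / (420 n)) -/
noncomputable def tau (n l : ℕ) : ℝ := (Real.sin (Real.pi * l / (420 * n)))⁻¹

theorem sin_ge (n : ℕ) (hn : 1 ≤ n) (l : ℕ) (hl1 : l ≤ 210 * n) :
    (l : ℝ) / (210 * n) ≤ Real.sin (Real.pi * l / (420 * n)) := by
  have hn0 : (0 : ℝ) < n := by
    have : 0 < n := hn
    exact_mod_cast this
  have h1 := Real.mul_le_sin (x := Real.pi * l / (420 * n)) (by positivity) (by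
    rw [div_le_div_iff₀ (by positivity) (by norm_num)]
    have : (l : ℝ) ≤ 210 * n := by exact_mod_cast hl1
    nlinarith [Real.pi_pos])
  refine le_trans (le_of_eq ?_) h1
  have := Real.pi_ne_zero
  field_simp
  ring

theorem sin_ge' (n : ℕ) (hn : 1 ≤ n) (l : ℕ) (hl : n ≤ l) (hl1 : l ≤ 210 * n) :
    1 / 210 ≤ Real.sin (Real.pi * l / (420 * n)) := by
  refine le_trans ?_ (sin_ge n hn l hl1)
  have hn0 : (0 : ℝ) < n := by
    have : 0 < n := hn
    exact_mod_cast this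
  rw [div_le_div_iff₀ (by norm_num) (by positivity)]
  have : (n : ℝ) ≤ l := by exact_mod_cast hl
  linarith

theorem tau_abs (n : ℕ) (hn : 1 ≤ n) (l : ℕ) (hl : n ≤ l) (hl1 : l ≤ 210 * n) : |tau n l| ≤ 210 := by
  have h := sin_ge' n hn l hl hl1
  unfold tau
  rw [abs_inv, abs_of_pos (by linarith)]
  rw [inv_eq_one_div, div_le_iff₀ (by linarith)]
  linarith

theorem tau_lip (n : ℕ) (hn : 1 ≤ n) (l l' : ℕ) (hl : n ≤ l) (hl1 : l ≤ 210 * n) (hl' : n ≤ l')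
    (hl1' : l' ≤ 210 * n) : |tau n l - tau n l'| ≤ 420 * |(l : ℝ) - l'| / n := by
  have hn0 : (0 : ℝ) < n := by
    have : 0 < n := hn
    exact_mod_cast this
  have h := sin_ge' n hn l hl hl1
  have h' := sin_ge' n hn l' hl' hl1'
  unfold tau
  rw [inv_sub_inv (by linarith) (by linarith), abs_div, div_le_div_iff₀ (by positivity) hn0]
  have h2 : |Real.sin (Real.pi * l' / (420 * n)) - Real.sin (Real.pi * l / (420 * n))| ≤
      |Real.pi * l' / (420 * n) - Real.pi * l / (420 * n)| := Real.abs_sin_sub_sin_le _ _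
  have h3 : |Real.pi * l' / (420 * n) - Real.pi * l / (420 * n)| = Real.pi / (420 * n) * |(l : ℝ) - l'| := by
    rw [show Real.pi * (l' : ℝ) / (420 * n) - Real.pi * l / (420 * n) =
      -(Real.pi / (420 * n) * ((l : ℝ) - l')) by ring, abs_neg, abs_mul, abs_of_pos (by positivity)]
  rw [h3] at h2
  have h4 : (1 : ℝ) / 210 * (1 / 210) ≤
      |Real.sin (Real.pi * l / (420 * n)) * Real.sin (Real.pi * l' / (420 * n))| := by
    rw [abs_mul, abs_of_pos (by linarith), abs_of_pos (by linarith)]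
    exact mul_le_mul h h' (by norm_num) (by linarith)
  have hpi := Real.pi_le_four
  have h5 : 0 ≤ |(l : ℝ) - l'| := abs_nonneg _
  calc |Real.sin (Real.pi * l' / (420 * n)) - Real.sin (Real.pi * l / (420 * n))| * n ≤
        (Real.pi / (420 * n) * |(l : ℝ) - l'|) * n := by gcongr
    _ = Real.pi / 420 * |(l : ℝ) - l'| := by field_simp
    _ ≤ 4 / 420 * |(l : ℝ) - l'| := by gcongr
    _ = 420 * |(l : ℝ) - l'| * (1 / 210 * (1 / 210)) := by ring
    _ ≤ _ := by gcongr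

theorem tau_bv (n : ℕ) (hn : 1 ≤ n) (p q : ℕ) (hp : n ≤ p) (hq : q ≤ 210 * n) :
    BV (fun l => ((tau n l : ℝ) : ℂ)) p q 210 (420 / n) := by
  refine ⟨fun i h1 h2 => ?_, fun i h1 h2 => ?_⟩
  · show ‖((tau n i : ℝ) : ℂ)‖ ≤ 210
    rw [Complex.norm_real, Real.norm_eq_abs]
    exact tau_abs n hn i (by omega) (by omega)
  · show ‖((tau n (i + 1) : ℝ) : ℂ) - ((tau n i : ℝ) : ℂ)‖ ≤ 420 / n
    rw [← Complex.ofReal_sub, Complex.norm_real, Real.norm_eq_abs]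
    refine (tau_lip n hn (i + 1) i (by omega) (by omega) (by omega) (by omega)).trans (le_of_eq ?_)
    push_cast
    rw [add_sub_cancel_left, abs_one, mul_one]

/-- The weight SA² conj SB / sin. -/
noncomputable def YY (n l : ℕ) : ℂ := SA n l ^ 2 * (starRingEnd ℂ) (SB n l) * ((tau n l : ℝ) : ℂ)

/-- The summand. -/
noncomputable def ZZ (n l : ℕ) : ℂ := fM (30 * n) l * YY n l

theorem YY_bv (n : ℕ) (hn : 1 ≤ n) (p q : ℕ) (hpq : p ≤ q) (hp : n ≤ p) (hq : q ≤ 210 * n) :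
    BV (YY n) p q (10 ^ 14 * sq n ^ 3) (10 ^ 16 * sq n ^ 2) := by
  have hs := sq_ge_one n hn
  have hn0 : (0 : ℝ) < n := by
    have : 0 < n := hn
    exact_mod_cast this
  have hss := sq_sq n
  have h1 := SA_bv n hn p q hq
  have h2 := (SB_bv n hn p q hq).conj
  have h3 := tau_bv n hn p q hp hq
  have h4 := ((h1.mul hpq h1).mul hpq h2).mul hpq h3
  have h5 : (fun i => SA n i * SA n i * (starRingEnd ℂ) (SB n i) * ((tau n i : ℝ) : ℂ)) = YY n := by
    funext i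
    unfold YY
    rw [_root_.sq]
  rw [h5] at h4
  refine h4.mono ?_ ?_
  · have : 0 ≤ sq n ^ 3 := by positivity
    calc _ = (3800 * 3800 * 3800 * 210 : ℝ) * sq n ^ 3 := by ring
      _ ≤ _ := by gcongr; norm_num
  · have h6 : (420 : ℝ) / n = 12600 / sq n ^ 2 := by rw [hss]; field_simp; norm_num
    rw [h6]
    have h7 : 3800 * sq n * (3800 * sq n) * (3800 * sq n) * (12600 / sq n ^ 2) =
        (3800 * 3800 * 3800 * 12600 : ℝ) * sq n := by
      have : sq n ≠ 0 := by positivity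
      field_simp
    rw [h7]
    have h8 : (3800 * 3800 * 3800 * 12600 : ℝ) * sq n ≤ (3800 * 3800 * 3800 * 12600 : ℝ) * sq n ^ 2 := by
      have : sq n ≤ sq n ^ 2 := by nlinarith
      gcongr
    calc _ = (((4 * 3800 + 3800 * 4) * 3800 + 3800 * 3800 * 4) * 210 : ℝ) * sq n ^ 2 +
          (3800 * 3800 * 3800 * 12600 : ℝ) * sq n := by ring
      _ ≤ (((4 * 3800 + 3800 * 4) * 3800 + 3800 * 3800 * 4) * 210 : ℝ) * sq n ^ 2 +
          (3800 * 3800 * 3800 * 12600 : ℝ) * sq n ^ 2 := by linarith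
      _ = ((((4 * 3800 + 3800 * 4) * 3800 + 3800 * 3800 * 4) * 210 : ℝ) +
          (3800 * 3800 * 3800 * 12600 : ℝ)) * sq n ^ 2 := by ring
      _ ≤ _ := by gcongr; norm_num

theorem ZZ_norm (n : ℕ) (hn : 1 ≤ n) (l : ℕ) (h1 : n ≤ l) (h2 : l ≤ 210 * n) :
    ‖ZZ n l‖ ≤ 10 ^ 14 * sq n ^ 3 := by
  unfold ZZ
  rw [norm_mul, fM_norm, one_mul]
  exact (YY_bv n hn l l le_rfl h1 h2).1 l le_rfl le_rfl

/-- The ratio in the range away from the resonances. -/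
theorem ratio_ge (n : ℕ) (hn : 1 ≤ n) (m l : ℕ) (h1 : 30 * n * m + n ≤ l) (h2 : l ≤ 30 * n * m + 29 * n) :
    1 / 15 ≤ ‖E ((2 * (l : ℝ) + 1) / (30 * n : ℕ)) - 1‖ := by
  have hn0 : (1 : ℝ) ≤ n := by exact_mod_cast hn
  obtain ⟨y, rfl⟩ : ∃ y, l = 30 * n * m + y := ⟨l - 30 * n * m, by omega⟩
  have e1 : (2 * ((30 * n * m + y : ℕ) : ℝ) + 1) / (30 * n : ℕ) =
      (2 * (y : ℝ) + 1) / (30 * n : ℕ) + ((2 * m : ℤ) : ℝ) := by
    push_cast
    field_simp
    ring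
  rw [e1, E_add, E_even _ (even_two_mul _), mul_one]
  have hy1 : (n : ℝ) ≤ y := by
    have : n ≤ y := by omega
    exact_mod_cast this
  have hy2 : (y : ℝ) ≤ 29 * n := by
    have : y ≤ 29 * n := by omega
    exact_mod_cast this
  have h3 : (1 : ℝ) / 15 ≤ (2 * (y : ℝ) + 1) / (30 * n : ℕ) := by
    push_cast
    rw [div_le_div_iff₀ (by norm_num) (by positivity)]
    linarith
  have h4 : (2 * (y : ℝ) + 1) / (30 * n : ℕ) ≤ 2 - 1 / 30 := by
    push_cast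
    rw [div_le_iff₀ (by positivity)]
    linarith
  have h5 := norm_E_sub_one_ge' (x := (2 * (y : ℝ) + 1) / (30 * n : ℕ)) (by linarith) (by linarith)
  have h6 : (1 : ℝ) / 30 ≤ min ((2 * (y : ℝ) + 1) / (30 * n : ℕ)) (2 - (2 * (y : ℝ) + 1) / (30 * n : ℕ)) :=
    le_min (by linarith) (by linarith)
  linarith

/-- The contribution of the range away from the resonances is O (n²). -/
theorem far_le (n : ℕ) (hn : 1 ≤ n) (m : ℕ) (hm : m ≤ 6) :
    ‖∑ l ∈ Ico (30 * n * m + n + 1) (30 * n * m + 29 * n), ZZ n l‖ ≤ 10 ^ 19 * sq n ^ 4 := by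
  have hs := sq_ge_one n hn
  have hss := sq_sq n
  have hn0 : (0 : ℝ) < n := by
    have : 0 < n := hn
    exact_mod_cast this
  have hmn : 30 * n * m ≤ 180 * n := by nlinarith
  set p := 30 * n * m + n + 1 with hp
  set q := 30 * n * m + 29 * n with hq
  have hpq : p ≤ q := by omega
  have hv : BV (fun l => vv ((2 * (l : ℝ) + 1) / (30 * n : ℕ))) p q 15 (1800 / sq n ^ 2) := by
    refine ⟨fun i h1 h2 => ?_, fun i h1 h2 => ?_⟩
    · show ‖vv ((2 * (i : ℝ) + 1) / (30 * n : ℕ))‖ ≤ 15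
      have h3 := ratio_ge n hn m i (by omega) (by omega)
      unfold vv
      rw [norm_inv, inv_eq_one_div, div_le_iff₀ (by linarith)]
      linarith
    · show ‖vv ((2 * ((i + 1 : ℕ) : ℝ) + 1) / (30 * n : ℕ)) - vv ((2 * (i : ℝ) + 1) / (30 * n : ℕ))‖ ≤ _
      have h3 := ratio_ge n hn m i (by omega) (by omega)
      have h4 := ratio_ge n hn m (i + 1) (by omega) (by omega)
      have h5 : E ((2 * (i : ℝ) + 1) / (30 * n : ℕ)) - 1 ≠ 0 := norm_pos_iff.mp (by linarith)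
      have h6 : E ((2 * ((i + 1 : ℕ) : ℝ) + 1) / (30 * n : ℕ)) - 1 ≠ 0 := norm_pos_iff.mp (by linarith)
      unfold vv
      rw [inv_sub_inv h6 h5, norm_div, norm_mul, sub_sub_sub_cancel_right,
        div_le_div_iff₀ (by positivity) (by positivity)]
      have h7 := norm_E_sub_E_le ((2 * (i : ℝ) + 1) / (30 * n : ℕ)) ((2 * ((i + 1 : ℕ) : ℝ) + 1) / (30 * n : ℕ))
      rw [abs_sub_comm, xx_sub (30 * n) i, abs_of_pos (by positivity)] at h7
      have h8 : (2 : ℝ) / (30 * n : ℕ) = 2 / sq n ^ 2 := by rw [hss]; push_cast; rfl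
      rw [h8] at h7
      have h9 : (1 : ℝ) / 15 * (1 / 15) ≤ ‖E ((2 * ((i + 1 : ℕ) : ℝ) + 1) / (30 * n : ℕ)) - 1‖ *
          ‖E ((2 * (i : ℝ) + 1) / (30 * n : ℕ)) - 1‖ := mul_le_mul h4 h3 (by norm_num) (by linarith)
      calc _ ≤ (Real.pi * (2 / sq n ^ 2)) * sq n ^ 2 := by gcongr
        _ = Real.pi * 2 := by field_simp
        _ ≤ 1800 * (1 / 15 * (1 / 15)) := by linarith [Real.pi_le_four]
        _ ≤ _ := by gcongr
  have hY := YY_bv n hn p q hpq (by omega) (by omega)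
  have hX := hv.mul hpq hY
  have hs1 : ∑ l ∈ Ico p q, ZZ n l =
      ∑ l ∈ Ico p q, (vv ((2 * (l : ℝ) + 1) / (30 * n : ℕ)) * YY n l) * (fM (30 * n) (l + 1) - fM (30 * n) l) := by
    refine Finset.sum_congr rfl fun l hl => ?_
    rw [mem_Ico] at hl
    have h3 := ratio_ge n hn m l (by omega) (by omega)
    have h5 : E ((2 * (l : ℝ) + 1) / (30 * n : ℕ)) - 1 ≠ 0 := norm_pos_iff.mp (by linarith)
    have h6 : vv ((2 * (l : ℝ) + 1) / (30 * n : ℕ)) * (E ((2 * (l : ℝ) + 1) / (30 * n : ℕ)) - 1) = 1 :=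
      inv_mul_cancel₀ h5
    unfold ZZ
    rw [fM_succ]
    linear_combination (-(fM (30 * n) l * YY n l)) * h6
  rw [hs1]
  refine (sum_parts_norm _ _ (fun i => (fM_norm _ i).le) p q hpq).trans ?_
  have e1 := hX.1 q hpq le_rfl
  have e2 := hX.1 p le_rfl hpq
  have e3 : ∑ i ∈ Ico p q, ‖vv ((2 * ((i + 1 : ℕ) : ℝ) + 1) / (30 * n : ℕ)) * YY n (i + 1) -
      vv ((2 * (i : ℝ) + 1) / (30 * n : ℕ)) * YY n i‖ ≤
        sq n ^ 2 * (1800 / sq n ^ 2 * (10 ^ 14 * sq n ^ 3) + 15 * (10 ^ 16 * sq n ^ 2)) := by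
    calc _ ≤ ∑ i ∈ Ico p q, (1800 / sq n ^ 2 * (10 ^ 14 * sq n ^ 3) + 15 * (10 ^ 16 * sq n ^ 2)) := by
          refine Finset.sum_le_sum fun i hi => ?_
          rw [mem_Ico] at hi
          exact hX.2 i hi.1 hi.2
      _ = ((q - p : ℕ) : ℝ) * (1800 / sq n ^ 2 * (10 ^ 14 * sq n ^ 3) + 15 * (10 ^ 16 * sq n ^ 2)) := by
          rw [Finset.sum_const, Nat.card_Ico, nsmul_eq_mul]
      _ ≤ _ := by
          refine mul_le_mul_of_nonneg_right ?_ (by positivity)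
          rw [hss]
          have : q - p ≤ 30 * n := by omega
          exact_mod_cast this
  have e4 : sq n ^ 2 * (1800 / sq n ^ 2 * (10 ^ 14 * sq n ^ 3) + 15 * (10 ^ 16 * sq n ^ 2)) =
      1800 * 10 ^ 14 * sq n ^ 3 + 15 * 10 ^ 16 * sq n ^ 4 := by
    have : sq n ≠ 0 := by positivity
    field_simp
  rw [e4] at e3
  have e5 : sq n ^ 3 ≤ sq n ^ 4 := pow_le_pow_right₀ hs (by norm_num)
  have e6 : 0 ≤ sq n ^ 3 := by positivity
  have e1' : ‖vv ((2 * (q : ℝ) + 1) / (30 * n : ℕ)) * YY n q‖ ≤ 15 * (10 ^ 14 * sq n ^ 3) := e1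
  have e2' : ‖vv ((2 * (p : ℝ) + 1) / (30 * n : ℕ)) * YY n p‖ ≤ 15 * (10 ^ 14 * sq n ^ 3) := e2
  calc _ ≤ 15 * (10 ^ 14 * sq n ^ 3) + 15 * (10 ^ 14 * sq n ^ 3) +
        (1800 * 10 ^ 14 * sq n ^ 3 + 15 * 10 ^ 16 * sq n ^ 4) := add_le_add (add_le_add e1' e2') e3
    _ ≤ _ := by linarith

end Pool.Agent.L0h28.Aec
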