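import Mathlib
import Pool.Agent.L0h28.Aec.Exact
import Pool.Agent.L0h28.Aec.Window

/-!
# The sum over a node of valence three
-/

set_option autoImplicit false

open Finset H524R3

namespace Pool.Agent.L0h28.Aec

theorem sum_multiples (g : ℕ → ℂ) (p q : ℕ) (hp : 0 < p) :
    ∑ k ∈ range (p * q), (if p ∣ k then g k else 0) = ∑ m ∈ range q, g (p * m) := by
  induction q with
  | zero => simp
  | succ q ih =>
    rw [Nat.mul_succ, Finset.sum_range_add, ih, Finset.sum_range_succ]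
    congr 1
    rw [Finset.sum_eq_single 0]
    · simp
    · intro b hb hb0
      rw [mem_range] at hb
      rw [if_neg]
      intro h
      have h2 : p ∣ b := (Nat.dvd_add_right (Dvd.intro _ rfl)).mp h
      exact absurd (Nat.le_of_dvd (by omega) h2) (by omega)
    · intro h
      simp only [mem_range, not_lt] at h
      omega

theorem sum_periods (f : ℕ → ℂ) (N c : ℕ) (hf : ∀ x, f (x + N) = f x) :
    ∑ k ∈ range (c * N), f k = c * ∑ k ∈ range N, f k := by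
  have hf' : ∀ (d x : ℕ), f (d * N + x) = f x := by
    intro d
    induction d with
    | zero => intro x; simp
    | succ d ih =>
      intro x
      rw [← ih x, ← hf (d * N + x)]
      congr 1
      ring
  induction c with
  | zero => simp
  | succ c ih =>
    rw [Nat.succ_mul, Finset.sum_range_add, ih]
    have : ∑ x ∈ range N, f (c * N + x) = ∑ x ∈ range N, f x :=
      Finset.sum_congr rfl fun x _ => hf' c x
    rw [this]
    push_cast
    ring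

/-- The absolute value of the Gauss sums. -/
theorem GG_norm_sq (p c t : ℕ) (ε : ℤ) (hε : ε = 1 ∨ ε = -1) (hp : 0 < p) (hc : 0 < c) (ht : 0 < t)
    (hco : Nat.Coprime p c) : ‖GG (p * c * t) p (ε * c)‖ ^ 2 = (c : ℝ) ^ 2 * (2 * t) := by
  have hp' : (p : ℝ) ≠ 0 := by exact_mod_cast hp.ne'
  have hc' : (c : ℝ) ≠ 0 := by exact_mod_cast hc.ne'
  have ht' : (t : ℝ) ≠ 0 := by exact_mod_cast ht.ne'
  have h1 : GG (p * c * t) p (ε * c) = c * ∑ m ∈ range (2 * t), E ((ε : ℝ) * (m : ℝ) ^ 2 / (2 * t)) := by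
    have h2 : GG (p * c * t) p (ε * c) =
        ∑ k ∈ range (p * (c * (2 * t))), (if p ∣ k then E (((ε : ℝ) * c) * (k : ℝ) ^ 2 / (2 * (p * c * t) * p)) else 0) := by
      unfold GG
      rw [show 2 * (p * c * t) = p * (c * (2 * t)) by ring]
      refine Finset.sum_congr rfl fun k _ => ?_
      unfold TT
      have hd : (p : ℤ) ∣ ε * c * k - 0 ↔ p ∣ k := by
        rw [sub_zero]
        have hcz : IsCoprime (p : ℤ) (c : ℤ) := Nat.isCoprime_iff_coprime.mpr hco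
        have e1 : (p : ℤ) ∣ ε * c * k ↔ (p : ℤ) ∣ c * k := by
          rcases hε with rfl | rfl
          · rw [one_mul]
          · rw [show (-1 : ℤ) * c * k = -(c * k) by ring, dvd_neg]
        rw [e1]
        constructor
        · intro h
          exact_mod_cast (hcz.dvd_of_dvd_mul_left h)
        · intro h
          exact Dvd.dvd.mul_left (by exact_mod_cast h) _
      by_cases h : p ∣ k
      · rw [if_pos h, if_pos (hd.mpr h)]
        congr 1
        push_cast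
        ring
      · rw [if_neg h, if_neg (fun h' => h (hd.mp h'))]
    rw [h2, sum_multiples (fun k : ℕ => E (((ε : ℝ) * c) * (k : ℝ) ^ 2 / (2 * (p * c * t) * p))) p _ hp]
    have h3 : ∀ m : ℕ, E (((ε : ℝ) * c) * ((p * m : ℕ) : ℝ) ^ 2 / (2 * (p * c * t) * p)) =
        E ((ε : ℝ) * (m : ℝ) ^ 2 / (2 * t)) := by
      intro m
      congr 1
      push_cast
      field_simp
    rw [Finset.sum_congr rfl fun m _ => h3 m]
    refine sum_periods (fun m : ℕ => E ((ε : ℝ) * (m : ℝ) ^ 2 / (2 * t))) (2 * t) c fun x => ?_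
    have h4 : (ε : ℝ) * ((x + 2 * t : ℕ) : ℝ) ^ 2 / (2 * t) = (ε : ℝ) * (x : ℝ) ^ 2 / (2 * t) +
        ((2 * (ε * (x + t)) : ℤ) : ℝ) := by
      push_cast; field_simp; ring
    rw [h4, E_add, E_even _ (even_two_mul _), mul_one]
  have h5 : ‖∑ m ∈ range (2 * t), E ((ε : ℝ) * (m : ℝ) ^ 2 / (2 * t))‖ ^ 2 = 2 * t := by
    have hg := gs_norm_sq (2 * t) 0 (by omega) ⟨t, by push_cast; ring⟩
    have h6 : gs (2 * t) 0 = ∑ m ∈ range (2 * t), E ((m : ℝ) ^ 2 / (2 * t)) := by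
      unfold gs
      refine Finset.sum_congr rfl fun m _ => ?_
      congr 1
      push_cast
      ring
    rw [h6] at hg
    rcases hε with rfl | rfl
    · have h7 : ∑ m ∈ range (2 * t), E (((1 : ℤ) : ℝ) * (m : ℝ) ^ 2 / (2 * t)) =
          ∑ m ∈ range (2 * t), E ((m : ℝ) ^ 2 / (2 * t)) := by
        refine Finset.sum_congr rfl fun m _ => ?_
        congr 1
        push_cast
        ring
      rw [h7, hg]
      push_cast; ring
    · have h7 : ∑ m ∈ range (2 * t), E (((-1 : ℤ) : ℝ) * (m : ℝ) ^ 2 / (2 * t)) =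
          (starRingEnd ℂ) (∑ m ∈ range (2 * t), E ((m : ℝ) ^ 2 / (2 * t))) := by
        rw [map_sum]
        refine Finset.sum_congr rfl fun m _ => ?_
        rw [E_conj]
        congr 1
        push_cast
        ring
      rw [h7, RCLike.norm_conj, hg]
      push_cast; ring
  rw [h1, norm_mul, mul_pow, h5, Complex.norm_natCast]

/-- The sum over the colours of a node. -/
noncomputable def nd (r : ℕ) (p s q s' : ℤ) (v : ℕ) : ℂ :=
  ∑ l ∈ Icc 1 (r - 1), FF r p s l * FF r q s' l *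
    ((Real.sin (Real.pi * (v * l / r)) / Real.sin (Real.pi * (l / r)) : ℝ) : ℂ)

/-- The Dirichlet kernel. -/
noncomputable def Dk (r v : ℕ) (l : ℤ) : ℂ := ∑ j ∈ range v, E ((2 * (j : ℝ) - v + 1) * l / r)

theorem Dk_neg (r v : ℕ) (l : ℤ) : Dk r v (-l) = Dk r v l := by
  unfold Dk
  rw [← Finset.sum_range_reflect (fun j : ℕ => E ((2 * (j : ℝ) - v + 1) * l / r))]
  refine Finset.sum_congr rfl fun j hj => ?_
  rw [mem_range] at hj
  congr 1
  have : ((v - 1 - j : ℕ) : ℝ) = v - 1 - j := by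
    have h : (v - 1 - j) + (j + 1) = v := by omega
    have h' : ((v - 1 - j : ℕ) : ℝ) + (j + 1) = v := by exact_mod_cast h
    linarith
  rw [this]
  push_cast
  ring

theorem Dk_period (r v : ℕ) (hr : 0 < r) (l : ℤ) : Dk r v (l + (2 * r : ℕ)) = Dk r v l := by
  have hr' : (r : ℝ) ≠ 0 := by exact_mod_cast hr.ne'
  unfold Dk
  refine Finset.sum_congr rfl fun j _ => ?_
  have h : (2 * (j : ℝ) - v + 1) * ((l + (2 * r : ℕ) : ℤ) : ℝ) / r =
      (2 * (j : ℝ) - v + 1) * l / r + ((2 * (2 * j - v + 1) : ℤ) : ℝ) := by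
    push_cast; field_simp
  rw [h, E_add, E_even _ (even_two_mul _), mul_one]

theorem Dk_eq (r v : ℕ) (hr : 0 < r) (l : ℕ) (hl : 1 ≤ l) (hlr : l < r) :
    ((Real.sin (Real.pi * (v * l / r)) / Real.sin (Real.pi * (l / r)) : ℝ) : ℂ) = Dk r v l := by
  have hr' : (0 : ℝ) < r := by exact_mod_cast hr
  have hsin : 0 < Real.sin (Real.pi * (l / r)) := by
    have h1 : (0 : ℝ) < l := by
      have : 0 < l := hl
      exact_mod_cast this
    have h2 : (l : ℝ) / r < 1 := by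
      rw [div_lt_one hr']; exact_mod_cast hlr
    refine Real.sin_pos_of_pos_of_lt_pi (by positivity) ?_
    nlinarith [Real.pi_pos]
  have hsc : ((Real.sin (Real.pi * (l / r)) : ℝ) : ℂ) ≠ 0 := by exact_mod_cast hsin.ne'
  rw [Complex.ofReal_div, div_eq_iff hsc]
  have h1 := E_sub_neg ((l : ℝ) / r)
  have h2 := E_sub_neg ((v : ℝ) * l / r)
  have h3 : Dk r v l * (E ((l : ℝ) / r) - E (-((l : ℝ) / r))) =
      E ((v : ℝ) * l / r) - E (-((v : ℝ) * l / r)) := by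
    unfold Dk
    rw [Finset.sum_mul]
    have h4 : ∀ j : ℕ, E ((2 * (j : ℝ) - v + 1) * ((l : ℤ) : ℝ) / r) * (E ((l : ℝ) / r) - E (-((l : ℝ) / r))) =
        (fun i : ℕ => E ((2 * (i : ℝ) - v) * l / r)) (j + 1) - (fun i : ℕ => E ((2 * (i : ℝ) - v) * l / r)) j := by
      intro j
      show _ = E ((2 * ((j + 1 : ℕ) : ℝ) - v) * l / r) - E ((2 * (j : ℝ) - v) * l / r)
      rw [mul_sub, ← E_add, ← E_add]
      congr 2
      · push_cast; ring
      · push_cast; ring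
    rw [Finset.sum_congr rfl fun j _ => h4 j]
    refine (Finset.sum_range_sub (fun i : ℕ => E ((2 * (i : ℝ) - v) * l / r)) v).trans ?_
    show E ((2 * (v : ℝ) - v) * l / r) - E ((2 * ((0 : ℕ) : ℝ) - v) * l / r) = _
    congr 2
    · ring
    · push_cast; ring
  rw [h1, h2] at h3
  have h4 : (2 * Complex.I) ≠ 0 := mul_ne_zero two_ne_zero Complex.I_ne_zero
  apply mul_left_cancel₀ h4
  rw [← h3]; ring

/-- The phase exp (-π i e² / (2 r c k)). -/
noncomputable def QQ (r : ℕ) (c k : ℤ) (e : ℝ) : ℂ := E (-(e ^ 2) / (2 * r * c * k))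

/-- The four phases. -/
noncomputable def G4 (r : ℕ) (p q k : ℤ) (x : ℝ) : ℂ :=
  QQ r (p * q) k ((q + p) - p * q * x) - QQ r (p * q) k ((q - p) - p * q * x) -
    QQ r (p * q) k ((-q + p) - p * q * x) + QQ r (p * q) k ((-q - p) - p * q * x)

theorem G4_neg (r : ℕ) (p q k : ℤ) (x : ℝ) : G4 r p q k (-x) = G4 r p q k x := by
  have hQ : ∀ e : ℝ, QQ r (p * q) k (-e) = QQ r (p * q) k e := by
    intro e; unfold QQ; rw [neg_sq]
  unfold G4
  rw [← hQ ((q + p) - p * q * -x), ← hQ ((q - p) - p * q * -x), ← hQ ((-q + p) - p * q * -x),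
    ← hQ ((-q - p) - p * q * -x)]
  rw [show -(((q : ℝ) + p) - p * q * -x) = (-q - p) - p * q * x by ring,
    show -(((q : ℝ) - p) - p * q * -x) = (-q + p) - p * q * x by ring,
    show -((-(q : ℝ) + p) - p * q * -x) = (q - p) - p * q * x by ring,
    show -((-(q : ℝ) - p) - p * q * -x) = (q + p) - p * q * x by ring]
  ring

theorem nd_eq (r : ℕ) (hr : 0 < r) (p s q s' k : ℤ) (hp : p ≠ 0) (hq : q ≠ 0) (hpq : IsCoprime p q)
    (hk : s * q + s' * p = k) (hk1 : k = 1 ∨ k = -1) (hpr : p ∣ r) (hqr : q ∣ r) (hcr : p * q ∣ r)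
    (v : ℕ) :
    nd r p s q s' v = (1 / 2) * GG r (p * q) k * ∑ j ∈ range v, G4 r p q k (2 * j - v + 1) := by
  have hk0 : k ≠ 0 := by rcases hk1 with h | h <;> rw [h] <;> norm_num
  have hco : IsCoprime (p * q) k := by
    rcases hk1 with h | h
    · rw [h]; exact isCoprime_one_right
    · rw [h]; exact (isCoprime_one_right).neg_right
  have hdvd : ∀ e : ℤ, k ∣ e := by
    intro e
    rcases hk1 with h | h
    · rw [h]; exact one_dvd _
    · rw [h, neg_dvd]; exact one_dvd _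
  have hcr' : p * q * k ∣ r := by
    rcases hk1 with h | h
    · rw [h, mul_one]; exact hcr
    · rw [h, mul_neg_one, neg_dvd]; exact hcr
  have hfold := fold_sum r (fun l => FF r p s l * FF r q s' l * Dk r v l) (by
      intro x
      show FF r p s (x + (2 * r : ℕ)) * FF r q s' (x + (2 * r : ℕ)) * Dk r v (x + (2 * r : ℕ)) = _
      rw [FF_period r hr p s x hp hpr, FF_period r hr q s' x hq hqr, Dk_period r v hr])
    (by show FF r p s 0 * FF r q s' 0 * Dk r v 0 = 0; rw [FF_zero, zero_mul, zero_mul])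
    (by show FF r p s r * FF r q s' r * Dk r v r = 0; rw [FF_r r hr p s hp hpr, zero_mul, zero_mul])
  have h1 : ∑ l ∈ Icc 1 (r - 1), (FF r p s (l : ℤ) * FF r q s' (l : ℤ) * Dk r v (l : ℤ) +
      FF r p s (-(l : ℤ)) * FF r q s' (-(l : ℤ)) * Dk r v (-(l : ℤ))) = 2 * nd r p s q s' v := by
    unfold nd
    rw [Finset.mul_sum]
    refine Finset.sum_congr rfl fun l hl => ?_
    rw [mem_Icc] at hl
    rw [Dk_eq r v hr l hl.1 (by omega), FF_odd, FF_odd, Dk_neg]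
    ring
  have h2 : ∑ l ∈ range (2 * r), FF r p s (l : ℤ) * FF r q s' (l : ℤ) * Dk r v (l : ℤ) =
      GG r (p * q) k * ∑ j ∈ range v, G4 r p q k (2 * j - v + 1) := by
    have h3 : ∀ l : ℤ, FF r p s l * FF r q s' l * Dk r v l = ∑ j ∈ range v,
        (TT r (p * q) k ((q + p) - p * q * (2 * j - v + 1)) l - TT r (p * q) k ((q - p) - p * q * (2 * j - v + 1)) l -
          TT r (p * q) k ((-q + p) - p * q * (2 * j - v + 1)) l +
            TT r (p * q) k ((-q - p) - p * q * (2 * j - v + 1)) l) := by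
      intro l
      unfold Dk
      rw [Finset.mul_sum]
      refine Finset.sum_congr rfl fun j _ => ?_
      have hpq0 : p * q ≠ 0 := mul_ne_zero hp hq
      have e0 : (2 * (j : ℝ) - v + 1) = ((2 * j - v + 1 : ℤ) : ℝ) := by push_cast; ring
      rw [e0, ← TT_char r hr (p * q) k (q + p) l _ hpq0, ← TT_char r hr (p * q) k (q - p) l _ hpq0,
        ← TT_char r hr (p * q) k (-q + p) l _ hpq0, ← TT_char r hr (p * q) k (-q - p) l _ hpq0]
      have m1 := TT_mul r hr p q s s' 1 1 l hp hq hpq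
      have m2 := TT_mul r hr p q s s' 1 (-1) l hp hq hpq
      have m3 := TT_mul r hr p q s s' (-1) 1 l hp hq hpq
      have m4 := TT_mul r hr p q s s' (-1) (-1) l hp hq hpq
      rw [hk] at m1 m2 m3 m4
      rw [show (1 : ℤ) * q + 1 * p = q + p by ring] at m1
      rw [show (1 : ℤ) * q + (-1) * p = q - p by ring] at m2
      rw [show (-1 : ℤ) * q + 1 * p = -q + p by ring] at m3
      rw [show (-1 : ℤ) * q + (-1) * p = -q - p by ring] at m4
      rw [← m1, ← m2, ← m3, ← m4]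
      unfold FF
      ring
    rw [Finset.sum_congr rfl fun (l : ℕ) _ => h3 (l : ℤ), Finset.sum_comm, Finset.mul_sum]
    refine Finset.sum_congr rfl fun j _ => ?_
    rw [Finset.sum_add_distrib, Finset.sum_sub_distrib, Finset.sum_sub_distrib]
    have hpq0 : p * q ≠ 0 := mul_ne_zero hp hq
    rw [TT_sum r hr _ _ _ hpq0 hk0 hco hcr', TT_sum r hr _ _ _ hpq0 hk0 hco hcr',
      TT_sum r hr _ _ _ hpq0 hk0 hco hcr', TT_sum r hr _ _ _ hpq0 hk0 hco hcr',
      if_pos (hdvd _), if_pos (hdvd _), if_pos (hdvd _), if_pos (hdvd _)]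
    unfold G4 QQ
    push_cast
    ring
  have h4 : 2 * nd r p s q s' v = GG r (p * q) k * ∑ j ∈ range v, G4 r p q k (2 * j - v + 1) := by
    rw [← h1, ← h2]
    exact hfold.symm
  linear_combination (1 / 2) * h4

/-- Even colours. -/
theorem nd_even (r : ℕ) (hr : 0 < r) (p s q s' k : ℤ) (hp : p ≠ 0) (hq : q ≠ 0) (hpq : IsCoprime p q)
    (hk : s * q + s' * p = k) (hk1 : k = 1 ∨ k = -1) (hpr : p ∣ r) (hqr : q ∣ r) (hcr : p * q ∣ r)
    (l : ℕ) :
    nd r p s q s' (2 * l) = GG r (p * q) k * ∑ i ∈ range l, G4 r p q k (2 * i + 1) := by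
  rw [nd_eq r hr p s q s' k hp hq hpq hk hk1 hpr hqr hcr (2 * l)]
  have h : ∑ j ∈ range (2 * l), G4 r p q k (2 * j - (2 * l : ℕ) + 1) =
      2 * ∑ i ∈ range l, G4 r p q k (2 * i + 1) := by
    rw [two_mul l, Finset.sum_range_add]
    have e1 : ∑ j ∈ range l, G4 r p q k (2 * (j : ℝ) - (l + l : ℕ) + 1) = ∑ i ∈ range l, G4 r p q k (2 * i + 1) := by
      rw [← Finset.sum_range_reflect (fun j : ℕ => G4 r p q k (2 * (j : ℝ) - (l + l : ℕ) + 1))]
      refine Finset.sum_congr rfl fun i hi => ?_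
      rw [mem_range] at hi
      rw [← G4_neg]
      congr 1
      have : ((l - 1 - i : ℕ) : ℝ) = l - 1 - i := by
        have h : (l - 1 - i) + (i + 1) = l := by omega
        have h' : ((l - 1 - i : ℕ) : ℝ) + (i + 1) = l := by exact_mod_cast h
        linarith
      rw [this]
      push_cast
      ring
    have e2 : ∑ j ∈ range l, G4 r p q k (2 * ((l + j : ℕ) : ℝ) - (l + l : ℕ) + 1) =
        ∑ i ∈ range l, G4 r p q k (2 * i + 1) := by
      refine Finset.sum_congr rfl fun i _ => ?_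
      congr 1
      push_cast
      ring
    rw [e1, e2]; ring
  rw [h]; ring

theorem G4_A (n : ℕ) (hn : 0 < n) (i : ℕ) :
    G4 (840 * n) 2 7 1 (2 * i + 1) = UU (30 * n) (9 / 28) (5 / 28) (i + 1 / 2) := by
  have hn0 : (n : ℝ) ≠ 0 := by exact_mod_cast hn.ne'
  unfold G4 UU QQ eM
  have e1 : -((((7 : ℤ) : ℝ) + ((2 : ℤ) : ℝ) - ((2 : ℤ) : ℝ) * ((7 : ℤ) : ℝ) * (2 * (i : ℝ) + 1)) ^ 2) /
      (2 * ((840 * n : ℕ) : ℝ) * ((2 * 7 : ℤ) : ℝ) * ((1 : ℤ) : ℝ)) =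
      -(((i : ℝ) + 1 / 2 - 9 / 28) ^ 2) / ((30 * n : ℕ) : ℝ) := by
    push_cast; field_simp; ring
  have e2 : -((((7 : ℤ) : ℝ) - ((2 : ℤ) : ℝ) - ((2 : ℤ) : ℝ) * ((7 : ℤ) : ℝ) * (2 * (i : ℝ) + 1)) ^ 2) /
      (2 * ((840 * n : ℕ) : ℝ) * ((2 * 7 : ℤ) : ℝ) * ((1 : ℤ) : ℝ)) =
      -(((i : ℝ) + 1 / 2 - 5 / 28) ^ 2) / ((30 * n : ℕ) : ℝ) := by
    push_cast; field_simp; ring
  have e3 : -((-((7 : ℤ) : ℝ) + ((2 : ℤ) : ℝ) - ((2 : ℤ) : ℝ) * ((7 : ℤ) : ℝ) * (2 * (i : ℝ) + 1)) ^ 2) /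
      (2 * ((840 * n : ℕ) : ℝ) * ((2 * 7 : ℤ) : ℝ) * ((1 : ℤ) : ℝ)) =
      -(((i : ℝ) + 1 / 2 + 5 / 28) ^ 2) / ((30 * n : ℕ) : ℝ) := by
    push_cast; field_simp; ring
  have e4 : -((-((7 : ℤ) : ℝ) - ((2 : ℤ) : ℝ) - ((2 : ℤ) : ℝ) * ((7 : ℤ) : ℝ) * (2 * (i : ℝ) + 1)) ^ 2) /
      (2 * ((840 * n : ℕ) : ℝ) * ((2 * 7 : ℤ) : ℝ) * ((1 : ℤ) : ℝ)) =
      -(((i : ℝ) + 1 / 2 + 9 / 28) ^ 2) / ((30 * n : ℕ) : ℝ) := by
    push_cast; field_simp; ring
  rw [e1, e2, e3, e4]; ring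

theorem G4_B (n : ℕ) (hn : 0 < n) (i : ℕ) :
    G4 (840 * n) 3 5 (-1) (2 * i + 1) = (starRingEnd ℂ) (UU (28 * n) (4 / 15) (1 / 15) (i + 1 / 2)) := by
  have hn0 : (n : ℝ) ≠ 0 := by exact_mod_cast hn.ne'
  unfold G4 UU QQ eM
  rw [map_sub, map_sub, map_add, E_conj, E_conj, E_conj, E_conj]
  have e1 : -((((5 : ℤ) : ℝ) + ((3 : ℤ) : ℝ) - ((3 : ℤ) : ℝ) * ((5 : ℤ) : ℝ) * (2 * (i : ℝ) + 1)) ^ 2) /
      (2 * ((840 * n : ℕ) : ℝ) * ((3 * 5 : ℤ) : ℝ) * ((-1 : ℤ) : ℝ)) =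
      -(-(((i : ℝ) + 1 / 2 - 4 / 15) ^ 2) / ((28 * n : ℕ) : ℝ)) := by
    push_cast; field_simp; ring
  have e2 : -((((5 : ℤ) : ℝ) - ((3 : ℤ) : ℝ) - ((3 : ℤ) : ℝ) * ((5 : ℤ) : ℝ) * (2 * (i : ℝ) + 1)) ^ 2) /
      (2 * ((840 * n : ℕ) : ℝ) * ((3 * 5 : ℤ) : ℝ) * ((-1 : ℤ) : ℝ)) =
      -(-(((i : ℝ) + 1 / 2 - 1 / 15) ^ 2) / ((28 * n : ℕ) : ℝ)) := by
    push_cast; field_simp; ring
  have e3 : -((-((5 : ℤ) : ℝ) + ((3 : ℤ) : ℝ) - ((3 : ℤ) : ℝ) * ((5 : ℤ) : ℝ) * (2 * (i : ℝ) + 1)) ^ 2) /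
      (2 * ((840 * n : ℕ) : ℝ) * ((3 * 5 : ℤ) : ℝ) * ((-1 : ℤ) : ℝ)) =
      -(-(((i : ℝ) + 1 / 2 + 1 / 15) ^ 2) / ((28 * n : ℕ) : ℝ)) := by
    push_cast; field_simp; ring
  have e4 : -((-((5 : ℤ) : ℝ) - ((3 : ℤ) : ℝ) - ((3 : ℤ) : ℝ) * ((5 : ℤ) : ℝ) * (2 * (i : ℝ) + 1)) ^ 2) /
      (2 * ((840 * n : ℕ) : ℝ) * ((3 * 5 : ℤ) : ℝ) * ((-1 : ℤ) : ℝ)) =
      -(-(((i : ℝ) + 1 / 2 + 4 / 15) ^ 2) / ((28 * n : ℕ) : ℝ)) := by
    push_cast; field_simp; ring
  rw [e1, e2, e3, e4]; ring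

theorem nd_A (n : ℕ) (hn : 0 < n) (l : ℕ) :
    nd (840 * n) 2 1 7 (-3) (2 * l) = GG (840 * n) 14 1 * SA n l := by
  rw [nd_even (840 * n) (by omega) 2 1 7 (-3) 1 (by norm_num) (by norm_num)
    (by rw [Int.isCoprime_iff_gcd_eq_one]; decide) (by norm_num) (Or.inl rfl)
    ⟨420 * n, by push_cast; ring⟩ ⟨120 * n, by push_cast; ring⟩ ⟨60 * n, by push_cast; ring⟩]
  congr 1
  unfold SA SS
  exact Finset.sum_congr rfl fun i _ => G4_A n hn i

theorem nd_B (n : ℕ) (hn : 0 < n) (l : ℕ) :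
    nd (840 * n) 3 1 5 (-2) (2 * l) = GG (840 * n) 15 (-1) * (starRingEnd ℂ) (SB n l) := by
  rw [nd_even (840 * n) (by omega) 3 1 5 (-2) (-1) (by norm_num) (by norm_num)
    (by rw [Int.isCoprime_iff_gcd_eq_one]; decide) (by norm_num) (Or.inr rfl)
    ⟨280 * n, by push_cast; ring⟩ ⟨168 * n, by push_cast; ring⟩ ⟨56 * n, by push_cast; ring⟩]
  congr 1
  unfold SB SS
  rw [map_sum]
  exact Finset.sum_congr rfl fun i _ => G4_B n hn i

theorem GG_A (n : ℕ) (hn : 0 < n) : ‖GG (840 * n) 14 1‖ ^ 2 = 120 * n := by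
  have h := GG_norm_sq 14 1 (60 * n) 1 (Or.inl rfl) (by norm_num) (by norm_num) (by omega) (by decide)
  have e : 14 * 1 * (60 * n) = 840 * n := by ring
  rw [e] at h
  norm_num at h
  rw [h]; ring

theorem GG_B (n : ℕ) (hn : 0 < n) : ‖GG (840 * n) 15 (-1)‖ ^ 2 = 112 * n := by
  have h := GG_norm_sq 15 1 (56 * n) (-1) (Or.inr rfl) (by norm_num) (by norm_num) (by omega) (by decide)
  have e : 15 * 1 * (56 * n) = 840 * n := by ring
  rw [e] at h
  norm_num at h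
  rw [h]; ring

end Pool.Agent.L0h28.Aec
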