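import Mathlib
import Pool.Agent.H524R3.Defs

/-!
# The plumbing tree of the homology sphere
-/

set_option autoImplicit false

open Finset H524R3

namespace Pool.Agent.L0h28.Aec

/-- The plumbing tree with the vertex 0 of framing 14 joined to three vertices 1, 5, 9 of framing 0, where
the branch {1, 2, 3, 4} consists of the vertex 1, a leaf 2 of framing -2 and a chain 3, 4 of framings 2, -3,
the branch {5, 6, 7, 8} of the vertex 5, a leaf 6 of framing -3 and a chain 7, 8 of framings 3, 2 and the
branch {9, 10, 11, 12} has the same framings as the first one. The manifold obtained by surgery on the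
plumbing link is, up to orientation, the result of surgery with coefficient -1 or 1 on the knot
T(2,7) # T(2,7) # -T(3,5). -/
def sphereTree : PlumbingTree 12 where
  parent := ![0, 1, 1, 3, 0, 5, 5, 7, 0, 9, 9, 11]
  parent_le := by decide
  framing := ![14, 0, -2, 2, -3, 0, -3, 3, 2, 0, -2, 2, -3]

/-- The linking matrix of the plumbing link of a weighted tree: the framings on the diagonal, 1 at the pairs
of adjacent vertices and 0 elsewhere. The first homology group of the manifold obtained by surgery is the
cokernel of this matrix, so that the manifold is an integral homology sphere if and only if the determinant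
is 1 or -1. -/
def linkingMatrix {m : ℕ} (Γ : PlumbingTree m) : Matrix (Fin (m + 1)) (Fin (m + 1)) ℤ :=
  Matrix.of fun v w => if v = w then Γ.framing v else
    if ∃ i : Fin m, (i.succ = v ∧ Γ.parent i = w) ∨ (i.succ = w ∧ Γ.parent i = v) then 1 else 0

end Pool.Agent.L0h28.Aec
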