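import Mathlib
import Pool.Agent.L0h28.Aec.TreeDefs
import Pool.Agent.H524R3.Closed

/-!
# The sum over the colours of the tree
-/

set_option autoImplicit false

open Finset H524R3

namespace Pool.Agent.L0h28.Aec

/-- The sum over the colours of a chain of two vertices of framings e, e'. -/
noncomputable def chain (r : ℕ) (e e' : ℤ) (u : ℕ) : ℂ :=
  ∑ a ∈ Icc 1 (r - 1), ((sm r a u : ℝ) : ℂ) * twist r a ^ e *
    ∑ b ∈ Icc 1 (r - 1), ((sm r 1 b * sm r b a : ℝ) : ℂ) * twist r b ^ e'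

/-- The sum over the colours of a branch. -/
noncomputable def branch (r : ℕ) (f e e' : ℤ) (v : ℕ) : ℂ :=
  ∑ u ∈ Icc 1 (r - 1), ((sm r u v : ℝ) : ℂ) / (sm r 1 u : ℝ) *
    (∑ a ∈ Icc 1 (r - 1), ((sm r 1 a * sm r a u : ℝ) : ℂ) * twist r a ^ f) * chain r e e' u

theorem block_sum (A : Finset ℕ) (N : ℕ → ℂ) (L C D : ℕ → ℕ → ℂ) :
    ∑ a ∈ A, ∑ b ∈ A, ∑ c ∈ A, ∑ d ∈ A, N a * L a b * (C a c * D c d) =
      ∑ a ∈ A, N a * (∑ b ∈ A, L a b) * ∑ c ∈ A, C a c * ∑ d ∈ A, D c d := by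
  refine Finset.sum_congr rfl fun a _ => ?_
  rw [mul_assoc, Finset.sum_mul, Finset.mul_sum]
  refine Finset.sum_congr rfl fun b _ => ?_
  rw [← mul_assoc, Finset.mul_sum]
  refine Finset.sum_congr rfl fun c _ => ?_
  rw [Finset.mul_sum, Finset.mul_sum]

theorem three_blocks (A : Finset ℕ) (x : ℂ) (B₁ B₂ B₃ : ℕ → ℕ → ℕ → ℕ → ℂ) :
    ∑ a ∈ A, ∑ b ∈ A, ∑ c ∈ A, ∑ d ∈ A, ∑ a' ∈ A, ∑ b' ∈ A, ∑ c' ∈ A, ∑ d' ∈ A,
      ∑ a'' ∈ A, ∑ b'' ∈ A, ∑ c'' ∈ A, ∑ d'' ∈ A,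
        x * B₁ a b c d * B₂ a' b' c' d' * B₃ a'' b'' c'' d'' =
      x * (∑ a ∈ A, ∑ b ∈ A, ∑ c ∈ A, ∑ d ∈ A, B₁ a b c d) *
        (∑ a ∈ A, ∑ b ∈ A, ∑ c ∈ A, ∑ d ∈ A, B₂ a b c d) *
        (∑ a ∈ A, ∑ b ∈ A, ∑ c ∈ A, ∑ d ∈ A, B₃ a b c d) := by
  simp only [← Finset.mul_sum, ← Finset.sum_mul]

theorem alg_tree (b x0 x1 x2 x4 x3 x5 x6 x8 x7 x9 x10 x12 x11 y1 y2 y3 y4 y5 y6 y7 y8 y9 y10 y11 y12
    w0 w2 w3 w4 w6 w7 w8 w10 w11 w12 : ℂ) (hb : b ≠ 0) (h0 : x0 ≠ 0) (h1 : x1 ≠ 0) (h5 : x5 ≠ 0)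
    (h9 : x9 ≠ 0) (h3 : x3 ≠ 0) (h7 : x7 ≠ 0) (h11 : x11 ≠ 0) :
    b ^ 14 * ((x0 / b * (x1 / b * (x2 / b * (x3 / b * (x4 / b * (x5 / b * (x6 / b * (x7 / b * (x8 / b *
      (x9 / b * (x10 / b * (x11 / b * (x12 / b))))))))))))) *
      (w0 * (w2 * (w3 * (w4 * (w6 * (w7 * (w8 * (w10 * (w11 * w12)))))))) *
      (((x0 / b) ^ 2)⁻¹ * (((x1 / b) ^ 2)⁻¹ * ((x3 / b)⁻¹ * (((x5 / b) ^ 2)⁻¹ * ((x7 / b)⁻¹ *
        (((x9 / b) ^ 2)⁻¹ * (x11 / b)⁻¹)))))) *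
      (y1 / b * (y2 / b * (y3 / b * (y4 / b * (y5 / b * (y6 / b * (y7 / b * (y8 / b * (y9 / b *
        (y10 / b * (y11 / b * (y12 / b))))))))))))) ) =
    (w0 / x0) * (y1 / x1 * (x2 * y2 * w2) * (y3 * w3 * (x4 * y4 * w4))) *
      (y5 / x5 * (x6 * y6 * w6) * (y7 * w7 * (x8 * y8 * w8))) *
      (y9 / x9 * (x10 * y10 * w10) * (y11 * w11 * (x12 * y12 * w12))) := by
  have e3 : ∀ x : ℂ, x ≠ 0 → x / b * ((x / b) ^ 2)⁻¹ = b / x := by
    intro x hx; field_simp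
  have e2 : ∀ x : ℂ, x ≠ 0 → x / b * (x / b)⁻¹ = 1 := by
    intro x hx; exact mul_inv_cancel₀ (div_ne_zero hx hb)
  generalize hi0 : ((x0 / b) ^ 2)⁻¹ = i0
  generalize hi1 : ((x1 / b) ^ 2)⁻¹ = i1
  generalize hi5 : ((x5 / b) ^ 2)⁻¹ = i5
  generalize hi9 : ((x9 / b) ^ 2)⁻¹ = i9
  generalize hi3 : (x3 / b)⁻¹ = i3
  generalize hi7 : (x7 / b)⁻¹ = i7
  generalize hi11 : (x11 / b)⁻¹ = i11
  have g0 : x0 / b * i0 = b / x0 := by rw [← hi0]; exact e3 x0 h0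
  have g1 : x1 / b * i1 = b / x1 := by rw [← hi1]; exact e3 x1 h1
  have g5 : x5 / b * i5 = b / x5 := by rw [← hi5]; exact e3 x5 h5
  have g9 : x9 / b * i9 = b / x9 := by rw [← hi9]; exact e3 x9 h9
  have g3 : x3 / b * i3 = 1 := by rw [← hi3]; exact e2 x3 h3
  have g7 : x7 / b * i7 = 1 := by rw [← hi7]; exact e2 x7 h7
  have g11 : x11 / b * i11 = 1 := by rw [← hi11]; exact e2 x11 h11
  have hc : b * b⁻¹ = 1 := mul_inv_cancel₀ hb
  calc _ = b ^ 14 * (x0 / b * i0) * (x1 / b * i1) * (x5 / b * i5) * (x9 / b * i9) * (x3 / b * i3) *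
        (x7 / b * i7) * (x11 / b * i11) * ((x2 / b) * (x4 / b) * (x6 / b) * (x8 / b) * (x10 / b) *
          (x12 / b)) * (w0 * (w2 * (w3 * (w4 * (w6 * (w7 * (w8 * (w10 * (w11 * w12))))))))) *
        (y1 / b * (y2 / b * (y3 / b * (y4 / b * (y5 / b * (y6 / b * (y7 / b * (y8 / b * (y9 / b *
        (y10 / b * (y11 / b * (y12 / b)))))))))))) := by ring
    _ = b ^ 14 * (b / x0) * (b / x1) * (b / x5) * (b / x9) * 1 *
        1 * 1 * ((x2 / b) * (x4 / b) * (x6 / b) * (x8 / b) * (x10 / b) *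
          (x12 / b)) * (w0 * (w2 * (w3 * (w4 * (w6 * (w7 * (w8 * (w10 * (w11 * w12))))))))) *
        (y1 / b * (y2 / b * (y3 / b * (y4 / b * (y5 / b * (y6 / b * (y7 / b * (y8 / b * (y9 / b *
        (y10 / b * (y11 / b * (y12 / b)))))))))))) := by rw [g0, g1, g5, g9, g3, g7, g11]
    _ = (b * b⁻¹) ^ 18 * ((w0 / x0) * (y1 / x1 * (x2 * y2 * w2) * (y3 * w3 * (x4 * y4 * w4))) *
      (y5 / x5 * (x6 * y6 * w6) * (y7 * w7 * (x8 * y8 * w8))) *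
      (y9 / x9 * (x10 * y10 * w10) * (y11 * w11 * (x12 * y12 * w12)))) := by
        simp only [div_eq_mul_inv]
        generalize b⁻¹ = c
        generalize x0⁻¹ = z0
        generalize x1⁻¹ = z1
        generalize x5⁻¹ = z5
        generalize x9⁻¹ = z9
        ring
    _ = _ := by rw [hc, one_pow, one_mul]

theorem sm_ne_zero (r n : ℕ) (hr : 2 ≤ r) (hn : n ∈ Icc 1 (r - 1)) : ((sm r 1 n : ℝ) : ℂ) ≠ 0 := by
  rw [mem_Icc] at hn
  have h1 : (1 : ℝ) ≤ n := by exact_mod_cast hn.1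
  have h2 : (n : ℝ) < r := by
    have : n < r := by omega
    exact_mod_cast this
  have h3 : 0 < sm r 1 n := by
    unfold sm
    have hr' : (0 : ℝ) < r := by linarith
    refine mul_pos (Real.sqrt_pos.mpr (by positivity)) (Real.sin_pos_of_pos_of_lt_pi ?_ ?_)
    · push_cast; positivity
    · push_cast
      rw [one_mul]
      have : (n : ℝ) / r < 1 := by rw [div_lt_one hr']; exact h2
      nlinarith [Real.pi_pos]
  exact_mod_cast h3.ne'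

theorem dg0 : sphereTree.degree 0 = 3 := by decide
theorem dg1 : sphereTree.degree 1 = 3 := by decide
theorem dg2 : sphereTree.degree 2 = 1 := by decide
theorem dg3 : sphereTree.degree 3 = 2 := by decide
theorem dg4 : sphereTree.degree 4 = 1 := by decide
theorem dg5 : sphereTree.degree 5 = 3 := by decide
theorem dg6 : sphereTree.degree 6 = 1 := by decide
theorem dg7 : sphereTree.degree 7 = 2 := by decide
theorem dg8 : sphereTree.degree 8 = 1 := by decide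
theorem dg9 : sphereTree.degree 9 = 3 := by decide
theorem dg10 : sphereTree.degree 10 = 1 := by decide
theorem dg11 : sphereTree.degree 11 = 2 := by decide
theorem dg12 : sphereTree.degree 12 = 1 := by decide

theorem prod13 (g : Fin 13 → ℂ) : ∏ v, g v = g 0 * (g 1 * (g 2 * (g 3 * (g 4 * (g 5 * (g 6 * (g 7 *
    (g 8 * (g 9 * (g 10 * (g 11 * g 12))))))))))) := by
  simp only [Fin.prod_univ_succ, Fin.prod_univ_zero, mul_one]
  rfl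

theorem prod12 (g : Fin 12 → ℂ) : ∏ v, g v = g 0 * (g 1 * (g 2 * (g 3 * (g 4 * (g 5 * (g 6 * (g 7 *
    (g 8 * (g 9 * (g 10 * g 11)))))))))) := by
  simp only [Fin.prod_univ_succ, Fin.prod_univ_zero, mul_one]
  rfl

theorem term_eq (r : ℕ) (hr : 2 ≤ r) (k : Fin 13 → ℕ) (hk : ∀ v, k v ∈ Icc 1 (r - 1)) :
    ((Real.sqrt (2 / r) * Real.sin (Real.pi / r) : ℝ) : ℂ) ^ (12 + 2) *
        ((∏ w, (qint r (k w) : ℂ)) * sphereTree.colouredJones r k) =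
      (twist r (k 0) ^ (14 : ℤ) / (sm r 1 (k 0) : ℝ)) *
        (((sm r (k 1) (k 0) : ℝ) : ℂ) / (sm r 1 (k 1) : ℝ) *
          (((sm r 1 (k 2) * sm r (k 2) (k 1) : ℝ) : ℂ) * twist r (k 2) ^ (-2 : ℤ)) *
          (((sm r (k 3) (k 1) : ℝ) : ℂ) * twist r (k 3) ^ (2 : ℤ) *
            (((sm r 1 (k 4) * sm r (k 4) (k 3) : ℝ) : ℂ) * twist r (k 4) ^ (-3 : ℤ)))) *
        (((sm r (k 5) (k 0) : ℝ) : ℂ) / (sm r 1 (k 5) : ℝ) *
          (((sm r 1 (k 6) * sm r (k 6) (k 5) : ℝ) : ℂ) * twist r (k 6) ^ (-3 : ℤ)) *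
          (((sm r (k 7) (k 5) : ℝ) : ℂ) * twist r (k 7) ^ (3 : ℤ) *
            (((sm r 1 (k 8) * sm r (k 8) (k 7) : ℝ) : ℂ) * twist r (k 8) ^ (2 : ℤ)))) *
        (((sm r (k 9) (k 0) : ℝ) : ℂ) / (sm r 1 (k 9) : ℝ) *
          (((sm r 1 (k 10) * sm r (k 10) (k 9) : ℝ) : ℂ) * twist r (k 10) ^ (-2 : ℤ)) *
          (((sm r (k 11) (k 9) : ℝ) : ℂ) * twist r (k 11) ^ (2 : ℤ) *
            (((sm r 1 (k 12) * sm r (k 12) (k 11) : ℝ) : ℂ) * twist r (k 12) ^ (-3 : ℤ)))) := by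
  have hb : ((H524R3.bb r : ℝ) : ℂ) ≠ 0 := by exact_mod_cast (bb_pos r hr).ne'
  have hbb : ((Real.sqrt (2 / r) * Real.sin (Real.pi / r) : ℝ) : ℂ) = ((H524R3.bb r : ℝ) : ℂ) := rfl
  rw [hbb]
  unfold PlumbingTree.colouredJones
  rw [prod13, prod13, prod13, prod12]
  have f0 : sphereTree.framing 0 = 14 := rfl
  have f1 : sphereTree.framing 1 = 0 := rfl
  have f2 : sphereTree.framing 2 = -2 := rfl
  have f3 : sphereTree.framing 3 = 2 := rfl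
  have f4 : sphereTree.framing 4 = -3 := rfl
  have f5 : sphereTree.framing 5 = 0 := rfl
  have f6 : sphereTree.framing 6 = -3 := rfl
  have f7 : sphereTree.framing 7 = 3 := rfl
  have f8 : sphereTree.framing 8 = 2 := rfl
  have f9 : sphereTree.framing 9 = 0 := rfl
  have f10 : sphereTree.framing 10 = -2 := rfl
  have f11 : sphereTree.framing 11 = 2 := rfl
  have f12 : sphereTree.framing 12 = -3 := rfl
  have p0 : sphereTree.parent 0 = 0 := rfl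
  have p1 : sphereTree.parent 1 = 1 := rfl
  have p2 : sphereTree.parent 2 = 1 := rfl
  have p3 : sphereTree.parent 3 = 3 := rfl
  have p4 : sphereTree.parent 4 = 0 := rfl
  have p5 : sphereTree.parent 5 = 5 := rfl
  have p6 : sphereTree.parent 6 = 5 := rfl
  have p7 : sphereTree.parent 7 = 7 := rfl
  have p8 : sphereTree.parent 8 = 0 := rfl
  have p9 : sphereTree.parent 9 = 9 := rfl
  have p10 : sphereTree.parent 10 = 9 := rfl
  have p11 : sphereTree.parent 11 = 11 := rfl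
  have s0 : (Fin.succ (0 : Fin 12)) = 1 := rfl
  have s1 : (Fin.succ (1 : Fin 12)) = 2 := rfl
  have s2 : (Fin.succ (2 : Fin 12)) = 3 := rfl
  have s3 : (Fin.succ (3 : Fin 12)) = 4 := rfl
  have s4 : (Fin.succ (4 : Fin 12)) = 5 := rfl
  have s5 : (Fin.succ (5 : Fin 12)) = 6 := rfl
  have s6 : (Fin.succ (6 : Fin 12)) = 7 := rfl
  have s7 : (Fin.succ (7 : Fin 12)) = 8 := rfl
  have s8 : (Fin.succ (8 : Fin 12)) = 9 := rfl
  have s9 : (Fin.succ (9 : Fin 12)) = 10 := rfl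
  have s10 : (Fin.succ (10 : Fin 12)) = 11 := rfl
  have s11 : (Fin.succ (11 : Fin 12)) = 12 := rfl
  simp only [f0, f1, f2, f3, f4, f5, f6, f7, f8, f9, f10, f11, f12, p0, p1, p2, p3, p4, p5, p6, p7, p8,
    p9, p10, p11, s0, s1, s2, s3, s4, s5, s6, s7, s8, s9, s10, s11, dg0, dg1, dg2, dg3, dg4, dg5, dg6,
    dg7, dg8, dg9, dg10, dg11, dg12, qint_mul_eq r _ _ hr]
  simp only [qint_eq r _ hr]
  have hz1 : (1 : ℤ) - ((3 : ℕ) : ℤ) = -2 := by norm_num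
  have hz2 : (1 : ℤ) - ((1 : ℕ) : ℤ) = 0 := by norm_num
  have hz3 : (1 : ℤ) - ((2 : ℕ) : ℤ) = -1 := by norm_num
  rw [hz1, hz2, hz3]
  simp only [zpow_zero, mul_one, one_mul, zpow_neg_one]
  have hz4 : ∀ x : ℂ, x ^ (-2 : ℤ) = (x ^ 2)⁻¹ := fun x => by
    rw [zpow_neg]; norm_cast
  rw [hz4 (((sm r 1 (k 0) / H524R3.bb r : ℝ) : ℂ)), hz4 (((sm r 1 (k 1) / H524R3.bb r : ℝ) : ℂ)),
    hz4 (((sm r 1 (k 5) / H524R3.bb r : ℝ) : ℂ)), hz4 (((sm r 1 (k 9) / H524R3.bb r : ℝ) : ℂ))]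
  push_cast
  exact alg_tree _ _ _ _ _ _ _ _ _ _ _ _ _ _ _ _ _ _ _ _ _ _ _ _ _ _ _ _ _ _ _ _ _ _ _ _ hb
    (sm_ne_zero r _ hr (hk 0)) (sm_ne_zero r _ hr (hk 1)) (sm_ne_zero r _ hr (hk 5))
    (sm_ne_zero r _ hr (hk 9)) (sm_ne_zero r _ hr (hk 3)) (sm_ne_zero r _ hr (hk 7))
    (sm_ne_zero r _ hr (hk 11))

theorem sum_pi13 (A : Finset ℕ) (F : (Fin 13 → ℕ) → ℂ) :
    ∑ k ∈ Fintype.piFinset (fun _ : Fin 13 => A), F k =
      ∑ v ∈ A, ∑ a ∈ A, ∑ b ∈ A, ∑ c ∈ A, ∑ d ∈ A, ∑ a' ∈ A, ∑ b' ∈ A, ∑ c' ∈ A, ∑ d' ∈ A,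
        ∑ a'' ∈ A, ∑ b'' ∈ A, ∑ c'' ∈ A, ∑ d'' ∈ A, F ![v, a, b, c, d, a', b', c', d', a'', b'', c'', d''] := by
  rw [sum_piFinset_cons]
  refine Finset.sum_congr rfl fun v _ => ?_
  rw [sum_piFinset_cons]
  refine Finset.sum_congr rfl fun a _ => ?_
  rw [sum_piFinset_cons]
  refine Finset.sum_congr rfl fun b _ => ?_
  rw [sum_piFinset_cons]
  refine Finset.sum_congr rfl fun c _ => ?_
  rw [sum_piFinset_cons]
  refine Finset.sum_congr rfl fun d _ => ?_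
  rw [sum_piFinset_cons]
  refine Finset.sum_congr rfl fun a' _ => ?_
  rw [sum_piFinset_cons]
  refine Finset.sum_congr rfl fun b' _ => ?_
  rw [sum_piFinset_cons]
  refine Finset.sum_congr rfl fun c' _ => ?_
  rw [sum_piFinset_cons]
  refine Finset.sum_congr rfl fun d' _ => ?_
  rw [sum_piFinset_cons]
  refine Finset.sum_congr rfl fun a'' _ => ?_
  rw [sum_piFinset_cons]
  refine Finset.sum_congr rfl fun b'' _ => ?_
  rw [sum_piFinset_cons]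
  refine Finset.sum_congr rfl fun c'' _ => ?_
  rw [sum_piFinset_cons]
  refine Finset.sum_congr rfl fun d'' _ => ?_
  rw [sum_piFinset_zero]

/-- One block. -/
noncomputable def blk (r : ℕ) (f e e' : ℤ) (v a b c d : ℕ) : ℂ :=
  ((sm r a v : ℝ) : ℂ) / (sm r 1 a : ℝ) * (((sm r 1 b * sm r b a : ℝ) : ℂ) * twist r b ^ f) *
    (((sm r c a : ℝ) : ℂ) * twist r c ^ e * (((sm r 1 d * sm r d c : ℝ) : ℂ) * twist r d ^ e'))

theorem blk_sum (r : ℕ) (f e e' : ℤ) (v : ℕ) :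
    ∑ a ∈ Icc 1 (r - 1), ∑ b ∈ Icc 1 (r - 1), ∑ c ∈ Icc 1 (r - 1), ∑ d ∈ Icc 1 (r - 1),
      blk r f e e' v a b c d = branch r f e e' v := by
  unfold blk branch chain
  exact block_sum (Icc 1 (r - 1)) (fun a => ((sm r a v : ℝ) : ℂ) / (sm r 1 a : ℝ))
    (fun a b => ((sm r 1 b * sm r b a : ℝ) : ℂ) * twist r b ^ f)
    (fun a c => ((sm r c a : ℝ) : ℂ) * twist r c ^ e)
    (fun c d => ((sm r 1 d * sm r d c : ℝ) : ℂ) * twist r d ^ e')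

/-- The closed formula for the invariant. -/
theorem wrt_eq (r : ℕ) (hr : 2 ≤ r) :
    sphereTree.wrt r = ∑ v ∈ Icc 1 (r - 1), (twist r v ^ (14 : ℤ) / (sm r 1 v : ℝ)) *
      branch r (-2) 2 (-3) v * branch r (-3) 3 2 v * branch r (-2) 2 (-3) v := by
  unfold PlumbingTree.wrt
  rw [Finset.mul_sum]
  have h1 : ∑ k ∈ Fintype.piFinset (fun _ : Fin (12 + 1) => Icc 1 (r - 1)),
      ((Real.sqrt (2 / r) * Real.sin (Real.pi / r) : ℝ) : ℂ) ^ (12 + 2) *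
        ((∏ w, (qint r (k w) : ℂ)) * sphereTree.colouredJones r k) =
      ∑ k ∈ Fintype.piFinset (fun _ : Fin 13 => Icc 1 (r - 1)),
      (twist r (k 0) ^ (14 : ℤ) / (sm r 1 (k 0) : ℝ)) * blk r (-2) 2 (-3) (k 0) (k 1) (k 2) (k 3) (k 4) *
        blk r (-3) 3 2 (k 0) (k 5) (k 6) (k 7) (k 8) *
        blk r (-2) 2 (-3) (k 0) (k 9) (k 10) (k 11) (k 12) := by
    refine Finset.sum_congr rfl fun k hk => ?_
    rw [Fintype.mem_piFinset] at hk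
    exact term_eq r hr k hk
  rw [h1, sum_pi13]
  refine Finset.sum_congr rfl fun v _ => ?_
  rw [← blk_sum, ← blk_sum]
  exact three_blocks (Icc 1 (r - 1)) (twist r v ^ (14 : ℤ) / (sm r 1 v : ℝ))
    (blk r (-2) 2 (-3) v) (blk r (-3) 3 2 v) (blk r (-2) 2 (-3) v)

end Pool.Agent.L0h28.Aec
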