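import Mathlib
import Pool.Agent.L0h28.Aec.Tree
import Pool.Agent.L0h28.Aec.Node

/-!
# The branches of the tree
-/

set_option autoImplicit false

open Finset H524R3

namespace Pool.Agent.L0h28.Aec

theorem cI2 : ‖(Complex.I / 2 : ℂ)‖ = 1 / 2 := by
  rw [norm_div, Complex.norm_I]; simp

/-- The sum over the colour of a leaf. -/
theorem leaf_eq (r : ℕ) (hr : 0 < r) (f : ℤ) (hf : f ≠ 0) (hfr : f ∣ r) :
    ∃ K : ℂ, ‖K‖ ^ 2 = ‖GG r 1 f‖ ^ 2 / (4 * r ^ 2) ∧ ∀ u : ℕ,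
      ∑ a ∈ Icc 1 (r - 1), ((sm r 1 a * sm r a u : ℝ) : ℂ) * twist r a ^ f = K * FF r f (-1) u := by
  have hr' : (0 : ℝ) < r := by exact_mod_cast hr
  refine ⟨((2 / r : ℝ) : ℂ) * E (-(f : ℝ) / (2 * r)) * (Complex.I / 2) *
    (Complex.I / 2 * E (-1 / (2 * r * (1 : ℤ) * f)) * GG r 1 f), ?_, fun u => ?_⟩
  · rw [norm_mul, norm_mul, norm_mul, norm_mul, norm_mul, E_norm, E_norm, cI2, Complex.norm_real,
      Real.norm_eq_abs, abs_of_pos (by positivity)]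
    field_simp
    ring
  · have h1 : ∀ a ∈ Icc 1 (r - 1), ((sm r 1 a * sm r a u : ℝ) : ℂ) * twist r a ^ f =
        (((2 / r : ℝ) : ℂ) * E (-(f : ℝ) / (2 * r)) * (Complex.I / 2)) *
          (FF r 1 f a * (Real.sin (Real.pi * (a * ((u : ℤ) : ℝ) / r)) : ℂ)) := by
      intro a _
      rw [sm_sq, twist_zpow]
      have h2 : (f : ℝ) * (((a : ℝ) ^ 2 - 1) / (2 * r)) = -(f : ℝ) / (2 * r) +
          (f : ℝ) * (((a : ℤ) : ℝ)) ^ 2 / (2 * r) := by push_cast; ring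
      have h3 := FF_twist r hr 1 0 a f one_ne_zero
      rw [mul_one, zero_add] at h3
      have h4 := FF_one_zero r a
      rw [h2, E_add, ← h3]
      have h5 : Real.sin (Real.pi * ((a : ℝ) / r)) = Real.sin (Real.pi * ((a : ℤ) : ℝ) / r) := by
        congr 1; push_cast; ring
      rw [h5]
      push_cast at h4 ⊢
      rw [h4]
      ring
    rw [Finset.sum_congr rfl h1, ← Finset.mul_sum]
    rw [FF_transform r hr 1 f one_ne_zero hf isCoprime_one_left (by rwa [one_mul])]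
    ring

/-- The sum over the colours of a chain. -/
theorem chain_eq (r : ℕ) (hr : 0 < r) (e e' p s : ℤ) (ε : ℂ) (hε : ‖ε‖ = 1)
    (he : e' ≠ 0) (her : e' ∣ r) (hp : p ≠ 0) (hs : s ≠ 0) (hco : IsCoprime p s) (hps : p * s ∣ r)
    (hFF : ∀ a : ℤ, FF r e' (-1 + e * e') a = ε * FF r p s a) :
    ∃ K : ℂ, ‖K‖ ^ 2 = ‖GG r 1 e'‖ ^ 2 * ‖GG r p s‖ ^ 2 / (8 * r ^ 3) ∧ ∀ u : ℕ,
      chain r e e' u = K * FF r s (-p) u := by
  have hr' : (0 : ℝ) < r := by exact_mod_cast hr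
  obtain ⟨K₁, hK₁, hleaf⟩ := leaf_eq r hr e' he her
  refine ⟨K₁ * ((Real.sqrt (2 / r) : ℝ) : ℂ) * E (-(e : ℝ) / (2 * r)) * ε *
    (Complex.I / 2 * E (-1 / (2 * r * p * s)) * GG r p s), ?_, fun u => ?_⟩
  · rw [norm_mul, norm_mul, norm_mul, norm_mul, norm_mul, norm_mul, E_norm, E_norm, cI2, hε,
      Complex.norm_real, Real.norm_eq_abs, abs_of_nonneg (Real.sqrt_nonneg _)]
    have h2 : Real.sqrt (2 / r) ^ 2 = 2 / r := Real.sq_sqrt (by positivity)
    have h3 : (‖K₁‖ * Real.sqrt (2 / r) * 1 * 1 * (1 / 2 * 1 * ‖GG r p s‖)) ^ 2 =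
        ‖K₁‖ ^ 2 * Real.sqrt (2 / r) ^ 2 * (1 / 4) * ‖GG r p s‖ ^ 2 := by ring
    rw [h3, h2, hK₁]
    field_simp
    ring
  · unfold chain
    have h1 : ∀ a ∈ Icc 1 (r - 1), ((sm r a u : ℝ) : ℂ) * twist r a ^ e *
        ∑ b ∈ Icc 1 (r - 1), ((sm r 1 b * sm r b a : ℝ) : ℂ) * twist r b ^ e' =
        (K₁ * ((Real.sqrt (2 / r) : ℝ) : ℂ) * E (-(e : ℝ) / (2 * r)) * ε) *
          (FF r p s a * (Real.sin (Real.pi * (a * ((u : ℤ) : ℝ) / r)) : ℂ)) := by
      intro a _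
      rw [hleaf, twist_zpow]
      have h2 : (e : ℝ) * (((a : ℝ) ^ 2 - 1) / (2 * r)) = -(e : ℝ) / (2 * r) +
          (e : ℝ) * (((a : ℤ) : ℝ)) ^ 2 / (2 * r) := by push_cast; ring
      have h3 := FF_twist r hr e' (-1) a e he
      have h4 := hFF a
      rw [h4] at h3
      rw [h2, E_add]
      unfold sm
      push_cast at h3 ⊢
      linear_combination (K₁ * ((Real.sqrt (2 / r) : ℝ) : ℂ) * E (-(e : ℝ) / (2 * r)) *
        (Complex.sin ((Real.pi : ℂ) * ((a : ℂ) * (u : ℂ) / (r : ℂ))))) * h3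
    rw [Finset.sum_congr rfl h1, ← Finset.mul_sum]
    rw [FF_transform r hr p s hp hs hco hps]
    ring

theorem sm_ratio (r u v : ℕ) (hr : 0 < r) :
    sm r u v / sm r 1 u = Real.sin (Real.pi * (v * u / r)) / Real.sin (Real.pi * (u / r)) := by
  have hr' : (0 : ℝ) < r := by exact_mod_cast hr
  unfold sm
  have h : Real.sqrt (2 / (r : ℝ)) ≠ 0 := by positivity
  rw [mul_div_mul_left _ _ h]
  congr 2
  · ring
  · push_cast; ring

theorem branch_eq (r : ℕ) (hr : 0 < r) (f e e' p s q s' : ℤ) (K₁ K₂ : ℂ)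
    (h1 : ∀ u : ℕ, ∑ a ∈ Icc 1 (r - 1), ((sm r 1 a * sm r a u : ℝ) : ℂ) * twist r a ^ f = K₁ * FF r p s u)
    (h2 : ∀ u : ℕ, chain r e e' u = K₂ * FF r q s' u) (v : ℕ) :
    branch r f e e' v = K₁ * K₂ * nd r p s q s' v := by
  unfold branch nd
  rw [Finset.mul_sum]
  refine Finset.sum_congr rfl fun u _ => ?_
  rw [h1, h2, ← Complex.ofReal_div, sm_ratio r u v hr]
  ring

/-- The branch of the knot T(2,7). -/
theorem branch_A (n : ℕ) (hn : 0 < n) : ∃ K : ℂ, ‖K‖ ^ 2 = 7 / (2 * (840 * n) ^ 2) ∧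
    ∀ v : ℕ, branch (840 * n) (-2) 2 (-3) v = K * nd (840 * n) 2 1 7 (-3) v := by
  have hr : 0 < 840 * n := by omega
  have hn0 : (n : ℝ) ≠ 0 := by exact_mod_cast hn.ne'
  obtain ⟨K₁, hK₁, h1⟩ := leaf_eq (840 * n) hr (-2) (by norm_num) ⟨-(420 * n), by push_cast; ring⟩
  obtain ⟨K₂, hK₂, h2⟩ := chain_eq (840 * n) hr 2 (-3) 3 7 (-1) (by simp) (by norm_num)
    ⟨-(280 * n), by push_cast; ring⟩ (by norm_num) (by norm_num)
    (by rw [Int.isCoprime_iff_gcd_eq_one]; decide) ⟨40 * n, by push_cast; ring⟩ (by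
      intro a
      rw [show (-1 : ℤ) + 2 * -3 = -7 by norm_num, show (-3 : ℤ) = -(3) by norm_num, FF_neg_neg]; ring)
  refine ⟨-K₁ * K₂, ?_, fun v => ?_⟩
  · rw [norm_mul, norm_neg, mul_pow, hK₁, hK₂]
    have g1 := GG_norm_sq 1 2 (420 * n) (-1) (Or.inr rfl) (by norm_num) (by norm_num) (by omega) (by decide)
    have g2 := GG_norm_sq 1 3 (280 * n) (-1) (Or.inr rfl) (by norm_num) (by norm_num) (by omega) (by decide)
    have g3 := GG_norm_sq 3 7 (40 * n) 1 (Or.inl rfl) (by norm_num) (by norm_num) (by omega) (by decide)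
    rw [show 1 * 2 * (420 * n) = 840 * n by ring, show (((1 : ℕ) : ℤ)) = 1 by norm_num,
      show (-1 : ℤ) * ((2 : ℕ) : ℤ) = -2 by norm_num] at g1
    rw [show 1 * 3 * (280 * n) = 840 * n by ring, show (((1 : ℕ) : ℤ)) = 1 by norm_num,
      show (-1 : ℤ) * ((3 : ℕ) : ℤ) = -3 by norm_num] at g2
    rw [show 3 * 7 * (40 * n) = 840 * n by ring, show (((3 : ℕ) : ℤ)) = 3 by norm_num,
      show (1 : ℤ) * ((7 : ℕ) : ℤ) = 7 by norm_num] at g3
    rw [g1, g2, g3]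
    push_cast
    field_simp
    norm_num
  · refine branch_eq (840 * n) hr (-2) 2 (-3) 2 1 7 (-3) (-K₁) K₂ (fun u => ?_) h2 v
    rw [h1 u, show (-2 : ℤ) = -(2) by norm_num, FF_neg_neg]; ring

/-- The branch of the mirror image of the knot T(3,5). -/
theorem branch_B (n : ℕ) (hn : 0 < n) : ∃ K : ℂ, ‖K‖ ^ 2 = 15 / (4 * (840 * n) ^ 2) ∧
    ∀ v : ℕ, branch (840 * n) (-3) 3 2 v = K * nd (840 * n) 3 1 5 (-2) v := by
  have hr : 0 < 840 * n := by omega
  have hn0 : (n : ℝ) ≠ 0 := by exact_mod_cast hn.ne'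
  obtain ⟨K₁, hK₁, h1⟩ := leaf_eq (840 * n) hr (-3) (by norm_num) ⟨-(280 * n), by push_cast; ring⟩
  obtain ⟨K₂, hK₂, h2⟩ := chain_eq (840 * n) hr 3 2 2 5 1 (by simp) (by norm_num)
    ⟨420 * n, by push_cast; ring⟩ (by norm_num) (by norm_num)
    (by rw [Int.isCoprime_iff_gcd_eq_one]; decide) ⟨84 * n, by push_cast; ring⟩ (by
      intro a
      rw [show (-1 : ℤ) + 3 * 2 = 5 by norm_num]; ring)
  refine ⟨-K₁ * K₂, ?_, fun v => ?_⟩
  · rw [norm_mul, norm_neg, mul_pow, hK₁, hK₂]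
    have g1 := GG_norm_sq 1 3 (280 * n) (-1) (Or.inr rfl) (by norm_num) (by norm_num) (by omega) (by decide)
    have g2 := GG_norm_sq 1 2 (420 * n) 1 (Or.inl rfl) (by norm_num) (by norm_num) (by omega) (by decide)
    have g3 := GG_norm_sq 2 5 (84 * n) 1 (Or.inl rfl) (by norm_num) (by norm_num) (by omega) (by decide)
    rw [show 1 * 3 * (280 * n) = 840 * n by ring, show (((1 : ℕ) : ℤ)) = 1 by norm_num,
      show (-1 : ℤ) * ((3 : ℕ) : ℤ) = -3 by norm_num] at g1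
    rw [show 1 * 2 * (420 * n) = 840 * n by ring, show (((1 : ℕ) : ℤ)) = 1 by norm_num,
      show (1 : ℤ) * ((2 : ℕ) : ℤ) = 2 by norm_num] at g2
    rw [show 2 * 5 * (84 * n) = 840 * n by ring, show (((2 : ℕ) : ℤ)) = 2 by norm_num,
      show (1 : ℤ) * ((5 : ℕ) : ℤ) = 5 by norm_num] at g3
    rw [g1, g2, g3]
    push_cast
    field_simp
    norm_num
  · refine branch_eq (840 * n) hr (-3) 3 2 3 1 5 (-2) (-K₁) K₂ (fun u => ?_) h2 v
    rw [h1 u, show (-3 : ℤ) = -(3) by norm_num, FF_neg_neg]; ring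

/-- Reflection of the vector of a branch. -/
theorem TT_reflect (r : ℕ) (hr : 0 < r) (p s e k R : ℤ) (hp : p ≠ 0) (hodd : Odd p) (he : Odd e)
    (hR : (r : ℤ) = p * R) (h4 : (4 : ℤ) ∣ s * R) :
    TT r p s e (r - k) = E ((s : ℝ) * k + 1) * TT r p s (-e) k := by
  have hr' : (r : ℝ) ≠ 0 := by exact_mod_cast hr.ne'
  have hp' : (p : ℝ) ≠ 0 := by exact_mod_cast hp
  unfold TT
  have hd : p ∣ s * (r - k) - e ↔ p ∣ s * k - -e := by
    have h1 : s * (r - k) - e = -(s * k - -e) + p * (s * R) := by rw [hR]; ring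
    rw [h1, Int.dvd_add_left (Dvd.intro _ rfl), dvd_neg]
  by_cases h : p ∣ s * k - -e
  · rw [if_pos h, if_pos (hd.mpr h), ← E_add]
    obtain ⟨μ, hμ⟩ := h
    obtain ⟨w, hw⟩ := h4
    obtain ⟨p', hp2⟩ := hodd
    obtain ⟨e', he2⟩ := he
    have hRr : (r : ℝ) = p * R := by exact_mod_cast hR
    have hR0 : (R : ℝ) ≠ 0 := by
      intro h0; rw [h0, mul_zero] at hRr; exact hr' hRr
    have hμ' : (s : ℝ) * k + e = p * μ := by
      have : s * k + e = p * μ := by rw [← hμ]; ring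
      exact_mod_cast this
    have hw' : (s : ℝ) * R = 4 * w := by exact_mod_cast hw
    have h5 : ((s : ℝ) * (((r : ℤ) - k : ℤ) : ℝ) ^ 2 - 2 * e * (((r : ℤ) - k : ℤ) : ℝ)) / (2 * r * p) =
        ((s : ℝ) * k + 1) + ((s : ℝ) * (k : ℝ) ^ 2 - 2 * ((-e : ℤ) : ℝ) * k) / (2 * r * p) +
          ((2 * w - μ - (s * k + 1) : ℤ) : ℝ) := by
      have h6 : ((2 * w - μ - (s * k + 1) : ℤ) : ℝ) = (s : ℝ) * R / 2 - (s * k + e) / p - (s * k + 1) := by
        rw [hμ', hw']; push_cast; field_simp; ring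
      rw [h6, hRr]
      push_cast
      rw [hRr]
      field_simp
      ring
    have h7 : Even (2 * w - μ - (s * k + 1)) := by
      refine ⟨w - (p' + 1) * μ + e', ?_⟩
      have h8 : s * k = p * μ - e := by rw [← hμ]; ring
      rw [h8, hp2, he2]
      ring
    rw [h5, E_add, E_even _ h7, mul_one]
  · rw [if_neg h, if_neg (fun h' => h (hd.mp h')), mul_zero]

theorem FF_reflect (r : ℕ) (hr : 0 < r) (p s k R : ℤ) (hp : p ≠ 0) (hodd : Odd p)
    (hR : (r : ℤ) = p * R) (h4 : (4 : ℤ) ∣ s * R) :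
    FF r p s (r - k) = E ((s : ℝ) * k) * FF r p s k := by
  unfold FF
  rw [TT_reflect r hr p s 1 k R hp hodd odd_one hR h4,
    TT_reflect r hr p s (-1) k R hp hodd (odd_one.neg) hR h4, neg_neg, E_add, E_one]
  ring

theorem sin_reflect (r v l : ℕ) (hr : 0 < r) (hv : v ≤ r) :
    Real.sin (Real.pi * ((r - v : ℕ) * l / r)) = -(-1) ^ l * Real.sin (Real.pi * (v * l / r)) := by
  have hr' : (r : ℝ) ≠ 0 := by exact_mod_cast hr.ne'
  have h : Real.pi * (((r - v : ℕ) : ℝ) * l / r) = l * Real.pi - Real.pi * (v * l / r) := by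
    rw [Nat.cast_sub hv]; field_simp
  rw [h, Real.sin_sub, Real.sin_nat_mul_pi, Real.cos_nat_mul_pi]
  ring

theorem nd_A_reflect (n : ℕ) (hn : 0 < n) (v : ℕ) (hv : v ≤ 840 * n) :
    nd (840 * n) 2 1 7 (-3) (840 * n - v) = nd (840 * n) 2 1 7 (-3) v := by
  unfold nd
  refine Finset.sum_congr rfl fun l _ => ?_
  rcases Nat.even_or_odd l with he | ho
  · have h0 : FF (840 * n) 2 1 l = 0 := by
      obtain ⟨m, hm⟩ := he
      unfold FF TT
      rw [if_neg, if_neg, sub_zero]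
      · rintro ⟨c, hc⟩
        have : (l : ℤ) = m + m := by exact_mod_cast hm
        omega
      · rintro ⟨c, hc⟩
        have : (l : ℤ) = m + m := by exact_mod_cast hm
        omega
    rw [h0]; simp
  · rw [sin_reflect (840 * n) v l (by omega) hv, ho.neg_one_pow]
    congr 2
    ring

theorem Icc_reflect (r : ℕ) (hr : 2 ≤ r) (f : ℕ → ℂ) :
    ∑ l ∈ Icc 1 (r - 1), f (r - l) = ∑ l ∈ Icc 1 (r - 1), f l := by
  refine Finset.sum_nbij' (fun l => r - l) (fun l => r - l) ?_ ?_ ?_ ?_ ?_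
  · intro l hl; rw [mem_Icc] at hl ⊢; omega
  · intro l hl; rw [mem_Icc] at hl ⊢; omega
  · intro l hl
    rw [mem_Icc] at hl
    show r - (r - l) = l
    omega
  · intro l hl
    rw [mem_Icc] at hl
    show r - (r - l) = l
    omega
  · intro l hl; rfl

theorem nd_B_reflect (n : ℕ) (hn : 0 < n) (v : ℕ) (hv : v ≤ 840 * n) :
    nd (840 * n) 3 1 5 (-2) (840 * n - v) = (-1) ^ v * nd (840 * n) 3 1 5 (-2) v := by
  have hr : 0 < 840 * n := by omega
  have hr' : ((840 * n : ℕ) : ℝ) ≠ 0 := by exact_mod_cast hr.ne'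
  set g : ℕ → ℂ := fun l => FF (840 * n) 3 1 l * FF (840 * n) 5 (-2) l *
    ((Real.sin (Real.pi * (v * l / (840 * n : ℕ))) / Real.sin (Real.pi * (l / (840 * n : ℕ))) : ℝ) : ℂ) with hg
  have h1 : ∀ l ∈ Icc 1 (840 * n - 1), g (840 * n - l) = (-(-1) ^ v) * ((-1) ^ l * g l) := by
    intro l hl
    rw [mem_Icc] at hl
    have hl2 : l ≤ 840 * n := by omega
    simp only [hg]
    have c1 : (((840 * n - l : ℕ) : ℕ) : ℤ) = ((840 * n : ℕ) : ℤ) - (l : ℤ) := by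
      rw [Nat.cast_sub hl2]
    have e1 : FF (840 * n) 3 1 ((840 * n - l : ℕ) : ℤ) = (-1) ^ l * FF (840 * n) 3 1 l := by
      rw [c1, FF_reflect (840 * n) hr 3 1 l (280 * n) (by norm_num) (by decide) (by push_cast; ring)
        ⟨70 * n, by ring⟩]
      congr 1
      rw [neg_one_pow_eq_E]
      congr 1
      push_cast
      ring
    have e2 : FF (840 * n) 5 (-2) ((840 * n - l : ℕ) : ℤ) = FF (840 * n) 5 (-2) l := by
      rw [c1, FF_reflect (840 * n) hr 5 (-2) l (168 * n) (by norm_num) (by decide) (by push_cast; ring)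
        ⟨-(84 * n), by ring⟩]
      have h3 : (((-2 : ℤ) : ℝ) * ((l : ℤ) : ℝ)) = ((2 * (-l) : ℤ) : ℝ) := by push_cast; ring
      rw [h3, E_even _ (even_two_mul _), one_mul]
    have e3 : Real.sin (Real.pi * (v * ((840 * n - l : ℕ) : ℝ) / (840 * n : ℕ))) =
        -(-1) ^ v * Real.sin (Real.pi * (v * l / (840 * n : ℕ))) := by
      have := sin_reflect (840 * n) l v hr hl2
      rw [mul_comm (v : ℝ) ((840 * n - l : ℕ) : ℝ), this, mul_comm (l : ℝ) (v : ℝ)]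
    have e4 : Real.sin (Real.pi * (((840 * n - l : ℕ) : ℝ) / (840 * n : ℕ))) =
        Real.sin (Real.pi * (l / (840 * n : ℕ))) := by
      have h3 : Real.pi * (((840 * n - l : ℕ) : ℝ) / (840 * n : ℕ)) = Real.pi - Real.pi * (l / (840 * n : ℕ)) := by
        rw [Nat.cast_sub hl2]; field_simp
      rw [h3, Real.sin_pi_sub]
    rw [e1, e2, e3, e4]
    push_cast
    ring
  have h2 : nd (840 * n) 3 1 5 (-2) v = (-(-1) ^ v) * ∑ l ∈ Icc 1 (840 * n - 1), (-1) ^ l * g l := by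
    rw [Finset.mul_sum, ← Finset.sum_congr rfl h1, Icc_reflect (840 * n) (by omega) g]
    rfl
  have h3 : nd (840 * n) 3 1 5 (-2) (840 * n - v) = -∑ l ∈ Icc 1 (840 * n - 1), (-1) ^ l * g l := by
    unfold nd
    rw [← Finset.sum_neg_distrib]
    refine Finset.sum_congr rfl fun l _ => ?_
    rw [sin_reflect (840 * n) v l hr hv]
    simp only [hg]
    push_cast
    ring
  rw [h2, h3]
  have h4 : ((-1 : ℂ)) ^ v * (-1) ^ v = 1 := by rw [← mul_pow]; norm_num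
  linear_combination (-(∑ l ∈ Icc 1 (840 * n - 1), (-1) ^ l * g l)) * (-h4)

end Pool.Agent.L0h28.Aec
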