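import Mathlib
import Pool.Agent.L0h28.Aec.Window

/-!
# The contribution of the resonances
-/

set_option autoImplicit false

open Finset H524R3

namespace Pool.Agent.L0h28.Aec

theorem fM_res_add (n : ℕ) (hn : 1 ≤ n) (m y : ℕ) : fM (30 * n) (30 * n * m + y) = fM (30 * n) y := by
  have hn0 : (n : ℝ) ≠ 0 := by
    have : n ≠ 0 := by omega
    exact_mod_cast this
  unfold fM
  have h : ((30 * n * m + y : ℕ) : ℝ) ^ 2 / (30 * n : ℕ) = (y : ℝ) ^ 2 / (30 * n : ℕ) +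
      ((2 * (15 * n * m ^ 2 + m * y) : ℤ) : ℝ) := by
    push_cast
    field_simp
    ring
  rw [h, E_add, E_even _ (even_two_mul _), mul_one]

theorem fM_res_sub (n : ℕ) (hn : 1 ≤ n) (m y : ℕ) (hy : y ≤ 30 * n * m) :
    fM (30 * n) (30 * n * m - y) = fM (30 * n) y := by
  have hn0 : (n : ℝ) ≠ 0 := by
    have : n ≠ 0 := by omega
    exact_mod_cast this
  unfold fM
  have h : ((30 * n * m - y : ℕ) : ℝ) ^ 2 / (30 * n : ℕ) = (y : ℝ) ^ 2 / (30 * n : ℕ) +
      ((2 * (15 * n * m ^ 2 - m * y) : ℤ) : ℝ) := by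
    rw [Nat.cast_sub hy]
    push_cast
    field_simp
    ring
  rw [h, E_add, E_even _ (even_two_mul _), mul_one]

theorem approx_aux (X A Y K : ℂ) (t x x' y e e' : ℝ) (hX : ‖X‖ ≤ x) (hA : ‖A‖ ≤ x') (hXA : ‖X - A‖ ≤ e)
    (hY : ‖Y‖ ≤ y) (hYK : ‖Y - K‖ ≤ e') (ht : |t| ≤ 210) :
    ‖X ^ 2 * (starRingEnd ℂ) Y * (t : ℂ) - A ^ 2 * (starRingEnd ℂ) K * (t : ℂ)‖ ≤
      210 * (e * (x + x') * y + x' ^ 2 * e') := by
  have h : X ^ 2 * (starRingEnd ℂ) Y * (t : ℂ) - A ^ 2 * (starRingEnd ℂ) K * (t : ℂ) =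
      (t : ℂ) * ((X - A) * (X + A) * (starRingEnd ℂ) Y + A ^ 2 * (starRingEnd ℂ) (Y - K)) := by
    rw [map_sub]; ring
  have hx' : 0 ≤ x' := (norm_nonneg _).trans hA
  have hx : 0 ≤ x := (norm_nonneg _).trans hX
  have he : 0 ≤ e := (norm_nonneg _).trans hXA
  have he' : 0 ≤ e' := (norm_nonneg _).trans hYK
  have hy : 0 ≤ y := (norm_nonneg _).trans hY
  rw [h, norm_mul, Complex.norm_real, Real.norm_eq_abs]
  refine mul_le_mul ht ?_ (norm_nonneg _) (by norm_num)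
  refine (norm_add_le _ _).trans (add_le_add ?_ ?_)
  · rw [norm_mul, norm_mul, RCLike.norm_conj]
    have h1 : ‖X + A‖ ≤ x + x' := (norm_add_le _ _).trans (add_le_add hX hA)
    gcongr
  · rw [norm_mul, norm_pow, RCLike.norm_conj]
    gcongr

/-- The constant of the T(3,5) vector near the resonance m of the T(2,7) vector. -/
noncomputable def gam (m : ℕ) : ℝ := aa (4 / 15) (1 / 15) m + bB m

theorem gam_abs (m : ℕ) (hm : m ≤ 7) : |gam m| ≤ 60 := by
  unfold gam bB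
  refine (abs_add_le _ _).trans ?_
  have h1 := aa_abs (4 / 15) (1 / 15) m
  have h2 := bb_abs (4 / 15) (1 / 15) m
  have : (m : ℝ) ≤ 7 := by exact_mod_cast hm
  linarith

/-- The value of the T(3,5) vector near the resonance m of the T(2,7) vector. -/
noncomputable def kap (n m : ℕ) : ℂ := gam m * P (28 * n) (14 * n)

theorem kap_norm (n m : ℕ) (hm : m ≤ 7) : ‖kap n m‖ ≤ 360 * sq n := by
  unfold kap
  rw [norm_mul, Complex.norm_real, Real.norm_eq_abs]
  have h1 := P_norm_le_sqrt (28 * n) (14 * n) (by omega)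
  have h2 := sq28 n
  have h0 : 0 ≤ sq n := Real.sqrt_nonneg _
  calc |gam m| * ‖P (28 * n) (14 * n)‖ ≤ 60 * (6 * sq n) :=
        mul_le_mul (gam_abs m hm) (by linarith) (norm_nonneg _) (by norm_num)
    _ = _ := by ring

theorem SB_near (n : ℕ) (hn : 1 ≤ n) (m z : ℕ) (hm : m ≤ 7) (hz1 : n ≤ z) (hz2 : z ≤ 14 * n) :
    ‖SB n (28 * n * m + z) - kap n m‖ ≤ 3560 := by
  have h := SS_mid (14 * n) (by omega) (4 / 15) (1 / 15) (by rw [abs_of_pos] <;> norm_num)
    (by rw [abs_of_pos] <;> norm_num) m z hz2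
  have h2 : 2 * (14 * n) = 28 * n := by ring
  rw [h2] at h
  unfold SB kap gam bB
  push_cast
  refine h.trans ?_
  have hm' : (m : ℝ) ≤ 7 := by exact_mod_cast hm
  have h3 : 40 * ((14 * n : ℕ) : ℝ) / (z + 1) ≤ 560 := by
    rw [div_le_iff₀ (by positivity)]
    push_cast
    have : (n : ℝ) ≤ z := by exact_mod_cast hz1
    linarith
  linarith

theorem SA_right (n : ℕ) (hn : 1 ≤ n) (m y : ℕ) (hy : y ≤ 15 * n) :
    ‖SA n (30 * n * m + y) - (SA n (30 * n * m) + bA m * P (30 * n) y)‖ ≤ 200 := by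
  have h := SS_fwd (30 * n) (by omega) ⟨15 * n, by ring⟩ (9 / 28) (5 / 28)
    (by rw [abs_of_pos] <;> norm_num) (by rw [abs_of_pos] <;> norm_num) m y (by omega)
  unfold SA bA
  rw [← sub_sub]
  exact h

theorem SA_left (n : ℕ) (hn : 1 ≤ n) (m y : ℕ) (hy : y ≤ 15 * n) (hym : y ≤ 30 * n * m) :
    ‖SA n (30 * n * m - y) - (SA n (30 * n * m) - bA m * P (30 * n) y)‖ ≤ 200 := by
  have h := SS_bwd (30 * n) (by omega) ⟨15 * n, by ring⟩ (9 / 28) (5 / 28)
    (by rw [abs_of_pos] <;> norm_num) (by rw [abs_of_pos] <;> norm_num) m y (by omega) hym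
  unfold SA bA
  rw [norm_sub_rev]
  refine le_trans (le_of_eq ?_) h
  congr 1
  ring

theorem bA_abs (m : ℕ) : |bA m| ≤ 4 := bb_abs _ _ _

theorem P_norm_sq (n : ℕ) (y : ℕ) (hy : y ≤ 15 * n) : ‖P (30 * n) y‖ ≤ 6 * sq n :=
  P_norm_le_sqrt (30 * n) y (by omega)

theorem num_aux (s : ℝ) (hs : 1 ≤ s) :
    210 * (200 * (3800 * s + 3824 * s) * (3800 * s) + (3824 * s) ^ 2 * 3560) ≤ 2 * 10 ^ 13 * s ^ 2 := by
  nlinarith [sq_nonneg s]

theorem YY_right (n : ℕ) (hn : 1 ≤ n) (m y : ℕ) (hm1 : 1 ≤ m) (hm : m ≤ 6) (hy : y ≤ n) :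
    ‖YY n (30 * n * m + y) - (SA n (30 * n * m) + bA m * P (30 * n) y) ^ 2 *
      (starRingEnd ℂ) (kap n m) * ((tau n (30 * n * m + y) : ℝ) : ℂ)‖ ≤ 2 * 10 ^ 13 * sq n ^ 2 := by
  have hs := sq_ge_one n hn
  have hmn : 30 * n * m ≤ 180 * n := by nlinarith
  have hmn1 : 30 * n ≤ 30 * n * m := by nlinarith
  have hmn2 : 28 * n * m + (2 * n * m + y) = 30 * n * m + y := by ring
  have hmn3 : 2 * n * m ≤ 12 * n := by nlinarith
  have hmn4 : 2 * n ≤ 2 * n * m := by nlinarith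
  have hB := SB_near n hn m (2 * n * m + y) (by omega) (by omega) (by omega)
  rw [hmn2] at hB
  have hA : ‖SA n (30 * n * m) + bA m * P (30 * n) y‖ ≤ 3824 * sq n := by
    refine (norm_add_le _ _).trans ?_
    rw [norm_mul, Complex.norm_real, Real.norm_eq_abs]
    have h1 := SA_norm n hn (30 * n * m) (by omega)
    have h2 : |bA m| * ‖P (30 * n) y‖ ≤ 4 * (6 * sq n) :=
      mul_le_mul (bA_abs m) (P_norm_sq n y (by omega)) (norm_nonneg _) (by norm_num)
    linarith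
  unfold YY
  refine (approx_aux _ _ _ _ _ (3800 * sq n) (3824 * sq n) (3800 * sq n) 200 3560
    (SA_norm n hn _ (by omega)) hA (SA_right n hn m y (by omega)) (SB_norm n hn _ (by omega)) hB
    (tau_abs n hn _ (by omega) (by omega))).trans (num_aux _ hs)

theorem YY_left (n : ℕ) (hn : 1 ≤ n) (m y : ℕ) (hm1 : 1 ≤ m) (hm : m ≤ 7) (hy : y ≤ n) :
    ‖YY n (30 * n * m - y) - (SA n (30 * n * m) - bA m * P (30 * n) y) ^ 2 *
      (starRingEnd ℂ) (kap n m) * ((tau n (30 * n * m - y) : ℝ) : ℂ)‖ ≤ 2 * 10 ^ 13 * sq n ^ 2 := by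
  have hs := sq_ge_one n hn
  have hmn : 30 * n * m ≤ 210 * n := by nlinarith
  have hmn1 : 30 * n ≤ 30 * n * m := by nlinarith
  have hmn3 : 2 * n * m ≤ 14 * n := by nlinarith
  have hmn4 : 2 * n ≤ 2 * n * m := by nlinarith
  have hmn2 : 28 * n * m + (2 * n * m - y) = 30 * n * m - y := by
    have : 28 * n * m + 2 * n * m = 30 * n * m := by ring
    omega
  have hB := SB_near n hn m (2 * n * m - y) (by omega) (by omega) (by omega)
  rw [hmn2] at hB
  have hA : ‖SA n (30 * n * m) - bA m * P (30 * n) y‖ ≤ 3824 * sq n := by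
    refine (norm_sub_le _ _).trans ?_
    rw [norm_mul, Complex.norm_real, Real.norm_eq_abs]
    have h1 := SA_norm n hn (30 * n * m) (by omega)
    have h2 : |bA m| * ‖P (30 * n) y‖ ≤ 4 * (6 * sq n) :=
      mul_le_mul (bA_abs m) (P_norm_sq n y (by omega)) (norm_nonneg _) (by norm_num)
    linarith
  unfold YY
  refine (approx_aux _ _ _ _ _ (3800 * sq n) (3824 * sq n) (3800 * sq n) 200 3560
    (SA_norm n hn _ (by omega)) hA (SA_left n hn m y (by omega) (by omega)) (SB_norm n hn _ (by omega)) hB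
    (tau_abs n hn _ (by omega) (by omega))).trans (num_aux _ hs)

/-- The local sum. -/
noncomputable def JJ (n : ℕ) : ℂ := ∑ y ∈ range (n + 1), fM (30 * n) y * P (30 * n) y ^ 2

theorem tau_div (n : ℕ) (hn : 1 ≤ n) (k : ℝ) : k / n = 30 * k / (30 * n : ℕ) := by
  have hn0 : (n : ℝ) ≠ 0 := by
    have : n ≠ 0 := by omega
    exact_mod_cast this
  push_cast
  field_simp

theorem model_le (n : ℕ) (hn : 1 ≤ n) (m : ℕ) (hm1 : 1 ≤ m) (hm : m ≤ 6) :
    ‖∑ y ∈ range (n + 1), fM (30 * n) y * ((SA n (30 * n * m) + bA m * P (30 * n) y) ^ 2 *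
        (starRingEnd ℂ) (kap n m) * ((tau n (30 * n * m + y) : ℝ) : ℂ)) +
      ∑ y ∈ range (n + 1), fM (30 * n) y * ((SA n (30 * n * m) - bA m * P (30 * n) y) ^ 2 *
        (starRingEnd ℂ) (kap n m) * ((tau n (30 * n * m - y) : ℝ) : ℂ)) -
      (starRingEnd ℂ) (kap n m) * (bA m : ℂ) ^ 2 * (2 * ((tau n (30 * n * m) : ℝ) : ℂ)) * JJ n‖ ≤
      9 * 10 ^ 14 * sq n ^ 4 := by
  have hs := sq_ge_one n hn
  have hss := sq_sq n
  have hn0 : (1 : ℝ) ≤ n := by exact_mod_cast hn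
  have hn00 : (0 : ℝ) < n := by linarith
  have hmn : 30 * n * m ≤ 180 * n := by nlinarith
  have hmn1 : 30 * n ≤ 30 * n * m := by nlinarith
  set c := 30 * n * m with hc
  set a := SA n c with ha
  set b := bA m with hb
  set κ := (starRingEnd ℂ) (kap n m) with hκ
  set tp : ℕ → ℝ := fun y => tau n (c + y) with htp
  set tm : ℕ → ℝ := fun y => tau n (c - y) with htm
  have hκn : ‖κ‖ ≤ 360 * sq n := by rw [hκ, RCLike.norm_conj]; exact kap_norm n m (by omega)
  have han : ‖a‖ ≤ 3800 * sq n := SA_norm n hn c (by omega)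
  have hbn : ‖(b : ℂ)‖ ≤ 4 := by rw [Complex.norm_real, Real.norm_eq_abs]; exact bA_abs m
  have key : ∑ y ∈ range (n + 1), fM (30 * n) y * ((a + b * P (30 * n) y) ^ 2 * κ * ((tp y : ℝ) : ℂ)) +
      ∑ y ∈ range (n + 1), fM (30 * n) y * ((a - b * P (30 * n) y) ^ 2 * κ * ((tm y : ℝ) : ℂ)) -
      κ * (b : ℂ) ^ 2 * (2 * ((tau n c : ℝ) : ℂ)) * JJ n =
      κ * (a ^ 2 * ∑ y ∈ range (n + 1), fM (30 * n) y * ((tp y + tm y : ℝ) : ℂ) +
        2 * a * b * ∑ y ∈ range (n + 1), fM (30 * n) y * (P (30 * n) y * ((tp y - tm y : ℝ) : ℂ)) +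
        (b : ℂ) ^ 2 * ∑ y ∈ range (n + 1), fM (30 * n) y * (P (30 * n) y ^ 2 *
          ((tp y + tm y - 2 * tau n c : ℝ) : ℂ))) := by
    unfold JJ
    rw [Finset.mul_sum, Finset.mul_sum, Finset.mul_sum, Finset.mul_sum, ← Finset.sum_add_distrib,
      ← Finset.sum_sub_distrib, ← Finset.sum_add_distrib, ← Finset.sum_add_distrib, Finset.mul_sum]
    refine Finset.sum_congr rfl fun y _ => ?_
    push_cast
    ring
  have hsub : ∀ y, y ≤ n + 1 → ((c - y : ℕ) : ℝ) = c - y := fun y hy => Nat.cast_sub (by omega)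
  have hP1 : ∀ i, i ≤ n + 1 → ‖P (30 * n) i‖ ≤ 6 * sq n := fun i hi => P_norm_sq n i (by omega)
  -- step bounds
  have stp : ∀ y, y < n + 1 → |tp (y + 1) - tp y| ≤ 420 / n := by
    intro y hy
    refine (tau_lip n hn (c + (y + 1)) (c + y) (by omega) (by omega) (by omega) (by omega)).trans (le_of_eq ?_)
    push_cast
    rw [show (c : ℝ) + (y + 1) - (c + y) = 1 by ring, abs_one, mul_one]
  have stm : ∀ y, y < n + 1 → |tm (y + 1) - tm y| ≤ 420 / n := by
    intro y hy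
    refine (tau_lip n hn (c - (y + 1)) (c - y) (by omega) (by omega) (by omega) (by omega)).trans (le_of_eq ?_)
    rw [hsub y (by omega), hsub (y + 1) (by omega)]
    push_cast
    rw [show (c : ℝ) - (y + 1) - (c - y) = -1 by ring, abs_neg, abs_one, mul_one]
  have htpc : ∀ y, y ≤ n + 1 → |tp y - tau n c| ≤ 420 * y / n := by
    intro y hy
    refine (tau_lip n hn (c + y) c (by omega) (by omega) (by omega) (by omega)).trans (le_of_eq ?_)
    push_cast
    rw [add_sub_cancel_left, abs_of_nonneg (Nat.cast_nonneg y)]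
  have htmc : ∀ y, y ≤ n + 1 → |tm y - tau n c| ≤ 420 * y / n := by
    intro y hy
    refine (tau_lip n hn (c - y) c (by omega) (by omega) (by omega) (by omega)).trans (le_of_eq ?_)
    rw [hsub y hy]
    rw [show (c : ℝ) - y - c = -y by ring, abs_neg, abs_of_nonneg (Nat.cast_nonneg y)]
  -- first sum
  have e1 : ‖∑ y ∈ range (n + 1), fM (30 * n) y * ((tp y + tm y : ℝ) : ℂ)‖ ≤ 151200 * sq n := by
    refine (sum_fM_le (30 * n) (n + 1) (by omega) (fun y => ((tp y + tm y : ℝ) : ℂ)) 25200 ?_ ?_).trans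
      (le_of_eq ?_)
    · intro i hi
      rw [Complex.norm_real, Real.norm_eq_abs]
      refine (abs_add_le _ _).trans ?_
      have h1 := tau_abs n hn (c + i) (by omega) (by omega)
      have h2 := tau_abs n hn (c - i) (by omega) (by omega)
      linarith
    · intro i hi
      show ‖((tp (i + 1) + tm (i + 1) : ℝ) : ℂ) - ((tp i + tm i : ℝ) : ℂ)‖ ≤ _
      rw [← Complex.ofReal_sub, Complex.norm_real, Real.norm_eq_abs]
      have h1 := stp i hi
      have h2 := stm i hi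
      have h3 : tp (i + 1) + tm (i + 1) - (tp i + tm i) = (tp (i + 1) - tp i) + (tm (i + 1) - tm i) := by ring
      rw [h3]
      refine (abs_add_le _ _).trans ?_
      have h4 := tau_div n hn 840
      have h5 : (840 : ℝ) / n = 420 / n + 420 / n := by ring
      norm_num at h4 ⊢
      linarith
    · unfold sq; ring
  have hn2 : ((n + 1 : ℕ) : ℝ) ≤ sq n ^ 2 := by rw [hss]; push_cast; linarith
  have hsqn : Real.sqrt ((n + 1 : ℕ) : ℝ) ≤ sq n := by
    rw [Real.sqrt_le_left (by linarith)]; exact hn2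
  have hsqn0 : 0 ≤ Real.sqrt ((n + 1 : ℕ) : ℝ) := Real.sqrt_nonneg _
  -- second sum
  have e2 : ‖∑ y ∈ range (n + 1), fM (30 * n) y * (P (30 * n) y * ((tp y - tm y : ℝ) : ℂ))‖ ≤
      1260000 * sq n ^ 2 := by
    refine (sum_fM_van (30 * n) (n + 1) (by omega) (P (30 * n)) (fun y => ((tp y - tm y : ℝ) : ℂ))
      (6 * sq n) 1 25200 (by norm_num) hP1 ?_ ?_ ?_).trans ?_
    · intro i _
      rw [P_succ, add_sub_cancel_left, eM_norm]
    · intro i hi
      rw [Complex.norm_real, Real.norm_eq_abs]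
      have h1 := htpc i hi
      have h2 := htmc i hi
      have h3 : tp i - tm i = (tp i - tau n c) - (tm i - tau n c) := by ring
      rw [h3]
      refine (abs_sub _ _).trans ?_
      have h4 := tau_div n hn (840 * (i + 1))
      have h5 : (840 * ((i : ℝ) + 1)) / n = 420 * i / n + 420 * i / n + 840 / n := by ring
      have h6 : (0 : ℝ) ≤ 840 / n := by positivity
      have h7 : (25200 : ℝ) * ((i + 1) / ((30 * n : ℕ) : ℝ)) = 30 * (840 * (i + 1)) / (30 * n : ℕ) := by ring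
      rw [h7, ← h4]
      linarith
    · intro i hi
      show ‖((tp (i + 1) - tm (i + 1) : ℝ) : ℂ) - ((tp i - tm i : ℝ) : ℂ)‖ ≤ _
      rw [← Complex.ofReal_sub, Complex.norm_real, Real.norm_eq_abs]
      have h1 := stp i hi
      have h2 := stm i hi
      have h3 : tp (i + 1) - tm (i + 1) - (tp i - tm i) = (tp (i + 1) - tp i) - (tm (i + 1) - tm i) := by ring
      rw [h3]
      refine (abs_sub _ _).trans ?_
      have h4 := tau_div n hn 840
      have h5 : (840 : ℝ) / n = 420 / n + 420 / n := by ring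
      norm_num at h4 ⊢
      linarith
    · have h1 : 2 * (6 * sq n) + 2 * 1 * ((n + 1 : ℕ) : ℝ) + 6 * (6 * sq n) * Real.sqrt ((n + 1 : ℕ) : ℝ) ≤
          50 * sq n ^ 2 := by nlinarith
      linarith
  -- third sum
  have e3 : ‖∑ y ∈ range (n + 1), fM (30 * n) y * (P (30 * n) y ^ 2 *
      ((tp y + tm y - 2 * tau n c : ℝ) : ℂ))‖ ≤ 8000000 * sq n ^ 3 := by
    refine (sum_fM_van (30 * n) (n + 1) (by omega) (fun y => P (30 * n) y ^ 2)
      (fun y => ((tp y + tm y - 2 * tau n c : ℝ) : ℂ))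
      (36 * sq n ^ 2) (12 * sq n) 25200 (by norm_num) ?_ ?_ ?_ ?_).trans ?_
    · intro i hi
      rw [norm_pow]
      calc ‖P (30 * n) i‖ ^ 2 ≤ (6 * sq n) ^ 2 := pow_le_pow_left₀ (norm_nonneg _) (hP1 i hi) 2
        _ = _ := by ring
    · intro i hi
      have h1 : P (30 * n) (i + 1) ^ 2 - P (30 * n) i ^ 2 =
          (P (30 * n) (i + 1) - P (30 * n) i) * (P (30 * n) (i + 1) + P (30 * n) i) := by ring
      show ‖P (30 * n) (i + 1) ^ 2 - P (30 * n) i ^ 2‖ ≤ _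
      rw [h1, norm_mul]
      have h2 : ‖P (30 * n) (i + 1) - P (30 * n) i‖ = 1 := by
        rw [P_succ, add_sub_cancel_left, eM_norm]
      rw [h2, one_mul]
      refine (norm_add_le _ _).trans ?_
      have h3 := hP1 (i + 1) hi
      have h4 := hP1 i hi.le
      linarith
    · intro i hi
      rw [Complex.norm_real, Real.norm_eq_abs]
      have h1 := htpc i hi
      have h2 := htmc i hi
      have h3 : tp i + tm i - 2 * tau n c = (tp i - tau n c) + (tm i - tau n c) := by ring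
      rw [h3]
      refine (abs_add_le _ _).trans ?_
      have h4 := tau_div n hn (840 * (i + 1))
      have h5 : (840 * ((i : ℝ) + 1)) / n = 420 * i / n + 420 * i / n + 840 / n := by ring
      have h6 : (0 : ℝ) ≤ 840 / n := by positivity
      have h7 : (25200 : ℝ) * ((i + 1) / ((30 * n : ℕ) : ℝ)) = 30 * (840 * (i + 1)) / (30 * n : ℕ) := by ring
      rw [h7, ← h4]
      linarith
    · intro i hi
      show ‖((tp (i + 1) + tm (i + 1) - 2 * tau n c : ℝ) : ℂ) - ((tp i + tm i - 2 * tau n c : ℝ) : ℂ)‖ ≤ _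
      rw [← Complex.ofReal_sub, Complex.norm_real, Real.norm_eq_abs]
      have h1 := stp i hi
      have h2 := stm i hi
      have h3 : tp (i + 1) + tm (i + 1) - 2 * tau n c - (tp i + tm i - 2 * tau n c) =
        (tp (i + 1) - tp i) + (tm (i + 1) - tm i) := by ring
      rw [h3]
      refine (abs_add_le _ _).trans ?_
      have h4 := tau_div n hn 840
      have h5 : (840 : ℝ) / n = 420 / n + 420 / n := by ring
      norm_num at h4 ⊢
      linarith
    · have f1 : 12 * sq n * ((n + 1 : ℕ) : ℝ) ≤ 12 * sq n ^ 3 := by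
        calc 12 * sq n * ((n + 1 : ℕ) : ℝ) ≤ 12 * sq n * sq n ^ 2 := by gcongr
          _ = _ := by ring
      have f2 : 6 * (36 * sq n ^ 2) * Real.sqrt ((n + 1 : ℕ) : ℝ) ≤ 216 * sq n ^ 3 := by
        calc 6 * (36 * sq n ^ 2) * Real.sqrt ((n + 1 : ℕ) : ℝ) ≤ 6 * (36 * sq n ^ 2) * sq n := by gcongr
          _ = _ := by ring
      have f3 : sq n ^ 2 ≤ sq n ^ 3 := pow_le_pow_right₀ hs (by norm_num)
      have f4 : 0 ≤ sq n ^ 3 := by positivity
      have h1 : 2 * (36 * sq n ^ 2) + 2 * (12 * sq n) * ((n + 1 : ℕ) : ℝ) +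
          6 * (36 * sq n ^ 2) * Real.sqrt ((n + 1 : ℕ) : ℝ) ≤ 312 * sq n ^ 3 := by linarith
      linarith
  have hfin : ‖κ * (a ^ 2 * ∑ y ∈ range (n + 1), fM (30 * n) y * ((tp y + tm y : ℝ) : ℂ) +
        2 * a * b * ∑ y ∈ range (n + 1), fM (30 * n) y * (P (30 * n) y * ((tp y - tm y : ℝ) : ℂ)) +
        (b : ℂ) ^ 2 * ∑ y ∈ range (n + 1), fM (30 * n) y * (P (30 * n) y ^ 2 *
          ((tp y + tm y - 2 * tau n c : ℝ) : ℂ)))‖ ≤ 9 * 10 ^ 14 * sq n ^ 4 := by
    rw [norm_mul]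
    have g1 : ‖a ^ 2 * ∑ y ∈ range (n + 1), fM (30 * n) y * ((tp y + tm y : ℝ) : ℂ)‖ ≤
        (3800 * sq n) ^ 2 * (151200 * sq n) := by
      rw [norm_mul, norm_pow]; gcongr
    have g2 : ‖2 * a * b * ∑ y ∈ range (n + 1), fM (30 * n) y * (P (30 * n) y * ((tp y - tm y : ℝ) : ℂ))‖ ≤
        2 * (3800 * sq n) * 4 * (1260000 * sq n ^ 2) := by
      rw [norm_mul, norm_mul, norm_mul]
      simp only [Complex.norm_ofNat]
      gcongr
    have g3 : ‖(b : ℂ) ^ 2 * ∑ y ∈ range (n + 1), fM (30 * n) y * (P (30 * n) y ^ 2 *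
          ((tp y + tm y - 2 * tau n c : ℝ) : ℂ))‖ ≤ 4 ^ 2 * (8000000 * sq n ^ 3) := by
      rw [norm_mul, norm_pow]; gcongr
    have g4 := (norm_add_le (a ^ 2 * ∑ y ∈ range (n + 1), fM (30 * n) y * ((tp y + tm y : ℝ) : ℂ) +
        2 * a * b * ∑ y ∈ range (n + 1), fM (30 * n) y * (P (30 * n) y * ((tp y - tm y : ℝ) : ℂ)))
        ((b : ℂ) ^ 2 * ∑ y ∈ range (n + 1), fM (30 * n) y * (P (30 * n) y ^ 2 *
          ((tp y + tm y - 2 * tau n c : ℝ) : ℂ)))).trans
      (add_le_add ((norm_add_le _ _).trans (add_le_add g1 g2)) g3)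
    calc ‖κ‖ * _ ≤ (360 * sq n) * ((3800 * sq n) ^ 2 * (151200 * sq n) +
          2 * (3800 * sq n) * 4 * (1260000 * sq n ^ 2) + 4 ^ 2 * (8000000 * sq n ^ 3)) :=
          mul_le_mul hκn g4 (norm_nonneg _) (by positivity)
      _ = (360 * (3800 ^ 2 * 151200 + 2 * 3800 * 4 * 1260000 + 4 ^ 2 * 8000000) : ℝ) * sq n ^ 4 := by ring
      _ ≤ _ := mul_le_mul_of_nonneg_right (by norm_num) (by positivity)
  rw [← key] at hfin
  exact hfin

end Pool.Agent.L0h28.Aec
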