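import Mathlib
import Pool.Agent.L0h28.Aec.Near

/-!
# The asymptotics of the whole sum
-/

set_option autoImplicit false

open Finset H524R3

namespace Pool.Agent.L0h28.Aec

theorem n_le_sq (n : ℕ) (hn : 1 ≤ n) : ((n + 1 : ℕ) : ℝ) ≤ sq n ^ 2 := by
  rw [sq_sq]
  have : (1 : ℝ) ≤ n := by exact_mod_cast hn
  push_cast; linarith

/-- The range next to 0. -/
theorem zero_le_sum (n : ℕ) (hn : 1 ≤ n) :
    ‖∑ l ∈ Ico 1 (n + 1), ZZ n l‖ ≤ 10 ^ 10 * sq n ^ 4 := by
  have hn0 : (0 : ℝ) < n := by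
    have : 0 < n := hn
    exact_mod_cast this
  have hss := sq_sq n
  have h : ∀ l ∈ Ico 1 (n + 1), ‖ZZ n l‖ ≤ 8000000 * (210 * n) := by
    intro l hl
    rw [mem_Ico] at hl
    have hl0 : (1 : ℝ) ≤ l := by exact_mod_cast hl.1
    have hA : ‖SA n l‖ ≤ 200 := by
      have h1 := SS_fwd (30 * n) (by omega) ⟨15 * n, by ring⟩ (9 / 28) (5 / 28)
        (by rw [abs_of_pos] <;> norm_num) (by rw [abs_of_pos] <;> norm_num) 0 l (by omega)
      rw [mul_zero, zero_add, SS_zero, bb_zero, sub_zero, Complex.ofReal_zero, zero_mul, sub_zero] at h1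
      exact h1
    have hB : ‖SB n l‖ ≤ 200 := by
      have h1 := SS_fwd (28 * n) (by omega) ⟨14 * n, by ring⟩ (4 / 15) (1 / 15)
        (by rw [abs_of_pos] <;> norm_num) (by rw [abs_of_pos] <;> norm_num) 0 l (by omega)
      rw [mul_zero, zero_add, SS_zero, bb_zero, sub_zero, Complex.ofReal_zero, zero_mul, sub_zero] at h1
      exact h1
    have hs := sin_ge n hn l (by omega)
    have hs1 : 1 / (210 * n) ≤ Real.sin (Real.pi * l / (420 * n)) := by
      refine le_trans ?_ hs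
      gcongr
    have hs0 : (0 : ℝ) < 1 / (210 * n) := by positivity
    have ht : |tau n l| ≤ 210 * n := by
      unfold tau
      rw [abs_inv, abs_of_pos (lt_of_lt_of_le hs0 hs1)]
      calc (Real.sin (Real.pi * l / (420 * n)))⁻¹ ≤ (1 / (210 * (n : ℝ)))⁻¹ := inv_anti₀ hs0 hs1
        _ = _ := by rw [one_div, inv_inv]
    unfold ZZ YY
    rw [norm_mul, fM_norm, one_mul, norm_mul, norm_mul, norm_pow, RCLike.norm_conj, Complex.norm_real,
      Real.norm_eq_abs]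
    calc ‖SA n l‖ ^ 2 * ‖SB n l‖ * |tau n l| ≤ 200 ^ 2 * 200 * (210 * n) := by gcongr
      _ = _ := by ring
  refine (norm_sum_le _ _).trans ((Finset.sum_le_sum h).trans ?_)
  rw [Finset.sum_const, Nat.card_Ico, nsmul_eq_mul, Nat.add_sub_cancel]
  have h2 : sq n ^ 4 = (30 * (n : ℝ)) ^ 2 := by rw [← hss]; ring
  rw [h2]
  nlinarith [sq_nonneg (n : ℝ)]

/-- The resonances m = 1, ..., 6. -/
theorem near_le (n : ℕ) (hn : 1 ≤ n) (m : ℕ) (hm1 : 1 ≤ m) (hm : m ≤ 6) :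
    ‖∑ y ∈ range (n + 1), ZZ n (30 * n * m + y) + ∑ y ∈ range (n + 1), ZZ n (30 * n * m - y) -
      (starRingEnd ℂ) (kap n m) * (bA m : ℂ) ^ 2 * (2 * ((tau n (30 * n * m) : ℝ) : ℂ)) * JJ n‖ ≤
      10 ^ 15 * sq n ^ 4 := by
  have hmod := model_le n hn m hm1 hm
  have hmn1 : 30 * n ≤ 30 * n * m := by nlinarith
  have hs0 : 0 ≤ sq n := Real.sqrt_nonneg _
  have h1 : ‖∑ y ∈ range (n + 1), ZZ n (30 * n * m + y) -
      ∑ y ∈ range (n + 1), fM (30 * n) y * ((SA n (30 * n * m) + bA m * P (30 * n) y) ^ 2 *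
        (starRingEnd ℂ) (kap n m) * ((tau n (30 * n * m + y) : ℝ) : ℂ))‖ ≤ 2 * 10 ^ 13 * sq n ^ 4 := by
    rw [← Finset.sum_sub_distrib]
    refine (norm_sum_le _ _).trans ?_
    calc _ ≤ ∑ y ∈ range (n + 1), 2 * 10 ^ 13 * sq n ^ 2 := by
          refine Finset.sum_le_sum fun y hy => ?_
          rw [mem_range] at hy
          unfold ZZ
          rw [fM_res_add n hn, ← mul_sub, norm_mul, fM_norm, one_mul]
          exact YY_right n hn m y hm1 hm (by omega)
      _ = ((n + 1 : ℕ) : ℝ) * (2 * 10 ^ 13 * sq n ^ 2) := by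
          rw [Finset.sum_const, card_range, nsmul_eq_mul]
      _ ≤ sq n ^ 2 * (2 * 10 ^ 13 * sq n ^ 2) :=
          mul_le_mul_of_nonneg_right (n_le_sq n hn) (by positivity)
      _ = _ := by ring
  have h2 : ‖∑ y ∈ range (n + 1), ZZ n (30 * n * m - y) -
      ∑ y ∈ range (n + 1), fM (30 * n) y * ((SA n (30 * n * m) - bA m * P (30 * n) y) ^ 2 *
        (starRingEnd ℂ) (kap n m) * ((tau n (30 * n * m - y) : ℝ) : ℂ))‖ ≤ 2 * 10 ^ 13 * sq n ^ 4 := by
    rw [← Finset.sum_sub_distrib]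
    refine (norm_sum_le _ _).trans ?_
    calc _ ≤ ∑ y ∈ range (n + 1), 2 * 10 ^ 13 * sq n ^ 2 := by
          refine Finset.sum_le_sum fun y hy => ?_
          rw [mem_range] at hy
          unfold ZZ
          rw [fM_res_sub n hn m y (by omega), ← mul_sub, norm_mul, fM_norm, one_mul]
          exact YY_left n hn m y hm1 (by omega) (by omega)
      _ = ((n + 1 : ℕ) : ℝ) * (2 * 10 ^ 13 * sq n ^ 2) := by
          rw [Finset.sum_const, card_range, nsmul_eq_mul]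
      _ ≤ sq n ^ 2 * (2 * 10 ^ 13 * sq n ^ 2) :=
          mul_le_mul_of_nonneg_right (n_le_sq n hn) (by positivity)
      _ = _ := by ring
  have h3 : ∀ A B A' B' C : ℂ, A + B - C = (A - A') + (B - B') + (A' + B' - C) := by intros; ring
  rw [h3 _ _ (∑ y ∈ range (n + 1), fM (30 * n) y * ((SA n (30 * n * m) + bA m * P (30 * n) y) ^ 2 *
        (starRingEnd ℂ) (kap n m) * ((tau n (30 * n * m + y) : ℝ) : ℂ)))
      (∑ y ∈ range (n + 1), fM (30 * n) y * ((SA n (30 * n * m) - bA m * P (30 * n) y) ^ 2 *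
        (starRingEnd ℂ) (kap n m) * ((tau n (30 * n * m - y) : ℝ) : ℂ)))]
  refine (norm_add_le _ _).trans ?_
  have h4 := (norm_add_le _ _).trans (add_le_add h1 h2)
  have h5 : 0 ≤ sq n ^ 4 := by positivity
  linarith

theorem bA_seven : bA 7 = 0 := by
  unfold bA bb
  have h1 : Real.cos (2 * Real.pi * (7 : ℕ) * (9 / 28)) = 0 := by
    rw [show 2 * Real.pi * (7 : ℕ) * (9 / 28) = Real.pi / 2 + (2 : ℕ) * (2 * Real.pi) by push_cast; ring,
      Real.cos_add_nat_mul_two_pi, Real.cos_pi_div_two]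
  have h2 : Real.cos (2 * Real.pi * (7 : ℕ) * (5 / 28)) = 0 := by
    rw [show 2 * Real.pi * (7 : ℕ) * (5 / 28) = Real.pi / 2 + (1 : ℕ) * (2 * Real.pi) by push_cast; ring,
      Real.cos_add_nat_mul_two_pi, Real.cos_pi_div_two]
  rw [h1, h2]; ring

/-- The left half of the window around the resonance 7, in the middle of the range. -/
theorem last_le (n : ℕ) (hn : 1 ≤ n) :
    ‖∑ y ∈ range (n + 1), ZZ n (30 * n * 7 - y)‖ ≤ 10 ^ 15 * sq n ^ 4 := by
  have hs := sq_ge_one n hn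
  have hs0 : 0 ≤ sq n := by linarith
  have hn0 : (0 : ℝ) < n := by
    have : 0 < n := hn
    exact_mod_cast this
  have h2 : ‖∑ y ∈ range (n + 1), ZZ n (30 * n * 7 - y) -
      ∑ y ∈ range (n + 1), fM (30 * n) y * ((SA n (30 * n * 7) - bA 7 * P (30 * n) y) ^ 2 *
        (starRingEnd ℂ) (kap n 7) * ((tau n (30 * n * 7 - y) : ℝ) : ℂ))‖ ≤ 2 * 10 ^ 13 * sq n ^ 4 := by
    rw [← Finset.sum_sub_distrib]
    refine (norm_sum_le _ _).trans ?_
    calc _ ≤ ∑ y ∈ range (n + 1), 2 * 10 ^ 13 * sq n ^ 2 := by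
          refine Finset.sum_le_sum fun y hy => ?_
          rw [mem_range] at hy
          unfold ZZ
          rw [fM_res_sub n hn 7 y (by omega), ← mul_sub, norm_mul, fM_norm, one_mul]
          exact YY_left n hn 7 y (by norm_num) le_rfl (by omega)
      _ = ((n + 1 : ℕ) : ℝ) * (2 * 10 ^ 13 * sq n ^ 2) := by
          rw [Finset.sum_const, card_range, nsmul_eq_mul]
      _ ≤ sq n ^ 2 * (2 * 10 ^ 13 * sq n ^ 2) :=
          mul_le_mul_of_nonneg_right (n_le_sq n hn) (by positivity)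
      _ = _ := by ring
  have h3 : ∑ y ∈ range (n + 1), fM (30 * n) y * ((SA n (30 * n * 7) - bA 7 * P (30 * n) y) ^ 2 *
        (starRingEnd ℂ) (kap n 7) * ((tau n (30 * n * 7 - y) : ℝ) : ℂ)) =
      (SA n (30 * n * 7) ^ 2 * (starRingEnd ℂ) (kap n 7)) *
        ∑ y ∈ range (n + 1), fM (30 * n) y * ((tau n (30 * n * 7 - y) : ℝ) : ℂ) := by
    rw [Finset.mul_sum]
    refine Finset.sum_congr rfl fun y _ => ?_
    rw [bA_seven]
    push_cast
    ring
  have h4 : ‖∑ y ∈ range (n + 1), fM (30 * n) y * ((tau n (30 * n * 7 - y) : ℝ) : ℂ)‖ ≤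
      6 * 12600 * sq n := by
    refine (sum_fM_le (30 * n) (n + 1) (by omega) (fun y => ((tau n (30 * n * 7 - y) : ℝ) : ℂ)) 12600
      ?_ ?_).trans (le_of_eq ?_)
    · intro i hi
      rw [Complex.norm_real, Real.norm_eq_abs]
      exact (tau_abs n hn _ (by omega) (by omega)).trans (by norm_num)
    · intro i hi
      show ‖((tau n (30 * n * 7 - (i + 1)) : ℝ) : ℂ) - ((tau n (30 * n * 7 - i) : ℝ) : ℂ)‖ ≤ _
      rw [← Complex.ofReal_sub, Complex.norm_real, Real.norm_eq_abs]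
      refine (tau_lip n hn _ _ (by omega) (by omega) (by omega) (by omega)).trans (le_of_eq ?_)
      rw [Nat.cast_sub (by omega), Nat.cast_sub (by omega)]
      push_cast
      rw [show (30 : ℝ) * n * 7 - (i + 1) - (30 * n * 7 - i) = -1 by ring, abs_neg, abs_one]
      field_simp
      norm_num
    · unfold sq; ring
  have h5 : ‖(SA n (30 * n * 7) ^ 2 * (starRingEnd ℂ) (kap n 7)) *
        ∑ y ∈ range (n + 1), fM (30 * n) y * ((tau n (30 * n * 7 - y) : ℝ) : ℂ)‖ ≤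
        4 * 10 ^ 14 * sq n ^ 4 := by
    rw [norm_mul, norm_mul, norm_pow, RCLike.norm_conj]
    have g1 := SA_norm n hn (30 * n * 7) (by omega)
    have g2 := kap_norm n 7 le_rfl
    calc _ ≤ (3800 * sq n) ^ 2 * (360 * sq n) * (6 * 12600 * sq n) := by gcongr
      _ = (3800 ^ 2 * 360 * (6 * 12600) : ℝ) * sq n ^ 4 := by ring
      _ ≤ _ := mul_le_mul_of_nonneg_right (by norm_num) (by positivity)
  rw [h3] at h2
  have h6 := norm_add_le (∑ y ∈ range (n + 1), ZZ n (30 * n * 7 - y) - (SA n (30 * n * 7) ^ 2 *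
    (starRingEnd ℂ) (kap n 7)) * ∑ y ∈ range (n + 1), fM (30 * n) y * ((tau n (30 * n * 7 - y) : ℝ) : ℂ))
    ((SA n (30 * n * 7) ^ 2 * (starRingEnd ℂ) (kap n 7)) *
        ∑ y ∈ range (n + 1), fM (30 * n) y * ((tau n (30 * n * 7 - y) : ℝ) : ℂ))
  rw [sub_add_cancel] at h6
  have h7 : 0 ≤ sq n ^ 4 := by positivity
  linarith

/-- A window around c. -/
theorem window_split (Z : ℕ → ℂ) (c n : ℕ) (hc : n ≤ c) :
    ∑ l ∈ Ico (c - n) (c + n + 1), Z l =
      ∑ y ∈ range (n + 1), Z (c + y) + ∑ y ∈ range (n + 1), Z (c - y) - Z c := by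
  have h1 : ∑ l ∈ Ico (c - n) (c + n + 1), Z l =
      ∑ l ∈ Ico (c - n) c, Z l + ∑ l ∈ Ico c (c + n + 1), Z l := by
    rw [Finset.sum_Ico_consecutive _ (by omega) (by omega)]
  have h2 : ∑ l ∈ Ico c (c + n + 1), Z l = ∑ y ∈ range (n + 1), Z (c + y) := by
    rw [Finset.sum_Ico_eq_sum_range]
    congr 2
    omega
  have h3 : ∑ l ∈ Ico (c - n) (c + 1), Z l = ∑ y ∈ range (n + 1), Z (c - y) := by
    rw [Finset.sum_Ico_eq_sum_range, show c + 1 - (c - n) = n + 1 by omega,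
      ← Finset.sum_range_reflect (fun y => Z (c - y))]
    refine Finset.sum_congr rfl fun y hy => ?_
    rw [mem_range] at hy
    congr 1
    omega
  have h4 : ∑ l ∈ Ico (c - n) (c + 1), Z l = ∑ l ∈ Ico (c - n) c, Z l + Z c :=
    Finset.sum_Ico_succ_top (by omega) _
  rw [h1, h2]
  rw [h3] at h4
  rw [h4]
  ring

theorem left_window (Z : ℕ → ℂ) (c n : ℕ) (hc : n ≤ c) :
    ∑ l ∈ Ico (c - n) (c + 1), Z l = ∑ y ∈ range (n + 1), Z (c - y) := by
  rw [Finset.sum_Ico_eq_sum_range, show c + 1 - (c - n) = n + 1 by omega,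
    ← Finset.sum_range_reflect (fun y => Z (c - y))]
  refine Finset.sum_congr rfl fun y hy => ?_
  rw [mem_range] at hy
  congr 1
  omega

/-- The partial sum up to the right end of the window around the resonance k. -/
theorem partial_le (n : ℕ) (hn : 1 ≤ n) (k : ℕ) (hk : k ≤ 6) :
    ‖∑ l ∈ Ico 1 (30 * n * k + n + 1), ZZ n l -
      ∑ m ∈ range k, (starRingEnd ℂ) (kap n (m + 1)) * (bA (m + 1) : ℂ) ^ 2 *
        (2 * ((tau n (30 * n * (m + 1)) : ℝ) : ℂ)) * JJ n‖ ≤ (10 ^ 10 + 2 * 10 ^ 19 * k) * sq n ^ 4 := by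
  have hs := sq_ge_one n hn
  induction k with
  | zero =>
    have := zero_le_sum n hn
    simpa using this
  | succ k ih =>
    have ih' := ih (by omega)
    have hkn : 30 * n * k ≤ 150 * n := by nlinarith
    have hmul : 30 * n * (k + 1) = 30 * n * k + 30 * n := by ring
    have hfar := far_le n hn k (by omega)
    have hnear := near_le n hn (k + 1) (by omega) hk
    have hZ := ZZ_norm n hn (30 * n * (k + 1)) (by omega) (by omega)
    have hsplit : ∑ l ∈ Ico 1 (30 * n * (k + 1) + n + 1), ZZ n l =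
        ∑ l ∈ Ico 1 (30 * n * k + n + 1), ZZ n l +
          ∑ l ∈ Ico (30 * n * k + n + 1) (30 * n * k + 29 * n), ZZ n l +
          (∑ y ∈ range (n + 1), ZZ n (30 * n * (k + 1) + y) + ∑ y ∈ range (n + 1), ZZ n (30 * n * (k + 1) - y) -
            ZZ n (30 * n * (k + 1))) := by
      rw [← window_split (ZZ n) (30 * n * (k + 1)) n (by omega)]
      rw [Finset.sum_Ico_consecutive _ (by omega) (by omega)]
      rw [show 30 * n * (k + 1) - n = 30 * n * k + 29 * n by omega]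
      rw [Finset.sum_Ico_consecutive _ (by omega) (by omega)]
    rw [hsplit, Finset.sum_range_succ (fun m => (starRingEnd ℂ) (kap n (m + 1)) * (bA (m + 1) : ℂ) ^ 2 *
        (2 * ((tau n (30 * n * (m + 1)) : ℝ) : ℂ)) * JJ n)]
    have h3 : ∀ A B C D E' F' G : ℂ, A + B + (C + D - E') - (F' + G) =
        (A - F') + B + (C + D - G) - E' := by intros; ring
    rw [h3]
    have g1 := norm_sub_le ((∑ l ∈ Ico 1 (30 * n * k + n + 1), ZZ n l -
      ∑ m ∈ range k, (starRingEnd ℂ) (kap n (m + 1)) * (bA (m + 1) : ℂ) ^ 2 *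
        (2 * ((tau n (30 * n * (m + 1)) : ℝ) : ℂ)) * JJ n) +
          ∑ l ∈ Ico (30 * n * k + n + 1) (30 * n * k + 29 * n), ZZ n l +
          (∑ y ∈ range (n + 1), ZZ n (30 * n * (k + 1) + y) + ∑ y ∈ range (n + 1), ZZ n (30 * n * (k + 1) - y) -
            (starRingEnd ℂ) (kap n (k + 1)) * (bA (k + 1) : ℂ) ^ 2 *
              (2 * ((tau n (30 * n * (k + 1)) : ℝ) : ℂ)) * JJ n)) (ZZ n (30 * n * (k + 1)))
    have g2 := norm_add_le ((∑ l ∈ Ico 1 (30 * n * k + n + 1), ZZ n l -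
      ∑ m ∈ range k, (starRingEnd ℂ) (kap n (m + 1)) * (bA (m + 1) : ℂ) ^ 2 *
        (2 * ((tau n (30 * n * (m + 1)) : ℝ) : ℂ)) * JJ n) +
          ∑ l ∈ Ico (30 * n * k + n + 1) (30 * n * k + 29 * n), ZZ n l)
          (∑ y ∈ range (n + 1), ZZ n (30 * n * (k + 1) + y) + ∑ y ∈ range (n + 1), ZZ n (30 * n * (k + 1) - y) -
            (starRingEnd ℂ) (kap n (k + 1)) * (bA (k + 1) : ℂ) ^ 2 *
              (2 * ((tau n (30 * n * (k + 1)) : ℝ) : ℂ)) * JJ n)
    have g3 := norm_add_le (∑ l ∈ Ico 1 (30 * n * k + n + 1), ZZ n l -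
      ∑ m ∈ range k, (starRingEnd ℂ) (kap n (m + 1)) * (bA (m + 1) : ℂ) ^ 2 *
        (2 * ((tau n (30 * n * (m + 1)) : ℝ) : ℂ)) * JJ n)
          (∑ l ∈ Ico (30 * n * k + n + 1) (30 * n * k + 29 * n), ZZ n l)
    have e5 : sq n ^ 3 ≤ sq n ^ 4 := pow_le_pow_right₀ hs (by norm_num)
    have e6 : 0 ≤ sq n ^ 4 := by positivity
    push_cast
    refine g1.trans ?_
    refine (add_le_add (g2.trans (add_le_add (g3.trans (add_le_add ih' hfar)) hnear)) hZ).trans ?_
    linarith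

/-- The sum of the resonances. -/
noncomputable def DD : ℝ := ∑ m ∈ range 6, gam (m + 1) * bA (m + 1) ^ 2 / Real.sin (Real.pi * (m + 1) / 14)

theorem half_le (n : ℕ) (hn : 1 ≤ n) :
    ‖∑ l ∈ Ico 1 (210 * n + 1), ZZ n l -
      2 * (starRingEnd ℂ) (P (28 * n) (14 * n)) * (DD : ℂ) * JJ n‖ ≤ 2 * 10 ^ 20 * sq n ^ 4 := by
  have hs := sq_ge_one n hn
  have hn0 : (n : ℝ) ≠ 0 := by
    have : n ≠ 0 := by omega
    exact_mod_cast this
  have h1 := partial_le n hn 6 le_rfl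
  have hfar := far_le n hn 6 le_rfl
  have hlast := last_le n hn
  have hsplit : ∑ l ∈ Ico 1 (210 * n + 1), ZZ n l =
      ∑ l ∈ Ico 1 (30 * n * 6 + n + 1), ZZ n l +
        ∑ l ∈ Ico (30 * n * 6 + n + 1) (30 * n * 6 + 29 * n), ZZ n l +
          ∑ y ∈ range (n + 1), ZZ n (30 * n * 7 - y) := by
    rw [← left_window (ZZ n) (30 * n * 7) n (by omega)]
    rw [Finset.sum_Ico_consecutive _ (by omega) (by omega)]
    rw [show 30 * n * 7 - n = 30 * n * 6 + 29 * n by omega]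
    rw [Finset.sum_Ico_consecutive _ (by omega) (by omega)]
    congr 2
    omega
  have hD : ∑ m ∈ range 6, (starRingEnd ℂ) (kap n (m + 1)) * (bA (m + 1) : ℂ) ^ 2 *
        (2 * ((tau n (30 * n * (m + 1)) : ℝ) : ℂ)) * JJ n =
      2 * (starRingEnd ℂ) (P (28 * n) (14 * n)) * (DD : ℂ) * JJ n := by
    unfold DD
    push_cast
    rw [Finset.mul_sum, Finset.sum_mul]
    refine Finset.sum_congr rfl fun m _ => ?_
    unfold kap tau
    rw [map_mul, Complex.conj_ofReal]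
    have h2 : Real.pi * ((30 * n * (m + 1) : ℕ) : ℝ) / (420 * n) = Real.pi * (m + 1) / 14 := by
      push_cast
      field_simp
      norm_num
    rw [h2]
    push_cast
    ring
  rw [hD] at h1
  rw [hsplit]
  have h3 : ∀ A B C D : ℂ, A + B + C - D = (A - D) + B + C := by intros; ring
  rw [h3]
  have g1 := norm_add_le ((∑ l ∈ Ico 1 (30 * n * 6 + n + 1), ZZ n l -
    2 * (starRingEnd ℂ) (P (28 * n) (14 * n)) * (DD : ℂ) * JJ n) +
        ∑ l ∈ Ico (30 * n * 6 + n + 1) (30 * n * 6 + 29 * n), ZZ n l)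
          (∑ y ∈ range (n + 1), ZZ n (30 * n * 7 - y))
  have g2 := norm_add_le (∑ l ∈ Ico 1 (30 * n * 6 + n + 1), ZZ n l -
    2 * (starRingEnd ℂ) (P (28 * n) (14 * n)) * (DD : ℂ) * JJ n)
      (∑ l ∈ Ico (30 * n * 6 + n + 1) (30 * n * 6 + 29 * n), ZZ n l)
  have e6 : 0 ≤ sq n ^ 4 := by positivity
  refine g1.trans ((add_le_add (g2.trans (add_le_add h1 hfar)) hlast).trans ?_)
  push_cast
  linarith

end Pool.Agent.L0h28.Aec
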