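import Mathlib
import Pool.Agent.L0h28.Aec.Total

/-!
# Positivity of the sum over the resonances
-/

set_option autoImplicit false

open Finset H524R3

namespace Pool.Agent.L0h28.Aec

theorem bA_eq (m : ℕ) : bA m = (-1) ^ m * (-4 * Real.sin (Real.pi * m / 2) * Real.sin (Real.pi * m / 7)) := by
  unfold bA bb
  rw [show 2 * Real.cos (2 * Real.pi * m * (9 / 28)) - 2 * Real.cos (2 * Real.pi * m * (5 / 28)) =
    2 * (Real.cos (2 * Real.pi * m * (9 / 28)) - Real.cos (2 * Real.pi * m * (5 / 28))) by ring,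
    Real.cos_sub_cos]
  rw [show (2 * Real.pi * (m : ℝ) * (9 / 28) + 2 * Real.pi * m * (5 / 28)) / 2 = Real.pi * m / 2 by ring,
    show (2 * Real.pi * (m : ℝ) * (9 / 28) - 2 * Real.pi * m * (5 / 28)) / 2 = Real.pi * m / 7 by ring]
  ring

theorem bB_eq (m : ℕ) : bB m = (-1) ^ m * (-4 * Real.sin (Real.pi * m / 3) * Real.sin (Real.pi * m / 5)) := by
  unfold bB bb
  rw [show 2 * Real.cos (2 * Real.pi * m * (4 / 15)) - 2 * Real.cos (2 * Real.pi * m * (1 / 15)) =
    2 * (Real.cos (2 * Real.pi * m * (4 / 15)) - Real.cos (2 * Real.pi * m * (1 / 15))) by ring,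
    Real.cos_sub_cos]
  rw [show (2 * Real.pi * (m : ℝ) * (4 / 15) + 2 * Real.pi * m * (1 / 15)) / 2 = Real.pi * m / 3 by ring,
    show (2 * Real.pi * (m : ℝ) * (4 / 15) - 2 * Real.pi * m * (1 / 15)) / 2 = Real.pi * m / 5 by ring]
  ring

theorem bA_two : bA 2 = 0 := by
  rw [bA_eq, show Real.pi * (2 : ℕ) / 2 = Real.pi by push_cast; ring, Real.sin_pi]; ring

theorem bA_four : bA 4 = 0 := by
  rw [bA_eq, show Real.pi * (4 : ℕ) / 2 = 2 * Real.pi by push_cast; ring, Real.sin_two_pi]; ring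

theorem bA_six : bA 6 = 0 := by
  rw [bA_eq, show Real.pi * (6 : ℕ) / 2 = Real.pi + 2 * Real.pi by push_cast; ring,
    Real.sin_add_two_pi, Real.sin_pi]; ring

theorem bA_one_sq : bA 1 ^ 2 = 16 * Real.sin (Real.pi / 7) ^ 2 := by
  rw [bA_eq, show Real.pi * (1 : ℕ) / 2 = Real.pi / 2 by push_cast; ring, Real.sin_pi_div_two,
    show Real.pi * (1 : ℕ) / 7 = Real.pi / 7 by push_cast; ring]; ring

theorem bA_three_sq : bA 3 ^ 2 = 16 * Real.sin (3 * Real.pi / 7) ^ 2 := by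
  rw [bA_eq, show Real.pi * (3 : ℕ) / 2 = Real.pi / 2 + Real.pi by push_cast; ring, Real.sin_add_pi,
    Real.sin_pi_div_two, show Real.pi * (3 : ℕ) / 7 = 3 * Real.pi / 7 by push_cast; ring]; ring

theorem bA_five_sq : bA 5 ^ 2 = 16 * Real.sin (2 * Real.pi / 7) ^ 2 := by
  rw [bA_eq, show Real.pi * (5 : ℕ) / 2 = Real.pi / 2 + 2 * Real.pi by push_cast; ring,
    Real.sin_add_two_pi, Real.sin_pi_div_two,
    show Real.pi * (5 : ℕ) / 7 = Real.pi - 2 * Real.pi / 7 by push_cast; ring, Real.sin_pi_sub]; ring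

/-- 4 sin (π/3) sin (π/5) -/
noncomputable def tt : ℝ := 4 * Real.sin (Real.pi / 3) * Real.sin (Real.pi / 5)

theorem tt_pos : 0 < tt := by
  unfold tt
  have h1 : 0 < Real.sin (Real.pi / 3) :=
    Real.sin_pos_of_pos_of_lt_pi (by positivity) (by linarith [Real.pi_pos])
  have h2 : 0 < Real.sin (Real.pi / 5) :=
    Real.sin_pos_of_pos_of_lt_pi (by positivity) (by linarith [Real.pi_pos])
  positivity

theorem bB_zero : bB 0 = 0 := bb_zero _ _

theorem bB_one : bB 1 = tt := by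
  rw [bB_eq, tt, show Real.pi * (1 : ℕ) / 3 = Real.pi / 3 by push_cast; ring,
    show Real.pi * (1 : ℕ) / 5 = Real.pi / 5 by push_cast; ring]; ring

theorem bB_two : bB 2 = -(2 * Real.cos (Real.pi / 5)) * tt := by
  rw [bB_eq, tt, show Real.pi * (2 : ℕ) / 3 = Real.pi - Real.pi / 3 by push_cast; ring, Real.sin_pi_sub,
    show Real.pi * (2 : ℕ) / 5 = 2 * (Real.pi / 5) by push_cast; ring, Real.sin_two_mul]; ring

theorem bB_three : bB 3 = 0 := by
  rw [bB_eq, show Real.pi * (3 : ℕ) / 3 = Real.pi by push_cast; ring, Real.sin_pi]; ring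

theorem bB_four : bB 4 = tt := by
  rw [bB_eq, tt, show Real.pi * (4 : ℕ) / 3 = Real.pi / 3 + Real.pi by push_cast; ring, Real.sin_add_pi,
    show Real.pi * (4 : ℕ) / 5 = Real.pi - Real.pi / 5 by push_cast; ring, Real.sin_pi_sub]; ring

theorem bB_five : bB 5 = 0 := by
  rw [bB_eq, show Real.pi * (5 : ℕ) / 5 = Real.pi by push_cast; ring, Real.sin_pi]; ring

theorem gam_sum (m : ℕ) : gam (m + 1) = gam m + 2 * bB (m + 1) := by
  unfold gam
  rw [aa_succ]
  unfold bB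
  ring

theorem gam_zero : gam 0 = 0 := by
  unfold gam aa
  rw [bB_zero]
  simp

theorem gam_one : gam 1 = 2 * tt := by rw [gam_sum, gam_zero, bB_one]; ring

theorem gam_three : gam 3 = 2 * tt * (1 - 2 * Real.cos (Real.pi / 5)) := by
  rw [gam_sum, gam_sum, gam_one, bB_two, bB_three]; ring

theorem gam_five : gam 5 = 2 * tt * (2 - 2 * Real.cos (Real.pi / 5)) := by
  rw [gam_sum, gam_sum, gam_three, bB_four, bB_five]; ring

theorem DD_pos : 0 < DD := by
  set c := Real.cos (Real.pi / 7) with hc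
  have hpi := Real.pi_pos
  have hpi2 := Real.pi_lt_d2
  have hc1 : 0.898 ≤ c := by
    have h1 := Real.one_sub_sq_div_two_le_cos (x := Real.pi / 7)
    have h2 : (Real.pi / 7) ^ 2 ≤ (3.15 / 7) ^ 2 := by
      refine pow_le_pow_left₀ (by positivity) ?_ 2
      linarith
    rw [← hc] at h1
    norm_num at h2
    linarith
  have hc2 : c ≤ 1 := Real.cos_le_one _
  have hB : Real.cos (2 * Real.pi / 7) = 2 * c ^ 2 - 1 := by
    rw [hc, ← Real.cos_two_mul]; congr 1; ring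
  have hA : Real.cos (3 * Real.pi / 7) = 4 * c ^ 3 - 3 * c := by
    rw [hc, ← Real.cos_three_mul]; congr 1; ring
  have h4 : Real.cos (4 * Real.pi / 7) = -Real.cos (3 * Real.pi / 7) := by
    rw [show 4 * Real.pi / 7 = Real.pi - 3 * Real.pi / 7 by ring, Real.cos_pi_sub]
  have h4' : Real.cos (4 * Real.pi / 7) = 2 * (2 * c ^ 2 - 1) ^ 2 - 1 := by
    rw [← hB, ← Real.cos_two_mul]; congr 1; ring
  have hcub : 8 * c ^ 3 - 4 * c ^ 2 - 4 * c + 1 = 0 := by
    have h5 : (c + 1) * (8 * c ^ 3 - 4 * c ^ 2 - 4 * c + 1) = 0 := by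
      rw [h4', hA] at h4
      linear_combination h4
    rcases mul_eq_zero.mp h5 with h6 | h6
    · linarith
    · exact h6
  have hA' : Real.cos (3 * Real.pi / 7) = 2 * c ^ 2 - c - 1 / 2 := by rw [hA]; linarith
  have s1 : Real.sin (Real.pi / 14) = 2 * c ^ 2 - c - 1 / 2 := by
    rw [← hA', ← Real.cos_pi_div_two_sub]; congr 1; ring
  have s3 : Real.sin (3 * Real.pi / 14) = 2 * c ^ 2 - 1 := by
    rw [← hB, ← Real.cos_pi_div_two_sub]; congr 1; ring
  have s5 : Real.sin (5 * Real.pi / 14) = c := by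
    rw [hc, ← Real.cos_pi_div_two_sub]; congr 1; ring
  have q1 : Real.sin (Real.pi / 7) ^ 2 = 1 - c ^ 2 := by rw [Real.sin_sq, hc]
  have q3 : Real.sin (3 * Real.pi / 7) ^ 2 = 1 - (2 * c ^ 2 - c - 1 / 2) ^ 2 := by rw [Real.sin_sq, hA']
  have q5 : Real.sin (2 * Real.pi / 7) ^ 2 = 1 - (2 * c ^ 2 - 1) ^ 2 := by rw [Real.sin_sq, hB]
  have p1 : 0 < 2 * c ^ 2 - c - 1 / 2 := by nlinarith
  have p3 : 0 < 2 * c ^ 2 - 1 := by nlinarith
  have p5 : 0 < c := by linarith
  have r1 : Real.sin (Real.pi / 7) ^ 2 / Real.sin (Real.pi / 14) = 4 * c ^ 2 - c - 3 / 2 := by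
    rw [s1, q1, div_eq_iff p1.ne']
    linear_combination (-c + 1 / 4) * hcub
  have r3 : Real.sin (3 * Real.pi / 7) ^ 2 / Real.sin (3 * Real.pi / 14) = 2 * c ^ 2 + c - 1 := by
    rw [s3, q3, div_eq_iff p3.ne']
    linear_combination (-c - 1 / 4) * hcub
  have r5 : Real.sin (2 * Real.pi / 7) ^ 2 / Real.sin (5 * Real.pi / 14) = -2 * c ^ 2 + 2 * c + 1 / 2 := by
    rw [s5, q5, div_eq_iff p5.ne']
    linear_combination (-c / 2) * hcub
  have hphi : Real.cos (Real.pi / 5) = (1 + Real.sqrt 5) / 4 := Real.cos_pi_div_five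
  have hs5 : Real.sqrt 5 ≤ 2.24 := by
    rw [Real.sqrt_le_left (by norm_num)]; norm_num
  have hval : DD = 32 * tt * ((2 * c ^ 2 + 4 * c - 3 / 2) - 2 * Real.cos (Real.pi / 5) * (3 * c - 1 / 2)) := by
    unfold DD
    rw [Finset.sum_range_succ, Finset.sum_range_succ, Finset.sum_range_succ, Finset.sum_range_succ,
      Finset.sum_range_succ, Finset.sum_range_succ, Finset.sum_range_zero]
    simp only [Nat.reduceAdd, bA_two, bA_four, bA_six, bA_one_sq, bA_three_sq, bA_five_sq, gam_one,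
      gam_three, gam_five]
    have a1 : Real.pi * (((0 : ℕ) : ℝ) + 1) / 14 = Real.pi / 14 := by push_cast; ring
    have a3 : Real.pi * (((2 : ℕ) : ℝ) + 1) / 14 = 3 * Real.pi / 14 := by push_cast; ring
    have a5 : Real.pi * (((4 : ℕ) : ℝ) + 1) / 14 = 5 * Real.pi / 14 := by push_cast; ring
    rw [a1, a3, a5]
    have b1 : 2 * tt * (16 * Real.sin (Real.pi / 7) ^ 2) / Real.sin (Real.pi / 14) =
        32 * tt * (Real.sin (Real.pi / 7) ^ 2 / Real.sin (Real.pi / 14)) := by ring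
    have b3 : 2 * tt * (1 - 2 * Real.cos (Real.pi / 5)) * (16 * Real.sin (3 * Real.pi / 7) ^ 2) /
        Real.sin (3 * Real.pi / 14) = 32 * tt * (1 - 2 * Real.cos (Real.pi / 5)) *
          (Real.sin (3 * Real.pi / 7) ^ 2 / Real.sin (3 * Real.pi / 14)) := by ring
    have b5 : 2 * tt * (2 - 2 * Real.cos (Real.pi / 5)) * (16 * Real.sin (2 * Real.pi / 7) ^ 2) /
        Real.sin (5 * Real.pi / 14) = 32 * tt * (2 - 2 * Real.cos (Real.pi / 5)) *
          (Real.sin (2 * Real.pi / 7) ^ 2 / Real.sin (5 * Real.pi / 14)) := by ring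
    rw [b1, b3, b5, r1, r3, r5]
    ring
  rw [hval]
  have ht := tt_pos
  have hpos : 0 < (2 * c ^ 2 + 4 * c - 3 / 2) - 2 * Real.cos (Real.pi / 5) * (3 * c - 1 / 2) := by
    rw [hphi]
    have h5 : 2 * ((1 + Real.sqrt 5) / 4) * (3 * c - 1 / 2) ≤ 1.62 * (3 * c - 1 / 2) := by
      refine mul_le_mul_of_nonneg_right ?_ (by linarith)
      linarith
    nlinarith
  positivity

end Pool.Agent.L0h28.Aec
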