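import Mathlib
import Pool.Agent.L0h28.Aec.Dpos

/-!
# The growth of the whole sum
-/

set_option autoImplicit false

open Finset H524R3 Filter Topology

namespace Pool.Agent.L0h28.Aec

theorem reflect_sum (Z : ℕ → ℂ) (N : ℕ) (hN : 1 ≤ N) (hsym : ∀ l, 1 ≤ l → l < 2 * N → Z (2 * N - l) = Z l) :
    ∑ l ∈ Ico 1 (2 * N), Z l = 2 * ∑ l ∈ Ico 1 (N + 1), Z l - Z N := by
  have h1 : ∑ l ∈ Ico 1 (2 * N), Z l = ∑ l ∈ Ico 1 N, Z l + ∑ l ∈ Ico N (2 * N), Z l := by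
    rw [Finset.sum_Ico_consecutive _ hN (by omega)]
  have h2 : ∑ l ∈ Ico N (2 * N), Z l = ∑ l ∈ Ico 1 (N + 1), Z l := by
    have h3 := Finset.sum_Ico_reflect (fun l => Z l) 1 (m := N + 1) (n := 2 * N) (by omega)
    have h4 : 2 * N + 1 - (N + 1) = N := by omega
    have h5 : 2 * N + 1 - 1 = 2 * N := by omega
    rw [h4, h5] at h3
    rw [← h3]
    refine Finset.sum_congr rfl fun l hl => ?_
    rw [mem_Ico] at hl
    exact hsym l (by omega) (by omega)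
  have h3 : ∑ l ∈ Ico 1 (N + 1), Z l = ∑ l ∈ Ico 1 N, Z l + Z N := Finset.sum_Ico_succ_top hN _
  rw [h1, h2, h3]
  ring

/-- The main term. -/
noncomputable def MT (n : ℕ) : ℂ :=
  (2 * Complex.I / Real.pi) * (starRingEnd ℂ) (P (28 * n) (14 * n)) * P (30 * n) (15 * n) * (DD : ℂ) *
    ((30 * n : ℕ) : ℂ) * ((Real.log (30 * n : ℕ) : ℝ) : ℂ)

theorem full_le (n : ℕ) (hn : 1 ≤ n) (hsym : ∀ l, 1 ≤ l → l < 2 * (210 * n) → ZZ n (2 * (210 * n) - l) = ZZ n l) :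
    ‖∑ l ∈ Ico 1 (2 * (210 * n)), ZZ n l - MT n‖ ≤ (5 * 10 ^ 20 + 30000 * DD) * sq n ^ 4 := by
  have hs := sq_ge_one n hn
  have hss := sq_sq n
  have hD := DD_pos
  rw [reflect_sum (ZZ n) (210 * n) (by omega) hsym]
  have h1 := half_le n hn
  have h2 := J_asym n hn
  have h3 := ZZ_norm n hn (210 * n) (by omega) le_rfl
  set T := ∑ l ∈ Ico 1 (210 * n + 1), ZZ n l with hT
  set Q' := (starRingEnd ℂ) (P (28 * n) (14 * n)) with hQ'
  have hQn : ‖Q'‖ ≤ 6 * sq n := by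
    rw [hQ', RCLike.norm_conj]
    have h4 := P_norm_le_sqrt (28 * n) (14 * n) (by omega)
    have h5 := sq28 n
    linarith
  have hpc : (Real.pi : ℂ) ≠ 0 := by exact_mod_cast Real.pi_ne_zero
  have key : 2 * T - ZZ n (210 * n) - MT n = 2 * (T - 2 * Q' * (DD : ℂ) * JJ n) +
      4 * Q' * (DD : ℂ) * (JJ n - Complex.I / (2 * Real.pi) * P (30 * n) (15 * n) * ((30 * n : ℕ) : ℂ) *
          ((Real.log (30 * n : ℕ) : ℝ) : ℂ)) - ZZ n (210 * n) := by
    unfold MT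
    rw [← hQ']
    field_simp
    ring
  rw [key]
  have e1 : ‖2 * (T - 2 * Q' * (DD : ℂ) * JJ n)‖ ≤ 4 * 10 ^ 20 * sq n ^ 4 := by
    rw [norm_mul]; simp only [Complex.norm_ofNat]; linarith
  have hJ : ‖JJ n - Complex.I / (2 * Real.pi) * P (30 * n) (15 * n) * ((30 * n : ℕ) : ℂ) *
          ((Real.log (30 * n : ℕ) : ℝ) : ℂ)‖ ≤ 1100 * sq n ^ 3 := by
    refine h2.trans (le_of_eq ?_)
    have : ((30 * n : ℕ) : ℝ) = sq n ^ 2 := by rw [hss]; push_cast; ring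
    rw [this]
    have h5 : Real.sqrt ((30 * n : ℕ) : ℝ) = sq n := rfl
    rw [← this, h5, this]
    ring
  have e2 : ‖4 * Q' * (DD : ℂ) * (JJ n - Complex.I / (2 * Real.pi) * P (30 * n) (15 * n) *
      ((30 * n : ℕ) : ℂ) * ((Real.log (30 * n : ℕ) : ℝ) : ℂ))‖ ≤ 26400 * DD * sq n ^ 4 := by
    rw [norm_mul, norm_mul, norm_mul, Complex.norm_real, Real.norm_eq_abs, abs_of_pos hD]
    simp only [Complex.norm_ofNat]
    calc _ ≤ 4 * (6 * sq n) * DD * (1100 * sq n ^ 3) := by gcongr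
      _ = _ := by ring
  have e5 : sq n ^ 3 ≤ sq n ^ 4 := pow_le_pow_right₀ hs (by norm_num)
  have e6 : 0 ≤ sq n ^ 4 := by positivity
  have g1 := norm_sub_le (2 * (T - 2 * Q' * (DD : ℂ) * JJ n) +
      4 * Q' * (DD : ℂ) * (JJ n - Complex.I / (2 * Real.pi) * P (30 * n) (15 * n) * ((30 * n : ℕ) : ℂ) *
          ((Real.log (30 * n : ℕ) : ℝ) : ℂ))) (ZZ n (210 * n))
  have g2 := norm_add_le (2 * (T - 2 * Q' * (DD : ℂ) * JJ n))
      (4 * Q' * (DD : ℂ) * (JJ n - Complex.I / (2 * Real.pi) * P (30 * n) (15 * n) * ((30 * n : ℕ) : ℂ) *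
          ((Real.log (30 * n : ℕ) : ℝ) : ℂ)))
  have h7 : 0 ≤ DD * sq n ^ 4 := by positivity
  refine g1.trans ((add_le_add (g2.trans (add_le_add e1 e2)) h3).trans ?_)
  nlinarith

theorem MT_norm (n : ℕ) (hn : 1 ≤ n) : ‖MT n‖ = 2 / Real.pi * ‖P (28 * n) (14 * n)‖ *
    ‖P (30 * n) (15 * n)‖ * DD * sq n ^ 2 * Real.log (30 * n : ℕ) := by
  have hss := sq_sq n
  have h1 : (1 : ℝ) ≤ ((30 * n : ℕ) : ℝ) := by
    have : 1 ≤ 30 * n := by omega
    exact_mod_cast this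
  unfold MT
  rw [norm_mul, norm_mul, norm_mul, norm_mul, norm_mul, norm_div, norm_mul, Complex.norm_I,
    RCLike.norm_conj, Complex.norm_real, Complex.norm_real, Complex.norm_real, Complex.norm_natCast,
    Real.norm_eq_abs, Real.norm_eq_abs, Real.norm_eq_abs, abs_of_pos Real.pi_pos, abs_of_pos DD_pos,
    abs_of_nonneg (Real.log_nonneg h1), hss]
  simp only [Complex.norm_ofNat, mul_one]
  push_cast
  ring

theorem MT_le (n : ℕ) (hn : 1 ≤ n) : ‖MT n‖ ≤ 36 * DD * sq n ^ 4 * Real.log (30 * n : ℕ) := by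
  rw [MT_norm n hn]
  have hD := DD_pos
  have h1 : (1 : ℝ) ≤ ((30 * n : ℕ) : ℝ) := by
    have : 1 ≤ 30 * n := by omega
    exact_mod_cast this
  have hlog := Real.log_nonneg h1
  have hs0 : 0 ≤ sq n := Real.sqrt_nonneg _
  have h2 : ‖P (28 * n) (14 * n)‖ ≤ 6 * sq n := by
    have h4 := P_norm_le_sqrt (28 * n) (14 * n) (by omega)
    have h5 := sq28 n
    linarith
  have h3 : ‖P (30 * n) (15 * n)‖ ≤ 6 * sq n := P_norm_le_sqrt (30 * n) (15 * n) (by omega)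
  have h4 : 2 / Real.pi ≤ 1 := by
    rw [div_le_one Real.pi_pos]; linarith [Real.pi_gt_three]
  calc _ ≤ 1 * (6 * sq n) * (6 * sq n) * DD * sq n ^ 2 * Real.log (30 * n : ℕ) := by gcongr
    _ = _ := by ring

theorem MT_ge (n : ℕ) (hn : 1 ≤ n) (hs : 400 ≤ sq n) :
    1 / 20 * DD * sq n ^ 4 * Real.log (30 * n : ℕ) ≤ ‖MT n‖ := by
  rw [MT_norm n hn]
  have hD := DD_pos
  have h1 : (1 : ℝ) ≤ ((30 * n : ℕ) : ℝ) := by
    have : 1 ≤ 30 * n := by omega
    exact_mod_cast this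
  have hlog := Real.log_nonneg h1
  have hss := sq_sq n
  have hs0 : 0 ≤ sq n := by linarith
  have h2 : 3 / 8 * sq n ≤ ‖P (30 * n) (15 * n)‖ := by
    have h := abs_le.mp (P_half_norm (15 * n) (by omega))
    have e : 2 * (15 * n) = 30 * n := by ring
    rw [e] at h
    have h5 : Real.sqrt ((30 * n : ℕ) : ℝ) = sq n := rfl
    rw [h5] at h
    linarith [h.1]
  have h3 : 3 / 10 * sq n ≤ ‖P (28 * n) (14 * n)‖ := by
    have h := abs_le.mp (P_half_norm (14 * n) (by omega))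
    have e : 2 * (14 * n) = 28 * n := by ring
    rw [e] at h
    have h5 : 9 / 10 * sq n ≤ Real.sqrt ((28 * n : ℕ) : ℝ) := by
      refine Real.le_sqrt_of_sq_le ?_
      rw [mul_pow, hss]
      push_cast
      have : (0 : ℝ) ≤ n := Nat.cast_nonneg n
      linarith
    linarith [h.1]
  have h4 : 1 / 2 ≤ 2 / Real.pi := by
    rw [div_le_div_iff₀ (by norm_num) Real.pi_pos]; linarith [Real.pi_le_four]
  calc 1 / 20 * DD * sq n ^ 4 * Real.log (30 * n : ℕ) ≤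
        (1 / 2 * (3 / 10 * sq n) * (3 / 8 * sq n)) * DD * sq n ^ 2 * Real.log (30 * n : ℕ) := by
        have h6 : 0 ≤ DD * sq n ^ 4 * Real.log (30 * n : ℕ) := by positivity
        nlinarith
    _ ≤ _ := by gcongr

theorem sq_pow_four (n : ℕ) : sq n ^ 4 = 900 * (n : ℝ) ^ 2 := by
  have := sq_sq n
  have h : sq n ^ 4 = (sq n ^ 2) ^ 2 := by ring
  rw [h, this]; ring

/-- The two sided estimate of the whole sum. -/
theorem growth : ∃ c C : ℝ, 0 < c ∧ 0 < C ∧ ∃ n₀ : ℕ, ∀ n : ℕ, n₀ ≤ n →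
    (∀ l, 1 ≤ l → l < 2 * (210 * n) → ZZ n (2 * (210 * n) - l) = ZZ n l) →
      c * (n : ℝ) ^ 2 * Real.log n ≤ ‖∑ l ∈ Ico 1 (2 * (210 * n)), ZZ n l‖ ∧
      ‖∑ l ∈ Ico 1 (2 * (210 * n)), ZZ n l‖ ≤ C * (n : ℝ) ^ 2 * Real.log n := by
  have hD := DD_pos
  set K : ℝ := 5 * 10 ^ 20 + 30000 * DD with hK
  have hK0 : 0 < K := by positivity
  -- n₀ large enough: sq n ≥ 400 and K ≤ (1/40) DD log n
  obtain ⟨n₁, hn₁⟩ : ∃ n₁ : ℕ, ∀ n : ℕ, n₁ ≤ n → K ≤ 1 / 40 * DD * Real.log n := by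
    have h1 : Tendsto (fun n : ℕ => 1 / 40 * DD * Real.log n) atTop atTop :=
      (Real.tendsto_log_atTop.comp tendsto_natCast_atTop_atTop).const_mul_atTop (by positivity)
    exact Filter.eventually_atTop.mp (h1.eventually (eventually_ge_atTop K))
  refine ⟨900 * (1 / 40 * DD), 900 * (72 * DD + 1 / 40 * DD), by positivity, by positivity,
    max n₁ 16000, fun n hn hsym => ?_⟩
  have hn1 := hn₁ n (le_trans (le_max_left _ _) hn)
  have hn2 : 16000 ≤ n := le_trans (le_max_right _ _) hn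
  have hnpos : 1 ≤ n := by omega
  have hnr : (16000 : ℝ) ≤ n := by exact_mod_cast hn2
  have hs : 400 ≤ sq n := by
    unfold sq
    refine Real.le_sqrt_of_sq_le ?_
    push_cast
    linarith
  have hfull := full_le n hnpos hsym
  have hge := MT_ge n hnpos hs
  have hle := MT_le n hnpos
  rw [sq_pow_four] at hfull hge hle
  set S := ∑ l ∈ Ico 1 (2 * (210 * n)), ZZ n l with hS
  have hlog1 : Real.log n ≤ Real.log (30 * n : ℕ) := by
    refine Real.log_le_log (by linarith) ?_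
    push_cast; linarith
  have hlog2 : Real.log (30 * n : ℕ) ≤ 2 * Real.log n := by
    rw [show 2 * Real.log (n : ℝ) = Real.log ((n : ℝ) ^ 2) by rw [Real.log_pow]; norm_num]
    refine Real.log_le_log (by push_cast; linarith) ?_
    push_cast
    nlinarith
  have hn2pos : (0 : ℝ) ≤ 900 * (n : ℝ) ^ 2 := by positivity
  have hA : ‖MT n‖ - ‖S - MT n‖ ≤ ‖S‖ := by
    have := norm_sub_norm_le (MT n) (MT n - S)
    rw [sub_sub_cancel, norm_sub_rev (MT n) S] at this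
    exact this
  have hB : ‖S‖ ≤ ‖S - MT n‖ + ‖MT n‖ := by
    have := norm_add_le (S - MT n) (MT n)
    rwa [sub_add_cancel] at this
  have e1 : K * (900 * (n : ℝ) ^ 2) ≤ 1 / 40 * DD * Real.log n * (900 * (n : ℝ) ^ 2) :=
    mul_le_mul_of_nonneg_right hn1 hn2pos
  have e2 : 1 / 20 * DD * (900 * (n : ℝ) ^ 2) * Real.log n ≤
      1 / 20 * DD * (900 * (n : ℝ) ^ 2) * Real.log (30 * n : ℕ) :=
    mul_le_mul_of_nonneg_left hlog1 (by positivity)
  have e3 : 36 * DD * (900 * (n : ℝ) ^ 2) * Real.log (30 * n : ℕ) ≤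
      36 * DD * (900 * (n : ℝ) ^ 2) * (2 * Real.log n) :=
    mul_le_mul_of_nonneg_left hlog2 (by positivity)
  constructor
  · nlinarith
  · nlinarith

end Pool.Agent.L0h28.Aec
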