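import Mathlib
import Pool.Agent.L0h28.Aec.Branch
import Pool.Agent.L0h28.Aec.Growth
import Pool.Agent.H524R3.NoExpGen
import Pool.Agent.H524R3.ExpDefs

/-!
# The growth of the invariants of the homology sphere
-/

set_option autoImplicit false

open Finset H524R3 Filter Topology

namespace Pool.Agent.L0h28.Aec

theorem even_sum (T : ℕ → ℂ) (R : ℕ) (hR : 1 ≤ R) :
    ∑ v ∈ Ico 1 (2 * R), (1 + (-1) ^ v) * T v = 2 * ∑ l ∈ Ico 1 R, T (2 * l) := by
  induction R, hR using Nat.le_induction with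
  | base =>
    simp [Finset.sum_Ico_succ_top]
  | succ R hR ih =>
    rw [show 2 * (R + 1) = 2 * R + 1 + 1 by ring, Finset.sum_Ico_succ_top (by omega),
      Finset.sum_Ico_succ_top (by omega), ih, Finset.sum_Ico_succ_top hR]
    have h1 : ((-1 : ℂ)) ^ (2 * R) = 1 := by rw [pow_mul]; norm_num
    have h2 : ((-1 : ℂ)) ^ (2 * R + 1) = -1 := by rw [pow_succ, h1]; ring
    rw [h1, h2]
    ring

/-- The sum of a function with T (r - v) = (-1)^v T v. -/
theorem sym_sum (T : ℕ → ℂ) (R : ℕ) (hR : 1 ≤ R)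
    (hT : ∀ v, 1 ≤ v → v < 2 * R → T (2 * R - v) = (-1) ^ v * T v) :
    ∑ v ∈ Icc 1 (2 * R - 1), T v = ∑ l ∈ Ico 1 R, T (2 * l) := by
  have h1 := Icc_reflect (2 * R) (by omega) T
  have h2 : ∑ l ∈ Icc 1 (2 * R - 1), T (2 * R - l) = ∑ l ∈ Icc 1 (2 * R - 1), (-1) ^ l * T l := by
    refine Finset.sum_congr rfl fun l hl => ?_
    rw [mem_Icc] at hl
    exact hT l hl.1 (by omega)
  have h3 : Icc 1 (2 * R - 1) = Ico 1 (2 * R) := by
    ext x; simp only [mem_Icc, mem_Ico]; omega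
  have h4 := even_sum T R hR
  have h5 : ∑ v ∈ Ico 1 (2 * R), (1 + (-1) ^ v) * T v =
      ∑ v ∈ Ico 1 (2 * R), T v + ∑ v ∈ Ico 1 (2 * R), (-1) ^ v * T v := by
    rw [← Finset.sum_add_distrib]
    exact Finset.sum_congr rfl fun v _ => by ring
  rw [h2, h3] at h1
  rw [h5, h1] at h4
  rw [h3]
  have h6 : (2 : ℂ) ≠ 0 := two_ne_zero
  apply mul_left_cancel₀ h6
  rw [← h4]; ring

/-- The summand of the closed formula. -/
noncomputable def TS (r v : ℕ) : ℂ := (twist r v ^ (14 : ℤ) / (sm r 1 v : ℝ)) *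
      branch r (-2) 2 (-3) v * branch r (-3) 3 2 v * branch r (-2) 2 (-3) v

theorem TS_reflect (n : ℕ) (hn : 0 < n) (v : ℕ) (hv : v ≤ 840 * n) :
    TS (840 * n) (840 * n - v) = (-1) ^ v * TS (840 * n) v := by
  have hr' : ((840 * n : ℕ) : ℝ) ≠ 0 := by
    have : 840 * n ≠ 0 := by omega
    exact_mod_cast this
  obtain ⟨K₁, -, h1⟩ := branch_A n hn
  obtain ⟨K₂, -, h2⟩ := branch_B n hn
  unfold TS
  rw [h1, h2, h1, h2, nd_A_reflect n hn v hv, nd_B_reflect n hn v hv]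
  have e1 : twist (840 * n) (840 * n - v) ^ (14 : ℤ) = twist (840 * n) v ^ (14 : ℤ) := by
    rw [twist_zpow, twist_zpow]
    have h3 : (((14 : ℤ) : ℝ)) * ((((840 * n - v : ℕ) : ℝ) ^ 2 - 1) / (2 * ((840 * n : ℕ) : ℝ))) =
        (((14 : ℤ) : ℝ)) * (((v : ℝ) ^ 2 - 1) / (2 * ((840 * n : ℕ) : ℝ))) +
          ((2 * (7 * (420 * n - v)) : ℤ) : ℝ) := by
      rw [Nat.cast_sub hv]
      push_cast
      field_simp
      ring
    rw [h3, E_add, E_even _ (even_two_mul _), mul_one]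
  have e2 : sm (840 * n) 1 (840 * n - v) = sm (840 * n) 1 v := by
    unfold sm
    congr 1
    have h3 : Real.pi * (((1 : ℕ) : ℝ) * ((840 * n - v : ℕ) : ℝ) / ((840 * n : ℕ) : ℝ)) =
        Real.pi - Real.pi * (((1 : ℕ) : ℝ) * (v : ℝ) / ((840 * n : ℕ) : ℝ)) := by
      rw [Nat.cast_sub hv]; field_simp; push_cast; ring
    rw [h3, Real.sin_pi_sub]
  rw [e1, e2]
  ring

/-- The summand in even colours. -/
theorem TS_even (n : ℕ) (hn : 0 < n) : ∃ K : ℂ, ‖K‖ = 1 / (4 * (840 * n)) ∧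
    ∀ l : ℕ, TS (840 * n) (2 * l) = K * ZZ n l := by
  have hn0 : (0 : ℝ) < n := by exact_mod_cast hn
  obtain ⟨K₁, hK₁, h1⟩ := branch_A n hn
  obtain ⟨K₂, hK₂, h2⟩ := branch_B n hn
  set r : ℕ := 840 * n with hr
  have hrr : (r : ℝ) = 840 * n := by rw [hr]; push_cast; ring
  have hr0 : (0 : ℝ) < r := by rw [hrr]; positivity
  have hsq : Real.sqrt (2 / (r : ℝ)) ^ 2 = 2 / r := Real.sq_sqrt (by positivity)
  have hs0 : 0 < Real.sqrt (2 / (r : ℝ)) := Real.sqrt_pos.mpr (by positivity)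
  refine ⟨E (-14 / (2 * r)) / ((Real.sqrt (2 / r) : ℝ) : ℂ) * (K₁ * GG r 14 1) ^ 2 *
    (K₂ * GG r 15 (-1)), ?_, fun l => ?_⟩
  · have h3 : (‖E (-14 / (2 * r)) / ((Real.sqrt (2 / r) : ℝ) : ℂ) * (K₁ * GG r 14 1) ^ 2 *
        (K₂ * GG r 15 (-1))‖) ^ 2 = (1 / (4 * (840 * (n : ℝ)))) ^ 2 := by
      rw [norm_mul, norm_mul, norm_div, E_norm, norm_pow, norm_mul, norm_mul, Complex.norm_real,
        Real.norm_eq_abs, abs_of_pos hs0]
      have h4 : (1 / Real.sqrt (2 / (r : ℝ)) * (‖K₁‖ * ‖GG r 14 1‖) ^ 2 * (‖K₂‖ * ‖GG r 15 (-1)‖)) ^ 2 =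
          1 / Real.sqrt (2 / (r : ℝ)) ^ 2 * (‖K₁‖ ^ 2 * ‖GG r 14 1‖ ^ 2) ^ 2 *
            (‖K₂‖ ^ 2 * ‖GG r 15 (-1)‖ ^ 2) := by ring
      rw [h4, hsq, hK₁, hK₂, hr, GG_A n hn, GG_B n hn, ← hr, hrr]
      field_simp
      norm_num
    have h5 : (0 : ℝ) ≤ 1 / (4 * (840 * n)) := by positivity
    exact (pow_left_inj₀ (norm_nonneg _) h5 two_ne_zero).mp h3
  · unfold TS ZZ YY
    rw [h1, h2, nd_A n hn, nd_B n hn]
    have e1 : twist r (2 * l) ^ (14 : ℤ) = E (-14 / (2 * r)) * fM (30 * n) l := by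
      rw [twist_zpow]
      unfold fM
      rw [← E_add]
      congr 1
      rw [hrr]
      push_cast
      field_simp
      ring
    have e2 : (((sm r 1 (2 * l) : ℝ) : ℂ))⁻¹ = (((Real.sqrt (2 / r) : ℝ) : ℂ))⁻¹ * ((tau n l : ℝ) : ℂ) := by
      unfold sm tau
      rw [← Complex.ofReal_inv, ← Complex.ofReal_inv, ← Complex.ofReal_mul]
      congr 1
      rw [mul_inv]
      congr 3
      rw [hrr]
      push_cast
      field_simp
      ring
    rw [e1, div_eq_mul_inv, e2]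
    ring

theorem ZZ_sym (n : ℕ) (hn : 0 < n) (l : ℕ) (hl : l < 2 * (210 * n)) :
    ZZ n (2 * (210 * n) - l) = ZZ n l := by
  obtain ⟨K, hK, h⟩ := TS_even n hn
  have hn0 : (0 : ℝ) < n := by exact_mod_cast hn
  have hK0 : K ≠ 0 := by
    rw [← norm_pos_iff, hK]; positivity
  have h1 := TS_reflect n hn (2 * l) (by omega)
  have h2 : 840 * n - 2 * l = 2 * (2 * (210 * n) - l) := by omega
  rw [h2, h, h, pow_mul] at h1
  norm_num at h1
  rcases h1 with h3 | h3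
  · exact h3
  · exact absurd h3 hK0

theorem wrt_norm (n : ℕ) (hn : 0 < n) :
    ‖sphereTree.wrt (840 * n)‖ = 1 / (4 * (840 * n)) * ‖∑ l ∈ Ico 1 (2 * (210 * n)), ZZ n l‖ := by
  obtain ⟨K, hK, h⟩ := TS_even n hn
  rw [wrt_eq (840 * n) (by omega)]
  have h1 : ∑ v ∈ Icc 1 (840 * n - 1), TS (840 * n) v = ∑ l ∈ Ico 1 (2 * (210 * n)), TS (840 * n) (2 * l) := by
    have := sym_sum (TS (840 * n)) (2 * (210 * n)) (by omega) (by
      intro v hv1 hv2
      have e : 2 * (2 * (210 * n)) = 840 * n := by ring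
      rw [e]
      exact TS_reflect n hn v (by omega))
    rw [show 2 * (2 * (210 * n)) = 840 * n by ring] at this
    exact this
  have h2 : ∑ v ∈ Icc 1 (840 * n - 1), (twist (840 * n) v ^ (14 : ℤ) / (sm (840 * n) 1 v : ℝ)) *
      branch (840 * n) (-2) 2 (-3) v * branch (840 * n) (-3) 3 2 v * branch (840 * n) (-2) 2 (-3) v =
      ∑ v ∈ Icc 1 (840 * n - 1), TS (840 * n) v := rfl
  rw [h2, h1, Finset.sum_congr rfl fun l _ => h l, ← Finset.mul_sum, norm_mul, hK]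

/-- The growth of the invariants. -/
theorem wrt_growth : ∃ c C : ℝ, 0 < c ∧ 0 < C ∧ ∃ n₀ : ℕ, ∀ n : ℕ, n₀ ≤ n →
    c * ((840 * n : ℕ) : ℝ) * Real.log (840 * n : ℕ) ≤ ‖sphereTree.wrt (840 * n)‖ ∧
    ‖sphereTree.wrt (840 * n)‖ ≤ C * ((840 * n : ℕ) : ℝ) * Real.log (840 * n : ℕ) := by
  obtain ⟨c, C, hc, hC, n₀, h⟩ := growth
  refine ⟨c / (8 * 840 ^ 2), C / (4 * 840 ^ 2), by positivity, by positivity, max n₀ 840, fun n hn => ?_⟩
  have hn1 : n₀ ≤ n := le_trans (le_max_left _ _) hn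
  have hn2 : 840 ≤ n := le_trans (le_max_right _ _) hn
  have hn0 : 0 < n := by omega
  have hnr : (840 : ℝ) ≤ n := by exact_mod_cast hn2
  obtain ⟨hl, hu⟩ := h n hn1 (fun l _ h2 => ZZ_sym n hn0 l h2)
  rw [wrt_norm n hn0]
  have hlog1 : Real.log n ≤ Real.log (840 * n : ℕ) := by
    refine Real.log_le_log (by linarith) ?_
    push_cast; linarith
  have hlog2 : Real.log (840 * n : ℕ) ≤ 2 * Real.log n := by
    rw [show 2 * Real.log (n : ℝ) = Real.log ((n : ℝ) ^ 2) by rw [Real.log_pow]; norm_num]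
    refine Real.log_le_log (by push_cast; linarith) ?_
    push_cast
    nlinarith
  constructor
  · calc c / (8 * 840 ^ 2) * ((840 * n : ℕ) : ℝ) * Real.log (840 * n : ℕ) ≤
          c / (8 * 840 ^ 2) * ((840 * n : ℕ) : ℝ) * (2 * Real.log n) := by gcongr
      _ = 1 / (4 * (840 * (n : ℝ))) * (c * (n : ℝ) ^ 2 * Real.log n) := by
          push_cast; field_simp; ring
      _ ≤ _ := by gcongr
  · calc 1 / (4 * (840 * (n : ℝ))) * ‖∑ l ∈ Ico 1 (2 * (210 * n)), ZZ n l‖ ≤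
          1 / (4 * (840 * (n : ℝ))) * (C * (n : ℝ) ^ 2 * Real.log n) := by gcongr
      _ = C / (4 * 840 ^ 2) * ((840 * n : ℕ) : ℝ) * Real.log n := by
          push_cast; field_simp
      _ ≤ _ := by gcongr

/-- No asymptotic expansion. -/
theorem no_expansion (ω : ℕ → ℂ) (hω : ∀ k, ‖ω k‖ = 1) :
    ¬ HasExpansion 2 (fun k => ω k * sphereTree.wrt (k + 2)) := by
  obtain ⟨c₀, C₀, hc₀, hC₀, n₀, hgr⟩ := wrt_growth
  rintro ⟨m, c, d, b, a, hexp⟩
  set D : ℝ := univ.sup' univ_nonempty d with hD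
  obtain ⟨L, hL⟩ : ∃ L : ℕ, D - ((L : ℝ) + 1) / 2 ≤ 1 := by
    obtain ⟨L, hL⟩ := exists_nat_ge (2 * (D - 1))
    exact ⟨L, by linarith⟩
  obtain ⟨C₁, k₀, hC₁⟩ := hexp L
  let ι := Fin (m + 1) × ℕ
  let β : ι → ℂ := fun i => b i.1 * (if i.2 = 0 then 1 else a i.1 i.2)
  let z : ι → ℂ := fun i => Complex.exp (2 * Real.pi * Complex.I * (840 * (c i.1 : ℂ)))
  let e : ι → ℝ := fun i => d i.1 - (i.2 : ℝ) / 2
  let x : ℕ → ℝ := fun n => ((840 * n : ℕ) : ℝ)
  let F : ℕ → ℂ := fun n => ω (840 * n - 2) * sphereTree.wrt (840 * n)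
  have hz : ∀ i, ‖z i‖ = 1 := by
    intro i
    show ‖Complex.exp (2 * Real.pi * Complex.I * (840 * (c i.1 : ℂ)))‖ = 1
    rw [show 2 * (Real.pi : ℂ) * Complex.I * (840 * (c i.1 : ℂ)) =
      ((2 * Real.pi * (840 * c i.1) : ℝ) : ℂ) * Complex.I by push_cast; ring]
    exact Complex.norm_exp_ofReal_mul_I _
  have hx : Tendsto x atTop atTop := by
    have h1 : Tendsto (fun n : ℕ => 840 * (n : ℝ)) atTop atTop :=
      tendsto_natCast_atTop_atTop.const_mul_atTop (by norm_num)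
    refine h1.congr fun n => ?_
    show 840 * (n : ℝ) = ((840 * n : ℕ) : ℝ)
    push_cast; ring
  have hFn : ∀ n, ‖F n‖ = ‖sphereTree.wrt (840 * n)‖ := by
    intro n
    show ‖ω (840 * n - 2) * sphereTree.wrt (840 * n)‖ = _
    rw [norm_mul, hω, one_mul]
  have hF : ∀ᶠ n : ℕ in atTop, ‖F n‖ ≤ C₀ * ((x n) ^ (1 : ℝ) * (1 + Real.log (x n))) := by
    filter_upwards [eventually_ge_atTop n₀, hx.eventually (eventually_ge_atTop 1)] with n hn hn'
    rw [hFn, Real.rpow_one]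
    refine (hgr n hn).2.trans ?_
    show C₀ * x n * Real.log (x n) ≤ _
    rw [mul_assoc]
    have hlog : Real.log (x n) ≤ 1 + Real.log (x n) := by linarith
    have : 0 ≤ x n := by linarith
    gcongr
  have key := bounded_of_expansion_gen x hx 1 F C₀ hF β z e hz _
    ((univ : Finset (Fin (m + 1))) ×ˢ range (L + 1)) le_rfl ⟨|C₁|, ?_⟩
  · obtain ⟨C'', hC''⟩ := key
    have h1 : Tendsto (fun n => c₀ * Real.log (x n)) atTop atTop :=
      (Real.tendsto_log_atTop.comp hx).const_mul_atTop hc₀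
    have h2 := h1.eventually (eventually_gt_atTop C'')
    obtain ⟨n, hn1, hn2, hn3, hn4⟩ := (h2.and (hC''.and ((eventually_ge_atTop n₀).and
      (hx.eventually (eventually_ge_atTop 1))))).exists
    rw [hFn, Real.rpow_one] at hn2
    have h3 := (hgr n hn3).1
    have h4 : c₀ * x n * Real.log (x n) ≤ C'' * x n := le_trans h3 hn2
    have h5 : 0 < x n := by linarith
    nlinarith
  · filter_upwards [eventually_ge_atTop (k₀ + 3)] with n hn
    have h1 := hC₁ (840 * n - 2) (by omega)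
    have hnh : 840 * n - 2 + 2 = 840 * n := by omega
    simp only [hnh] at h1
    have hn' : (1 : ℝ) ≤ x n := by
      show (1 : ℝ) ≤ ((840 * n : ℕ) : ℝ)
      have : 1 ≤ 840 * n := by omega
      exact_mod_cast this
    have hsum : ∑ i ∈ (univ : Finset (Fin (m + 1))) ×ˢ range (L + 1),
          β i * (((x n) ^ e i : ℝ) : ℂ) * z i ^ n =
        ∑ j, Complex.exp (2 * Real.pi * Complex.I * ((840 * n : ℕ) * (c j : ℂ))) *
          (((x n) ^ d j : ℝ) : ℂ) * b j *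
            (1 + ∑ l ∈ Icc 1 L, a j l * (((x n) ^ (-(l : ℝ) / 2) : ℝ) : ℂ)) := by
      rw [Finset.sum_product]
      refine Finset.sum_congr rfl fun j _ => ?_
      have hzn : Complex.exp (2 * Real.pi * Complex.I * ((840 * n : ℕ) * (c j : ℂ))) =
          Complex.exp (2 * Real.pi * Complex.I * (840 * (c j : ℂ))) ^ n := by
        rw [← Complex.exp_nat_mul]; congr 1; push_cast; ring
      have hr1 : range (L + 1) = insert 0 (Icc 1 L) := by
        ext x; simp only [mem_range, mem_insert, mem_Icc]; omega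
      rw [hr1, Finset.sum_insert (by simp), hzn, mul_add, mul_one, Finset.mul_sum]
      congr 1
      · simp only [β, e, z]
        simp
        ring
      · refine Finset.sum_congr rfl fun l hl => ?_
        have hl0 : l ≠ 0 := by rw [mem_Icc] at hl; omega
        simp only [β, e, z, if_neg hl0]
        have hp : (x n) ^ (d j - (l : ℝ) / 2) = (x n) ^ d j * (x n) ^ (-(l : ℝ) / 2) := by
          rw [← Real.rpow_add (by linarith)]; congr 1; ring
        rw [hp]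
        push_cast
        ring
    rw [hsum]
    refine h1.trans ?_
    show C₁ * (x n) ^ (D - ((L : ℝ) + 1) / 2) ≤ |C₁| * (x n) ^ (1 : ℝ)
    calc C₁ * (x n) ^ (D - ((L : ℝ) + 1) / 2) ≤ |C₁| * (x n) ^ (D - ((L : ℝ) + 1) / 2) :=
          mul_le_mul_of_nonneg_right (le_abs_self _) (Real.rpow_nonneg (by linarith) _)
      _ ≤ |C₁| * (x n) ^ (1 : ℝ) :=
          mul_le_mul_of_nonneg_left (Real.rpow_le_rpow_of_exponent_le hn' hL) (abs_nonneg _)

end Pool.Agent.L0h28.Aec
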