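import Mathlib
import Pool.Agent.L0h28.Aec.TreeDefs

/-!
# The linking matrix is unimodular
-/

set_option autoImplicit false

open Finset H524R3

namespace Pool.Agent.L0h28.Aec

/-- The inverse of the linking matrix. -/
def invMat : Matrix (Fin 13) (Fin 13) ℤ :=
  Matrix.of ![![1, -14, -7, 6, 2, 15, 5, -6, 3, -14, -7, 6, 2],
    ![-14, 210, 105, -90, -30, -210, -70, 84, -42, 196, 98, -84, -28],
    ![-7, 105, 52, -45, -15, -105, -35, 42, -21, 98, 49, -42, -14],
    ![6, -90, -45, 39, 13, 90, 30, -36, 18, -84, -42, 36, 12],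
    ![2, -30, -15, 13, 4, 30, 10, -12, 6, -28, -14, 12, 4],
    ![15, -210, -105, 90, 30, 210, 70, -84, 42, -210, -105, 90, 30],
    ![5, -70, -35, 30, 10, 70, 23, -28, 14, -70, -35, 30, 10],
    ![-6, 84, 42, -36, -12, -84, -28, 34, -17, 84, 42, -36, -12],
    ![3, -42, -21, 18, 6, 42, 14, -17, 9, -42, -21, 18, 6],
    ![-14, 196, 98, -84, -28, -210, -70, 84, -42, 210, 105, -90, -30],
    ![-7, 98, 49, -42, -14, -105, -35, 42, -21, 105, 52, -45, -15],
    ![6, -84, -42, 36, 12, 90, 30, -36, 18, -90, -45, 39, 13],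
    ![2, -28, -14, 12, 4, 30, 10, -12, 6, -30, -15, 13, 4]]

theorem link_entry : ∀ v w : Fin 13, ∑ u : Fin 13, linkingMatrix sphereTree v u * invMat u w =
    if v = w then 1 else 0 := by
  decide +kernel

theorem isUnit_det : IsUnit (linkingMatrix sphereTree).det := by
  refine Matrix.isUnit_det_of_right_inverse (B := invMat) ?_
  ext v w
  rw [Matrix.mul_apply, Matrix.one_apply]
  exact link_entry v w

end Pool.Agent.L0h28.Aec
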